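import Mathlib
import Pool.Agent.V11204.SpanData

/-!
# The primitive element of `F_512` and the evaluation of bit vectors
-/

namespace Pool.Agent.V11204.SpanField
open SpanData

/-- Boolean to `ZMod 2` -/
def bz (b : Bool) : ZMod 2 := if b then 1 else 0

lemma bz_xor (a b : Bool) : bz (xor a b) = bz a + bz b := by cases a <;> cases b <;> decide

lemma bz_inj {a b : Bool} (h : bz a = bz b) : a = b := by
  revert h; cases a <;> cases b <;> decide

section ev
variable {R : Type*} [CommRing R] [CharP R 2]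

/-- evaluation at `x` of the polynomial whose coefficients are the bits of `b` below `10` -/
def ev (x : R) (b : ℕ) : R := ∑ i ∈ Finset.range 10, if b.testBit i then x ^ i else 0

lemma ev_xor (x : R) (a b : ℕ) : ev x (a ^^^ b) = ev x a + ev x b := by
  unfold ev
  rw [← Finset.sum_add_distrib]
  refine Finset.sum_congr rfl fun i _ => ?_
  rw [Nat.testBit_xor]
  cases a.testBit i <;> cases b.testBit i <;> simp [CharTwo.add_self_eq_zero]

omit [CharP R 2] in
lemma ev_two_mul (x : R) {b : ℕ} (hb : b < 512) : ev x (2 * b) = x * ev x b := by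
  unfold ev
  rw [Finset.sum_range_succ', Finset.sum_range_succ _ 9, mul_add]
  have h9 : b.testBit 9 = false := Nat.testBit_lt_two_pow (by norm_num; exact hb)
  have h0 : (2 * b).testBit 0 = false := by simp
  rw [h9, h0]
  simp only [Bool.false_eq_true, if_false, add_zero, mul_zero]
  rw [Finset.mul_sum]
  refine Finset.sum_congr rfl fun i _ => ?_
  rw [show (2 * b).testBit (i + 1) = b.testBit i by
    rw [Nat.testBit_succ]; simp]
  cases b.testBit i <;> simp [pow_succ, mul_comm]

omit [CharP R 2] in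
lemma ev_911 {x : R} (hP : x ^ 9 + x ^ 8 + x ^ 7 + x ^ 3 + x ^ 2 + x + 1 = 0) : ev x 911 = 0 := by
  rw [← hP]
  have h : ∀ i, (911 : ℕ).testBit i = Nat.testBit 911 i := fun _ => rfl
  simp [ev, Finset.sum_range_succ, Nat.testBit, Nat.shiftRight_eq_div_pow]
  ring

omit [CharP R 2] in
lemma ev_one (x : R) : ev x 1 = 1 := by
  simp [ev, Finset.sum_range_succ, Nat.testBit, Nat.shiftRight_eq_div_pow]

omit [CharP R 2] in
lemma ev_zero (x : R) : ev x 0 = 0 := by
  simp [ev]

lemma ev_step {x : R} (hP : x ^ 9 + x ^ 8 + x ^ 7 + x ^ 3 + x ^ 2 + x + 1 = 0) {b : ℕ}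
    (hb : b < 512) : ev x (step b) = x * ev x b := by
  unfold step
  split_ifs
  · rw [ev_xor, ev_911 hP, add_zero, ev_two_mul x hb]
  · exact ev_two_mul x hb

lemma E_lt (j : ℕ) : E j < 512 := Nat.mod_lt _ (by norm_num)

lemma pow_eq {x : R} (hP : x ^ 9 + x ^ 8 + x ^ 7 + x ^ 3 + x ^ 2 + x + 1 = 0) :
    ∀ j < 511, x ^ j = ev x (E j)
  | 0, _ => by rw [E_zero, ev_one, pow_zero]
  | j + 1, h => by
    rw [E_step j (by omega), ev_step hP (E_lt j), ← pow_eq hP j (by omega), pow_succ, mul_comm]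

lemma pow_511 {x : R} (hP : x ^ 9 + x ^ 8 + x ^ 7 + x ^ 3 + x ^ 2 + x + 1 = 0) : x ^ 511 = 1 := by
  rw [show 511 = 510 + 1 from rfl, pow_succ, pow_eq hP 510 (by norm_num), mul_comm,
    ← ev_step hP (E_lt 510), E_last, ev_one]

end ev

section field
variable {K : Type*} [Field K] [CharP K 2]

omit [CharP K 2] in
lemma ne_zero {x : K} (hP : x ^ 9 + x ^ 8 + x ^ 7 + x ^ 3 + x ^ 2 + x + 1 = 0) : x ≠ 0 := by
  rintro rfl
  simp at hP

lemma ev_ne_zero {x : K} (hP : x ^ 9 + x ^ 8 + x ^ 7 + x ^ 3 + x ^ 2 + x + 1 = 0) {b : ℕ}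
    (hb : b < 512) (h0 : 0 < b) : ev x b ≠ 0 := by
  obtain ⟨j, hj, rfl⟩ := E_cover b hb h0
  rw [← pow_eq hP j hj]
  exact pow_ne_zero _ (ne_zero hP)

lemma ev_inj {x : K} (hP : x ^ 9 + x ^ 8 + x ^ 7 + x ^ 3 + x ^ 2 + x + 1 = 0) {a b : ℕ}
    (ha : a < 512) (hb : b < 512) (h : ev x a = ev x b) : a = b := by
  by_contra hab
  have h1 : ev x (a ^^^ b) = 0 := by rw [ev_xor, h, CharTwo.add_self_eq_zero]
  have h2 : a ^^^ b < 2 ^ 9 := Nat.xor_lt_two_pow (by norm_num; exact ha) (by norm_num; exact hb)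
  have h3 : a ^^^ b ≠ 0 := by
    intro h
    exact hab (Nat.xor_eq_zero_iff.mp h)
  exact ev_ne_zero hP (by norm_num at h2; exact h2) (Nat.pos_of_ne_zero h3) h1

lemma order {x : K} (hP : x ^ 9 + x ^ 8 + x ^ 7 + x ^ 3 + x ^ 2 + x + 1 = 0) :
    orderOf x = 511 := by
  rw [orderOf_eq_iff (by norm_num)]
  refine ⟨pow_511 hP, fun j hj h0 h => ?_⟩
  rw [pow_eq hP j hj, ← ev_one x] at h
  exact E_ne_one j hj h0 (ev_inj hP (E_lt j) (by norm_num) h)

end field

/-- a field of 512 elements of characteristic two contains a root of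
`X^9+X^8+X^7+X^3+X^2+X+1` -/
theorem exists_root (K : Type) [Field K] [Fintype K] [CharP K 2] (hK : Fintype.card K = 512) :
    ∃ x : K, x ^ 9 + x ^ 8 + x ^ 7 + x ^ 3 + x ^ 2 + x + 1 = 0 := by
  classical
  let Ω := AlgebraicClosure K
  have : CharP Ω 2 := charP_of_injective_algebraMap (algebraMap K Ω).injective 2
  obtain ⟨w, hw⟩ : ∃ w : Ω, (Polynomial.X ^ 9 + Polynomial.X ^ 8 + Polynomial.X ^ 7 +
      Polynomial.X ^ 3 + Polynomial.X ^ 2 + Polynomial.X + 1 : Polynomial Ω).IsRoot w := by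
    apply IsAlgClosed.exists_root
    have : (Polynomial.X ^ 9 + Polynomial.X ^ 8 + Polynomial.X ^ 7 +
      Polynomial.X ^ 3 + Polynomial.X ^ 2 + Polynomial.X + 1 : Polynomial Ω).natDegree = 9 := by
      compute_degree!
    intro h
    have h' := Polynomial.natDegree_eq_of_degree_eq_some (n := 0) (by simpa using h)
    exact absurd (h'.symm.trans this) (by norm_num)
  have hP : w ^ 9 + w ^ 8 + w ^ 7 + w ^ 3 + w ^ 2 + w + 1 = 0 := by
    simpa [Polynomial.IsRoot] using hw
  have h511 := pow_511 hP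
  by_cases h : ∃ x : K, algebraMap K Ω x = w
  · obtain ⟨x, rfl⟩ := h
    refine ⟨x, (algebraMap K Ω).injective ?_⟩
    simpa using hP
  exfalso
  push Not at h
  let Z : Finset Ω := insert w (Finset.univ.image (algebraMap K Ω))
  have hZ : Z.card = 513 := by
    rw [Finset.card_insert_of_notMem, Finset.card_image_of_injective _ (algebraMap K Ω).injective,
      Finset.card_univ, hK]
    simp only [Finset.mem_image, Finset.mem_univ, true_and, not_exists]
    exact h
  have hne := FiniteField.X_pow_card_sub_X_ne_zero Ω (p := 512) (by norm_num)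
  have hdeg := FiniteField.X_pow_card_sub_X_natDegree_eq Ω (p := 512) (by norm_num)
  have hsub : Z.val ⊆ (Polynomial.X ^ 512 - Polynomial.X : Polynomial Ω).roots := by
    intro y hy
    rw [Polynomial.mem_roots hne]
    simp only [Polynomial.IsRoot, Polynomial.eval_sub, Polynomial.eval_pow, Polynomial.eval_X]
    have hy' : y ∈ Z := hy
    simp only [Z, Finset.mem_insert, Finset.mem_image, Finset.mem_univ, true_and] at hy'
    rcases hy' with rfl | ⟨x, rfl⟩
    · rw [show 512 = 511 + 1 from rfl, pow_succ, h511, one_mul, sub_self]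
    · rw [← map_pow, ← hK, FiniteField.pow_card, sub_self]
  have := Polynomial.card_le_degree_of_subset_roots hsub
  rw [hZ, hdeg] at this
  omega

end Pool.Agent.V11204.SpanField
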