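import Mathlib

/-!
# The lattice `{(f, g) : M ∣ g A - f}`: a short vector, a second vector, and a vector with `g`
coprime to a given number
-/

namespace Pool.Agent.V11204.Lattice2

/-- the sup-norm minimum of the lattice `{(f, g) ≠ 0 : M ∣ g A - f}` -/
noncomputable def rho (M A : ℤ) : ℕ :=
  sInf {r : ℕ | ∃ f g : ℤ, (f ≠ 0 ∨ g ≠ 0) ∧ M ∣ g * A - f ∧ |f| ≤ r ∧ |g| ≤ r}

lemma rho_set_nonempty (M A : ℤ) :
    {r : ℕ | ∃ f g : ℤ, (f ≠ 0 ∨ g ≠ 0) ∧ M ∣ g * A - f ∧ |f| ≤ r ∧ |g| ≤ r}.Nonempty :=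
  ⟨|A|.toNat + 1, A, 1, Or.inr one_ne_zero, by simp, by
    have := Int.toNat_of_nonneg (abs_nonneg A); push_cast; omega, by
    have := Int.toNat_of_nonneg (abs_nonneg A); push_cast; simp⟩

lemma rho_spec (M A : ℤ) : ∃ f g : ℤ, (f ≠ 0 ∨ g ≠ 0) ∧ M ∣ g * A - f ∧
    |f| ≤ (rho M A : ℤ) ∧ |g| ≤ (rho M A : ℤ) :=
  Nat.sInf_mem (rho_set_nonempty M A)

lemma rho_min {M A f g : ℤ} (h0 : f ≠ 0 ∨ g ≠ 0) (h : M ∣ g * A - f) :
    (rho M A : ℤ) ≤ max |f| |g| := by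
  have h1 : (rho M A) ≤ (max |f| |g|).toNat := by
    apply Nat.sInf_le
    have h2 : (0 : ℤ) ≤ max |f| |g| := (abs_nonneg f).trans (le_max_left _ _)
    refine ⟨f, g, h0, h, ?_, ?_⟩
    · rw [Int.toNat_of_nonneg h2]; exact le_max_left _ _
    · rw [Int.toNat_of_nonneg h2]; exact le_max_right _ _
  have h2 : (0 : ℤ) ≤ max |f| |g| := (abs_nonneg f).trans (le_max_left _ _)
  have h3 := Int.toNat_of_nonneg h2
  omega

lemma rho_pos (M A : ℤ) : 1 ≤ rho M A := by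
  obtain ⟨f, g, h0, -, hf, hg⟩ := rho_spec M A
  by_contra h
  have h1 : rho M A = 0 := by omega
  rw [h1] at hf hg
  rcases h0 with h0 | h0
  · exact h0 (abs_nonpos_iff.mp (by simpa using hf))
  · exact h0 (abs_nonpos_iff.mp (by simpa using hg))

lemma exists_round (a b : ℤ) (hb : b ≠ 0) : ∃ k : ℤ, 2 * |a - k * b| ≤ |b| := by
  refine ⟨round ((a : ℚ) / b), ?_⟩
  have h := abs_sub_round ((a : ℚ) / b)
  have hb' : (b : ℚ) ≠ 0 := by exact_mod_cast hb
  have h1 : |(a : ℚ) - round ((a : ℚ) / b) * b| ≤ 1 / 2 * |(b : ℚ)| := by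
    have e : (a : ℚ) - round ((a : ℚ) / b) * b = ((a : ℚ) / b - round ((a : ℚ) / b)) * b := by
      field_simp
    rw [e, abs_mul]
    exact mul_le_mul_of_nonneg_right h (abs_nonneg _)
  have h2 : 2 * |(a : ℚ) - round ((a : ℚ) / b) * b| ≤ |(b : ℚ)| := by linarith
  exact_mod_cast h2

/-- a number `x ∣ N` with `g₂ + x g₁` coprime to `N` -/
lemma exists_coprime_add (N : ℕ) (hN : 1 ≤ N) {g₁ g₂ : ℤ} (h : IsCoprime g₁ g₂) :
    ∃ x : ℕ, x ≤ N ∧ IsCoprime (g₂ + x * g₁) (N : ℤ) := by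
  classical
  let S : Finset ℕ := N.primeFactors.filter fun p : ℕ => ¬ (p : ℤ) ∣ g₂
  have hS : ∀ p ∈ S, p.Prime := fun p hp => Nat.prime_of_mem_primeFactors (Finset.mem_filter.mp hp).1
  refine ⟨∏ p ∈ S, p, ?_, ?_⟩
  · apply Nat.le_of_dvd (by omega)
    apply Finset.prod_primes_dvd
    · intro p hp; exact (hS p hp).prime
    · intro p hp; exact Nat.dvd_of_mem_primeFactors (Finset.mem_filter.mp hp).1
  · rw [Int.isCoprime_iff_gcd_eq_one]
    by_contra hne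
    obtain ⟨p, hp, hpd⟩ := Nat.exists_prime_and_dvd hne
    have h1 : (p : ℤ) ∣ g₂ + (∏ p ∈ S, p : ℕ) * g₁ :=
      (Int.natCast_dvd_natCast.mpr hpd).trans (Int.gcd_dvd_left ..)
    have h2 : (p : ℤ) ∣ (N : ℤ) :=
      (Int.natCast_dvd_natCast.mpr hpd).trans (Int.gcd_dvd_right ..)
    have h3 : p ∣ N := Int.natCast_dvd_natCast.mp h2
    have hpp : Prime (p : ℤ) := Nat.prime_iff_prime_int.mp hp
    by_cases hg : (p : ℤ) ∣ g₂
    · have h4 : (p : ℤ) ∣ (∏ p ∈ S, p : ℕ) * g₁ := (dvd_add_right hg).mp h1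
      rcases hpp.dvd_or_dvd h4 with h5 | h5
      · have h6 : p ∣ ∏ p ∈ S, p := Int.natCast_dvd_natCast.mp h5
        obtain ⟨s, hs, hps⟩ := (Nat.Prime.prime hp).exists_mem_finset_dvd h6
        have : p = s := (Nat.prime_dvd_prime_iff_eq hp (hS s hs)).mp hps
        subst this
        exact (Finset.mem_filter.mp hs).2 hg
      · exact hpp.not_isUnit (h.isUnit_of_dvd' h5 hg)
    · have hpS : p ∈ S := Finset.mem_filter.mpr
        ⟨Nat.mem_primeFactors.mpr ⟨hp, h3, by omega⟩, hg⟩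
      have h4 : (p : ℤ) ∣ (∏ p ∈ S, p : ℕ) * g₁ :=
        Dvd.dvd.mul_right (Int.natCast_dvd_natCast.mpr (Finset.dvd_prod_of_mem _ hpS)) _
      exact hg ((dvd_add_left h4).mp h1)

/-- The second vector: with `ρ = rho M A` there are a shortest vector `(f₁, g₁)` and
`(f₂, g₂)` with `g₁, g₂` coprime, `ρ² ≤ 2M` and `2 ρ |(f₂, g₂)| ≤ ρ² + 2M`. -/
lemma second_vector {M A : ℤ} (hM : 0 < M) : ∃ f₁ g₁ f₂ g₂ : ℤ,
    M ∣ g₁ * A - f₁ ∧ M ∣ g₂ * A - f₂ ∧ IsCoprime g₁ g₂ ∧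
    |f₁| ≤ rho M A ∧ |g₁| ≤ rho M A ∧
    2 * (rho M A * |f₂|) ≤ (rho M A : ℤ) ^ 2 + 2 * M ∧
    2 * (rho M A * |g₂|) ≤ (rho M A : ℤ) ^ 2 + 2 * M ∧ (rho M A : ℤ) ^ 2 ≤ 2 * M := by
  obtain ⟨f₁, g₁, h0, ⟨s₁, hs₁⟩, hf₁, hg₁⟩ := rho_spec M A
  have hρ : (1 : ℤ) ≤ rho M A := by exact_mod_cast rho_pos M A
  set ρ : ℤ := (rho M A : ℤ) with hρdef
  have hmax : ρ ≤ max |f₁| |g₁| := rho_min h0 ⟨s₁, hs₁⟩
  -- `s₁` and `g₁` are coprime
  have hcop : IsCoprime s₁ g₁ := by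
    rw [Int.isCoprime_iff_gcd_eq_one]
    by_contra hne
    have hd0 : Int.gcd s₁ g₁ ≠ 0 := by
      intro h
      rw [Int.gcd_eq_zero_iff] at h
      rw [h.1, h.2] at hs₁
      rcases h0 with h0 | h0
      · apply h0; linarith
      · exact h0 h.2
    have hd2 : (2 : ℤ) ≤ (Int.gcd s₁ g₁ : ℤ) := by omega
    obtain ⟨s', hs'⟩ : (Int.gcd s₁ g₁ : ℤ) ∣ s₁ := Int.gcd_dvd_left ..
    obtain ⟨g', hg'⟩ : (Int.gcd s₁ g₁ : ℤ) ∣ g₁ := Int.gcd_dvd_right ..
    set d : ℤ := (Int.gcd s₁ g₁ : ℤ) with hd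
    have hf' : f₁ = d * (g' * A - M * s') := by
      have : f₁ = g₁ * A - M * s₁ := by linarith
      rw [this, hs', hg']; ring
    have hne' : (g' * A - M * s') ≠ 0 ∨ g' ≠ 0 := by
      rcases h0 with h0 | h0
      · left; intro h; apply h0; rw [hf', h, mul_zero]
      · right; intro h; apply h0; rw [hg', h, mul_zero]
    have hmin := rho_min (M := M) (A := A) hne' ⟨s', by ring⟩
    have a1 : 2 * |g' * A - M * s'| ≤ |f₁| := by
      rw [hf', abs_mul, abs_of_nonneg (by linarith : 0 ≤ d)]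
      exact mul_le_mul_of_nonneg_right hd2 (abs_nonneg _)
    have a2 : 2 * |g'| ≤ |g₁| := by
      rw [hg', abs_mul, abs_of_nonneg (by linarith : 0 ≤ d)]
      exact mul_le_mul_of_nonneg_right hd2 (abs_nonneg _)
    rw [← hρdef] at hmin
    rcases le_max_iff.mp hmin with h | h <;> linarith
  obtain ⟨p, r, hpr⟩ := hcop
  -- `(s₂, g₂) = (-r, p)`: `s₁ p + g₁ r = 1`
  have hf₁' : f₁ = g₁ * A - M * s₁ := by linarith
  -- general vector: `g₂ = p + k g₁`, `s₂ = -r + k s₁`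
  have key : ∀ k : ℤ, ∃ f₂ g₂ : ℤ, g₂ = p - k * g₁ ∧ f₂ = p * A + M * r - k * f₁ ∧
      M ∣ g₂ * A - f₂ ∧ IsCoprime g₁ g₂ ∧ f₁ * g₂ - f₂ * g₁ = - M := by
    intro k
    refine ⟨p * A + M * r - k * f₁, p - k * g₁, rfl, rfl, ⟨-r - k * s₁, ?_⟩, ?_, ?_⟩
    · rw [hf₁']; ring
    · refine ⟨r + s₁ * k, s₁, ?_⟩
      linear_combination hpr
    · rw [hf₁']; linear_combination (-M) * hpr
  rcases le_total |f₁| |g₁| with hle | hle
  · -- `|g₁| = ρ`
    have hg : |g₁| = ρ := le_antisymm hg₁ (by rwa [max_eq_right hle] at hmax)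
    have hg0 : g₁ ≠ 0 := by intro h; rw [h, abs_zero] at hg; omega
    obtain ⟨k, hk⟩ := exists_round p g₁ hg0
    obtain ⟨f₂, g₂, e1, e2, h1, h2, h3⟩ := key k
    rw [← e1, hg] at hk
    have h4 : ρ * |f₂| ≤ ρ * |g₂| + M := by
      have : f₂ * g₁ = f₁ * g₂ + M := by linarith
      have h5 : |f₂ * g₁| ≤ |f₁ * g₂| + M := by
        rw [this]
        have := abs_add_le (f₁ * g₂) M
        rwa [abs_of_pos hM] at this
      rw [abs_mul, abs_mul, hg] at h5
      have h6 : |f₁| * |g₂| ≤ ρ * |g₂| := mul_le_mul_of_nonneg_right hf₁ (abs_nonneg _)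
      linarith
    have hne : f₂ ≠ 0 ∨ g₂ ≠ 0 := by
      by_contra hc
      push Not at hc
      rw [hc.1, hc.2] at h3; simp at h3; omega
    have hmin := rho_min hne h1
    rw [← hρdef] at hmin
    have hfρ : ρ ≤ |f₂| := by
      rcases le_max_iff.mp hmin with h | h
      · exact h
      · linarith
    have b1 : 2 * (ρ * |g₂|) ≤ ρ ^ 2 := by nlinarith
    have b2 : 2 * (ρ * |f₂|) ≤ ρ ^ 2 + 2 * M := by nlinarith
    refine ⟨f₁, g₁, f₂, g₂, ⟨s₁, hs₁⟩, h1, h2, hf₁, hg₁, b2, by linarith, ?_⟩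
    nlinarith
  · -- `|f₁| = ρ`
    have hf : |f₁| = ρ := le_antisymm hf₁ (by rwa [max_eq_left hle] at hmax)
    have hf0 : f₁ ≠ 0 := by intro h; rw [h, abs_zero] at hf; omega
    obtain ⟨k, hk⟩ := exists_round (p * A + M * r) f₁ hf0
    obtain ⟨f₂, g₂, e1, e2, h1, h2, h3⟩ := key k
    rw [← e2, hf] at hk
    have h4 : ρ * |g₂| ≤ ρ * |f₂| + M := by
      have : g₂ * f₁ = f₂ * g₁ - M := by linarith
      have h5 : |g₂ * f₁| ≤ |f₂ * g₁| + M := by
        rw [this]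
        have := abs_sub (f₂ * g₁) M
        rwa [abs_of_pos hM] at this
      rw [abs_mul, abs_mul, hf] at h5
      have h6 : |f₂| * |g₁| ≤ |f₂| * ρ := mul_le_mul_of_nonneg_left hg₁ (abs_nonneg _)
      linarith
    have hne : f₂ ≠ 0 ∨ g₂ ≠ 0 := by
      by_contra hc
      push Not at hc
      rw [hc.1, hc.2] at h3; simp at h3; omega
    have hmin := rho_min hne h1
    rw [← hρdef] at hmin
    have hgρ : ρ ≤ |g₂| := by
      rcases le_max_iff.mp hmin with h | h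
      · linarith
      · exact h
    have b1 : 2 * (ρ * |f₂|) ≤ ρ ^ 2 := by nlinarith
    have b2 : 2 * (ρ * |g₂|) ≤ ρ ^ 2 + 2 * M := by nlinarith
    refine ⟨f₁, g₁, f₂, g₂, ⟨s₁, hs₁⟩, h1, h2, hf₁, hg₁, by linarith, b2, ?_⟩
    nlinarith

/-- a vector with `g` coprime to `N` of norm at most `(2N+2) M / ρ` -/
lemma unit_vector {M A : ℤ} (hM : 0 < M) {N : ℕ} (hN : 1 ≤ N) : ∃ f g : ℤ,
    M ∣ g * A - f ∧ IsCoprime g (N : ℤ) ∧ rho M A * |f| ≤ (2 * N + 2) * M ∧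
    rho M A * |g| ≤ (2 * N + 2) * M := by
  obtain ⟨f₁, g₁, f₂, g₂, h1, h2, hc, hf₁, hg₁, hf₂, hg₂, hρ2⟩ := second_vector (A := A) hM
  obtain ⟨x, hx, hxc⟩ := exists_coprime_add N hN hc
  have hρ : (1 : ℤ) ≤ rho M A := by exact_mod_cast rho_pos M A
  set ρ : ℤ := (rho M A : ℤ)
  have hx' : (x : ℤ) ≤ N := by exact_mod_cast hx
  have hx0 : (0 : ℤ) ≤ x := by positivity
  have bound : ∀ a b : ℤ, |a| ≤ ρ → 2 * (ρ * |b|) ≤ ρ ^ 2 + 2 * M →
      ρ * |b + x * a| ≤ (2 * N + 2) * M := by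
    intro a b ha hb
    have h3 : |b + x * a| ≤ |b| + x * |a| := by
      have := abs_add_le b (x * a)
      rwa [abs_mul, abs_of_nonneg hx0] at this
    have h4 : (x : ℤ) * |a| ≤ N * ρ := mul_le_mul hx' ha (abs_nonneg _) (by positivity)
    have h5 : ρ * |b + x * a| ≤ ρ * (|b| + N * ρ) :=
      mul_le_mul_of_nonneg_left (h3.trans (by linarith)) (by linarith)
    have h6 : (N : ℤ) * ρ ^ 2 ≤ N * (2 * M) := mul_le_mul_of_nonneg_left hρ2 (by positivity)
    nlinarith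
  refine ⟨f₂ + x * f₁, g₂ + x * g₁, ?_, hxc, bound _ _ hf₁ hf₂, bound _ _ hg₁ hg₂⟩
  have := dvd_add h2 (Dvd.dvd.mul_left h1 (x : ℤ))
  have e : g₂ * A - f₂ + (x : ℤ) * (g₁ * A - f₁) = (g₂ + x * g₁) * A - (f₂ + x * f₁) := by ring
  rwa [e] at this

/-! ### Counting residues `A` with a short vector -/

open Classical in
lemma count_g (M : ℕ) (hM : 0 < M) (t : ℕ) (g : ℤ) (hg : g ≠ 0) (hgt : |g| ≤ t) :
    ((Finset.range M).filter fun A : ℕ => ∃ f : ℤ, |f| ≤ t ∧ (M : ℤ) ∣ g * A - f).card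
      ≤ 3 * t := by
  classical
  set S := (Finset.range M).filter fun A : ℕ => ∃ f : ℤ, |f| ≤ t ∧ (M : ℤ) ∣ g * A - f
  have he0 : 0 < Int.gcd g M := Int.gcd_pos_of_ne_zero_left _ hg
  obtain ⟨g', hg'⟩ : (Int.gcd g M : ℤ) ∣ g := Int.gcd_dvd_left ..
  obtain ⟨m, hm⟩ : (Int.gcd g M : ℤ) ∣ (M : ℤ) := Int.gcd_dvd_right ..
  have hab := Int.gcd_eq_gcd_ab g M
  set e : ℕ := Int.gcd g M with he
  have hepos : (0 : ℤ) < e := by exact_mod_cast he0
  have hM' : (0 : ℤ) < M := by exact_mod_cast hM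
  have hmpos : 0 < m := by
    rw [hm] at hM'
    exact (mul_pos_iff_of_pos_left hepos).mp hM'
  have hcop : IsCoprime g' m := by
    refine ⟨Int.gcdA g M, Int.gcdB g M, ?_⟩
    apply mul_left_cancel₀ hepos.ne'
    have : (e : ℤ) * (Int.gcdA g M * g' + Int.gcdB g M * m) =
      (e * g') * Int.gcdA g M + (e * m) * Int.gcdB g M := by ring
    rw [this, ← hg', ← hm, mul_one]
    exact hab.symm
  have hele : e ≤ t := by
    have h1 : (e : ℤ) ≤ |g| := Int.le_of_dvd (abs_pos.mpr hg) ((dvd_abs _ _).mpr ⟨g', hg'⟩)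
    have : (e : ℤ) ≤ t := h1.trans hgt
    exact_mod_cast this
  -- reduced data
  have hex : ∀ A ∈ S, ∃ f : ℤ, |f| ≤ ((t / e : ℕ) : ℤ) ∧ m ∣ g' * A - f := by
    intro A hA
    obtain ⟨f, hf, hd⟩ := (Finset.mem_filter.mp hA).2
    have h1 : (e : ℤ) ∣ f := by
      have h2 : (e : ℤ) ∣ g * A - f := (Dvd.intro _ hm.symm).trans hd
      have h3 : (e : ℤ) ∣ g * A := Dvd.dvd.mul_right ⟨g', hg'⟩ _
      exact (dvd_sub_right h3).mp h2
    obtain ⟨f', rfl⟩ := h1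
    refine ⟨f', ?_, ?_⟩
    · rw [abs_mul, abs_of_pos hepos] at hf
      have h2 : (e : ℤ) * (f'.natAbs : ℤ) ≤ t := by rwa [Int.natCast_natAbs]
      have h3 : f'.natAbs ≤ t / e := by
        rw [Nat.le_div_iff_mul_le he0]
        have : e * f'.natAbs ≤ t := by exact_mod_cast h2
        linarith [mul_comm e f'.natAbs]
      rw [← Int.natCast_natAbs]; exact_mod_cast h3
    · rw [hg', hm] at hd
      have : (e : ℤ) * g' * A - e * f' = e * (g' * A - f') := by ring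
      rw [this] at hd
      exact Int.dvd_of_mul_dvd_mul_left hepos.ne' hd
  choose! F hF1 hF2 using hex
  have hinj : Set.InjOn (fun A : ℕ => (F A, (A : ℤ) / m)) (S : Set ℕ) := by
    intro A hA B hB hAB
    simp only [Prod.mk.injEq] at hAB
    have h1 := dvd_sub (hF2 A hA) (hF2 B hB)
    rw [hAB.1] at h1
    have h2 : g' * (A : ℤ) - F B - (g' * B - F B) = g' * ((A : ℤ) - B) := by ring
    rw [h2] at h1
    have h3 : m ∣ (A : ℤ) - B := hcop.symm.dvd_of_dvd_mul_left h1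
    have h4 : (A : ℤ) % m = (B : ℤ) % m :=
      Int.emod_eq_emod_iff_emod_sub_eq_zero.mpr (Int.emod_eq_zero_of_dvd h3)
    have h5 : (A : ℤ) = B := by
      rw [← Int.emod_add_mul_ediv (A : ℤ) m, ← Int.emod_add_mul_ediv (B : ℤ) m, h4, hAB.2]
    exact_mod_cast h5
  have hmaps : Set.MapsTo (fun A : ℕ => (F A, (A : ℤ) / m)) (S : Set ℕ)
      ((Finset.Icc (-((t / e : ℕ) : ℤ)) ((t / e : ℕ) : ℤ) ×ˢ Finset.Ico (0 : ℤ) e :
        Finset (ℤ × ℤ)) : Set (ℤ × ℤ)) := by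
    intro A hA
    simp only [Finset.coe_product, Set.mem_prod, Finset.mem_coe, Finset.mem_Icc, Finset.mem_Ico]
    refine ⟨abs_le.mp (hF1 A hA), Int.ediv_nonneg (by positivity) hmpos.le, ?_⟩
    have hAM : (A : ℤ) < M := by
      exact_mod_cast Finset.mem_range.mp (Finset.mem_filter.mp hA).1
    rw [hm] at hAM
    exact Int.ediv_lt_of_lt_mul hmpos hAM
  have hcard := Finset.card_le_card_of_injOn _ hmaps hinj
  rw [Finset.card_product, Int.card_Icc, Int.card_Ico] at hcard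
  have h1 : ((((t / e : ℕ) : ℤ) + 1 - -((t / e : ℕ) : ℤ)).toNat) = 2 * (t / e) + 1 := by omega
  have h2 : (((e : ℤ) - 0).toNat) = e := by simp
  rw [h1, h2] at hcard
  have h3 : (t / e) * e ≤ t := Nat.div_mul_le_self t e
  nlinarith

lemma count_rho (M : ℕ) (hM : 0 < M) (t : ℕ) (ht : t < M) :
    ((Finset.range M).filter fun A : ℕ => rho M A ≤ t).card ≤ 6 * t ^ 2 := by
  classical
  have hsub : ((Finset.range M).filter fun A : ℕ => rho M A ≤ t) ⊆
      ((Finset.Icc (-(t : ℤ)) t).erase 0).biUnion fun g =>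
        (Finset.range M).filter fun A : ℕ => ∃ f : ℤ, |f| ≤ t ∧ (M : ℤ) ∣ g * A - f := by
    intro A hA
    obtain ⟨hA1, hA2⟩ := Finset.mem_filter.mp hA
    obtain ⟨f, g, h0, hd, hf, hg⟩ := rho_spec M A
    have hA2' : (rho M A : ℤ) ≤ t := by exact_mod_cast hA2
    have hg0 : g ≠ 0 := by
      rintro rfl
      rcases h0 with h0 | h0
      · rw [zero_mul, zero_sub, dvd_neg] at hd
        have := Int.le_of_dvd (abs_pos.mpr h0) ((dvd_abs _ _).mpr hd)
        have h4 : (t : ℤ) < M := by exact_mod_cast ht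
        linarith
      · exact h0 rfl
    rw [Finset.mem_biUnion]
    refine ⟨g, ?_, ?_⟩
    · rw [Finset.mem_erase, Finset.mem_Icc]
      exact ⟨hg0, abs_le.mp (hg.trans hA2')⟩
    · rw [Finset.mem_filter]
      exact ⟨hA1, f, hf.trans hA2', hd⟩
  refine (Finset.card_le_card hsub).trans (Finset.card_biUnion_le.trans ?_)
  have h1 : ∀ g ∈ (Finset.Icc (-(t : ℤ)) t).erase 0,
      ((Finset.range M).filter fun A : ℕ => ∃ f : ℤ, |f| ≤ t ∧ (M : ℤ) ∣ g * A - f).card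
        ≤ 3 * t := by
    intro g hg
    rw [Finset.mem_erase, Finset.mem_Icc] at hg
    exact count_g M hM t g hg.1 (abs_le.mpr hg.2)
  refine (Finset.sum_le_card_nsmul _ _ _ h1).trans ?_
  rw [Finset.card_erase_of_mem (by simp), Int.card_Icc]
  have h2 : ((t : ℤ) + 1 - -(t : ℤ)).toNat - 1 = 2 * t := by omega
  rw [h2, smul_eq_mul]
  nlinarith

/-- the average of `log_N ρ` is at least `n/2 - 3` -/
theorem sum_log_rho {N : ℕ} (hN : 2 ≤ N) (n : ℕ) :
    (N : ℝ) ^ n * (n / 2 - 3) ≤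
      ∑ A ∈ Finset.range (N ^ n), Real.logb N (rho ((N ^ n : ℕ) : ℤ) (A : ℕ)) := by
  classical
  have hN0 : (0 : ℝ) < N := by positivity
  have hN1 : (1 : ℝ) < N := by exact_mod_cast (by omega : 1 < N)
  let P : ℕ → ℕ → Prop := fun j A => N ^ (2 * j) * rho ((N ^ n : ℕ) : ℤ) (A : ℕ) ^ 2 < N ^ n
  let m : ℕ → ℕ := fun A => ((Finset.range (n + 1)).filter fun j => P j A).card
  have hm : ∀ A, (n : ℝ) / 2 - Real.logb N (rho ((N ^ n : ℕ) : ℤ) (A : ℕ)) ≤ m A := by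
    intro A
    set r := rho ((N ^ n : ℕ) : ℤ) (A : ℕ) with hr
    have hr1 : 1 ≤ r := rho_pos _ _
    have hr0 : (0 : ℝ) < r := by exact_mod_cast hr1
    have hkey : N ^ n ≤ N ^ (2 * m A) * r ^ 2 := by
      by_contra hlt
      push Not at hlt
      have hmle : m A ≤ n := by
        by_contra hgt
        push Not at hgt
        have h1 : n ≤ 2 * m A := by omega
        have h2 : N ^ n ≤ N ^ (2 * m A) := Nat.pow_le_pow_right (by omega) h1
        have h3 : N ^ (2 * m A) * 1 ≤ N ^ (2 * m A) * r ^ 2 :=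
          Nat.mul_le_mul_left _ (Nat.one_le_pow _ _ hr1)
        omega
      have hsub : Finset.range (m A + 1) ⊆ (Finset.range (n + 1)).filter fun j => P j A := by
        intro j hj
        rw [Finset.mem_range] at hj
        rw [Finset.mem_filter, Finset.mem_range]
        refine ⟨by omega, ?_⟩
        have : N ^ (2 * j) ≤ N ^ (2 * m A) := Nat.pow_le_pow_right (by omega) (by omega)
        exact lt_of_le_of_lt (Nat.mul_le_mul_right _ this) hlt
      have := Finset.card_le_card hsub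
      rw [Finset.card_range] at this
      have hmA : m A = ((Finset.range (n + 1)).filter fun j => P j A).card := rfl
      omega
    have hkey' : (N : ℝ) ^ n ≤ (N : ℝ) ^ (2 * m A) * (r : ℝ) ^ 2 := by exact_mod_cast hkey
    have h1 := Real.logb_le_logb_of_le hN1 (by positivity) hkey'
    rw [Real.logb_mul (by positivity) (by positivity), Real.logb_pow, Real.logb_pow,
      Real.logb_pow, Real.logb_self_eq_one hN1] at h1
    push_cast at h1
    linarith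
  have hcount : ∀ j, 1 ≤ j →
      (((Finset.range (N ^ n)).filter fun A => P j A).card : ℝ) ≤
        6 * (N : ℝ) ^ n * (1 / 4) ^ j := by
    intro j hj
    have hpos : 0 < N ^ (2 * j) := by positivity
    set t := Nat.sqrt (N ^ n / N ^ (2 * j)) with ht
    have ht2 : t ^ 2 ≤ N ^ n / N ^ (2 * j) := by rw [pow_two]; exact Nat.sqrt_le _
    have hlt : t < N ^ n := by
      have h1 : N ^ n / N ^ (2 * j) < N ^ n := Nat.div_lt_self (by positivity)
        (Nat.one_lt_pow (by omega) (by omega))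
      have h2 : t ≤ t ^ 2 := Nat.le_self_pow (by norm_num) t
      omega
    have hsub : ((Finset.range (N ^ n)).filter fun A => P j A) ⊆
        (Finset.range (N ^ n)).filter fun A : ℕ => rho ((N ^ n : ℕ) : ℤ) A ≤ t := by
      intro A hA
      obtain ⟨h1, h2⟩ := Finset.mem_filter.mp hA
      refine Finset.mem_filter.mpr ⟨h1, ?_⟩
      rw [ht, Nat.le_sqrt, Nat.le_div_iff_mul_le hpos]
      have : P j A := h2
      simp only [P] at this
      nlinarith
    have h1 := (Finset.card_le_card hsub).trans (count_rho (N ^ n) (by positivity) t hlt)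
    have h2 : (((Finset.range (N ^ n)).filter fun A => P j A).card : ℝ) ≤ 6 * (t : ℝ) ^ 2 := by
      exact_mod_cast h1
    have h3 : (t : ℝ) ^ 2 ≤ (N : ℝ) ^ n / (N : ℝ) ^ (2 * j) := by
      have h4 : ((t ^ 2 : ℕ) : ℝ) ≤ ((N ^ n / N ^ (2 * j) : ℕ) : ℝ) := by exact_mod_cast ht2
      have h5 : ((N ^ n / N ^ (2 * j) : ℕ) : ℝ) ≤ ((N ^ n : ℕ) : ℝ) / ((N ^ (2 * j) : ℕ) : ℝ) :=
        Nat.cast_div_le
      push_cast at h4 h5
      linarith
    have h4 : (N : ℝ) ^ n / (N : ℝ) ^ (2 * j) ≤ (N : ℝ) ^ n * (1 / 4) ^ j := by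
      rw [div_eq_mul_inv]
      apply mul_le_mul_of_nonneg_left _ (by positivity)
      rw [pow_mul, one_div, inv_pow]
      apply inv_anti₀ (by positivity)
      apply pow_le_pow_left₀ (by norm_num)
      have : (2 : ℝ) ≤ N := by exact_mod_cast hN
      nlinarith
    nlinarith
  -- swap the sums
  have hswap : ∑ A ∈ Finset.range (N ^ n), (m A : ℝ) =
      ∑ j ∈ Finset.range (n + 1), (((Finset.range (N ^ n)).filter fun A => P j A).card : ℝ) := by
    have h1 : ∀ A, (m A : ℝ) = ∑ j ∈ Finset.range (n + 1), if P j A then (1 : ℝ) else 0 := by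
      intro A
      rw [Finset.sum_boole]
    have h2 : ∀ j, (((Finset.range (N ^ n)).filter fun A => P j A).card : ℝ) =
        ∑ A ∈ Finset.range (N ^ n), if P j A then (1 : ℝ) else 0 := by
      intro j
      rw [Finset.sum_boole]
    simp_rw [h1, h2]
    exact Finset.sum_comm
  have hsum : ∑ A ∈ Finset.range (N ^ n), (m A : ℝ) ≤ 3 * (N : ℝ) ^ n := by
    rw [hswap, Finset.sum_range_succ']
    have h0 : (((Finset.range (N ^ n)).filter fun A => P 0 A).card : ℝ) ≤ (N : ℝ) ^ n := by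
      have := Finset.card_filter_le (Finset.range (N ^ n)) (fun A => P 0 A)
      rw [Finset.card_range] at this
      exact_mod_cast this
    have h1 : ∑ j ∈ Finset.range n, (((Finset.range (N ^ n)).filter fun A => P (j + 1) A).card : ℝ)
        ≤ ∑ j ∈ Finset.range n, 6 * (N : ℝ) ^ n * (1 / 4) ^ (j + 1) :=
      Finset.sum_le_sum fun j _ => hcount (j + 1) (by omega)
    have h2 : ∑ j ∈ Finset.range n, 6 * (N : ℝ) ^ n * (1 / 4 : ℝ) ^ (j + 1) ≤ 2 * (N : ℝ) ^ n := by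
      have h3 : ∀ j : ℕ, 6 * (N : ℝ) ^ n * (1 / 4 : ℝ) ^ (j + 1) =
          (3 / 2 * (N : ℝ) ^ n) * (1 / 4 : ℝ) ^ j := fun j => by rw [pow_succ]; ring
      simp_rw [h3]
      rw [← Finset.mul_sum, geom_sum_eq (by norm_num)]
      have h4 : (0 : ℝ) ≤ (1 / 4) ^ n := by positivity
      have h5 : (0 : ℝ) < (N : ℝ) ^ n := by positivity
      have h6 : ((1 / 4 : ℝ) ^ n - 1) / (1 / 4 - 1) ≤ 4 / 3 := by
        rw [div_le_iff_of_neg (by norm_num)]; linarith
      nlinarith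
    linarith
  have hfin : ∑ A ∈ Finset.range (N ^ n),
      ((n : ℝ) / 2 - Real.logb N (rho ((N ^ n : ℕ) : ℤ) (A : ℕ))) ≤ 3 * (N : ℝ) ^ n :=
    (Finset.sum_le_sum fun A _ => hm A).trans hsum
  rw [Finset.sum_sub_distrib, Finset.sum_const, Finset.card_range, nsmul_eq_mul] at hfin
  push_cast at hfin ⊢
  linarith

end Pool.Agent.V11204.Lattice2
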