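import Mathlib

/-!
# `N`-adic numbers of digit sequences: rationality and eventual periodicity
-/

namespace Pool.Agent.V11204.NAdic

/-- eventual periodicity of a sequence -/
def EventuallyPeriodic {S : Type} (b : ℕ → S) : Prop :=
  ∃ k p : ℕ, 0 < p ∧ ∀ i, k ≤ i → b (i + p) = b i

/-- the partial sum `∑_{i<n} b_i N^i` -/
def psum {N : ℕ} (b : ℕ → Fin N) (n : ℕ) : ℤ :=
  ∑ i ∈ Finset.range n, ((b i : ℕ) : ℤ) * (N : ℤ) ^ i

/-- the `N`-adic number `∑ b_i N^i` equals `u / g`: for every `n`, `N^n` divides
`g * ∑_{i<n} b_i N^i - u`. -/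
def Represents {N : ℕ} (b : ℕ → Fin N) (u g : ℤ) : Prop :=
  ∀ n : ℕ, (N : ℤ) ^ n ∣ g * psum b n - u

variable {N : ℕ}

lemma psum_succ (b : ℕ → Fin N) (n : ℕ) :
    psum b (n + 1) = psum b n + ((b n : ℕ) : ℤ) * (N : ℤ) ^ n := by
  unfold psum; rw [Finset.sum_range_succ]

lemma psum_zero (b : ℕ → Fin N) : psum b 0 = 0 := by simp [psum]

lemma psum_nonneg (b : ℕ → Fin N) (n : ℕ) : 0 ≤ psum b n := by
  unfold psum; positivity

lemma psum_lt (b : ℕ → Fin N) (n : ℕ) : psum b n < (N : ℤ) ^ n := by
  induction n with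
  | zero => simp [psum_zero]
  | succ n ih =>
    rw [psum_succ, pow_succ]
    have h1 : ((b n : ℕ) : ℤ) + 1 ≤ N := by
      have := (b n).2; omega
    have h2 : (0 : ℤ) ≤ (N : ℤ) ^ n := by positivity
    nlinarith

lemma psum_congr {a b : ℕ → Fin N} {n : ℕ} (h : ∀ i < n, b i = a i) : psum b n = psum a n := by
  unfold psum
  refine Finset.sum_congr rfl fun i hi => ?_
  rw [h i (Finset.mem_range.mp hi)]

lemma psum_dvd (b : ℕ → Fin N) {n m : ℕ} (h : n ≤ m) : (N : ℤ) ^ n ∣ psum b m - psum b n := by
  induction m, h using Nat.le_induction with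
  | base => simp
  | succ m hm ih =>
    rw [psum_succ]
    have h1 : (N : ℤ) ^ n ∣ ((b m : ℕ) : ℤ) * (N : ℤ) ^ m :=
      Dvd.dvd.mul_left (pow_dvd_pow _ hm) _
    have : psum b m + ((b m : ℕ) : ℤ) * (N : ℤ) ^ m - psum b n =
      (psum b m - psum b n) + ((b m : ℕ) : ℤ) * (N : ℤ) ^ m := by ring
    rw [this]
    exact dvd_add ih h1

/-- equal partial sums mean equal digits -/
lemma digits_eq {a b : ℕ → Fin N} (hN : 0 < N) : ∀ {n : ℕ}, psum b n = psum a n →
    ∀ i < n, b i = a i
  | 0, _, i, hi => absurd hi (by omega)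
  | n + 1, h, i, hi => by
    have h0 : psum b n = psum a n := by
      have h1 := psum_dvd b (Nat.le_succ n)
      have h2 := psum_dvd a (Nat.le_succ n)
      have h3 : (N : ℤ) ^ n ∣ psum a n - psum b n := by
        have := dvd_sub h1 h2
        rw [show n.succ = n + 1 from rfl, h] at this
        have e : psum a (n + 1) - psum b n - (psum a (n + 1) - psum a n) =
          psum a n - psum b n := by ring
        rwa [e] at this
      have h4 := psum_lt a n
      have h5 := psum_lt b n
      have h6 := psum_nonneg a n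
      have h7 := psum_nonneg b n
      have h8 := Int.eq_zero_of_abs_lt_dvd h3 (by rw [abs_lt]; constructor <;> linarith)
      linarith
    rcases Nat.lt_succ_iff_lt_or_eq.mp hi with h' | rfl
    · exact digits_eq hN h0 i h'
    · rw [psum_succ, psum_succ, h0] at h
      have h1 : (0 : ℤ) < (N : ℤ) ^ i := by positivity
      have h2 : ((b i : ℕ) : ℤ) = ((a i : ℕ) : ℤ) := by
        have := add_left_cancel h
        exact mul_right_cancel₀ h1.ne' this
      exact Fin.ext (by exact_mod_cast h2)

/-- It suffices to know the divisibility for arbitrarily large `n`. -/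
lemma represents_of_large {b : ℕ → Fin N} {u g : ℤ} (k : ℕ)
    (h : ∀ n, k ≤ n → (N : ℤ) ^ n ∣ g * psum b n - u) : Represents b u g := by
  intro n
  have h1 := h (max n k) (le_max_right _ _)
  have h2 : (N : ℤ) ^ n ∣ g * psum b (max n k) - u :=
    (pow_dvd_pow _ (le_max_left n k)).trans h1
  have h3 := psum_dvd b (le_max_left n k)
  have h4 := dvd_sub h2 (Dvd.dvd.mul_left h3 g)
  have e : g * psum b (max n k) - u - g * (psum b (max n k) - psum b n) = g * psum b n - u := by
    ring
  rwa [e] at h4

/-- An eventually periodic sequence represents a rational number whose denominator is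
coprime to `N`. -/
theorem rational_of_eventuallyPeriodic (hN : 2 ≤ N) {b : ℕ → Fin N} (hb : EventuallyPeriodic b) :
    ∃ u g : ℤ, 0 < g ∧ IsCoprime g (N : ℤ) ∧ Represents b u g := by
  obtain ⟨k, p, hp, h⟩ := hb
  let C : ℕ → ℤ := fun n => ∑ j ∈ Finset.range p, ((b (n + j) : ℕ) : ℤ) * (N : ℤ) ^ j
  have hC : ∀ n, k ≤ n → (N : ℤ) * C (n + 1) = C n + ((N : ℤ) ^ p - 1) * ((b n : ℕ) : ℤ) := by
    intro n hn
    have e1 : (N : ℤ) * C (n + 1) =
        ∑ j ∈ Finset.range p, ((b (n + (j + 1)) : ℕ) : ℤ) * (N : ℤ) ^ (j + 1) := by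
      simp only [C]
      rw [Finset.mul_sum]
      refine Finset.sum_congr rfl fun j _ => ?_
      rw [show n + 1 + j = n + (j + 1) by ring, pow_succ]
      ring
    have e2 := Finset.sum_range_succ' (fun j => ((b (n + j) : ℕ) : ℤ) * (N : ℤ) ^ j) p
    have e3 := Finset.sum_range_succ (fun j => ((b (n + j) : ℕ) : ℤ) * (N : ℤ) ^ j) p
    rw [e3] at e2
    simp only [add_zero, pow_zero, mul_one] at e2
    rw [e1]
    have e4 : C n = ∑ j ∈ Finset.range p, ((b (n + j) : ℕ) : ℤ) * (N : ℤ) ^ j := rfl
    rw [h n hn] at e2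
    linarith
  have hNp : (1 : ℤ) < (N : ℤ) ^ p := by
    have : (1 : ℤ) < N := by exact_mod_cast (by omega : 1 < N)
    exact one_lt_pow₀ this hp.ne'
  refine ⟨psum b k * ((N : ℤ) ^ p - 1) - (N : ℤ) ^ k * C k, (N : ℤ) ^ p - 1, by linarith, ?_, ?_⟩
  · refine ⟨-1, (N : ℤ) ^ (p - 1), ?_⟩
    have : (N : ℤ) ^ (p - 1) * N = (N : ℤ) ^ p := by
      rw [← pow_succ]; congr 1; omega
    rw [this]; ring
  · apply represents_of_large k
    have key : ∀ n, k ≤ n → ((N : ℤ) ^ p - 1) * psum b n -
        (psum b k * ((N : ℤ) ^ p - 1) - (N : ℤ) ^ k * C k) = (N : ℤ) ^ n * C n := by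
      intro n hn
      induction n, hn using Nat.le_induction with
      | base => ring
      | succ n hn ih =>
        rw [psum_succ, pow_succ]
        have := hC n hn
        have e : (N : ℤ) ^ n * N * C (n + 1) = (N : ℤ) ^ n * (N * C (n + 1)) := by ring
        rw [e, this]
        linear_combination ih
    intro n hn
    rw [key n hn]
    exact Dvd.intro _ rfl

/-- Every rational number `u / g` with `g > 0` coprime to `N` is represented by a (unique)
eventually periodic sequence. -/
theorem exists_digits (hN : 2 ≤ N) (u g : ℤ) (hg : 0 < g) (hc : IsCoprime g (N : ℤ)) :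
    ∃ b : ℕ → Fin N, EventuallyPeriodic b ∧ Represents b u g := by
  obtain ⟨h, t, ht⟩ := hc
  have hN0 : (0 : ℤ) < N := by exact_mod_cast (by omega : 0 < N)
  have hN1 : (1 : ℤ) < N := by exact_mod_cast (by omega : 1 < N)
  let d : ℤ → ℤ := fun x => (x * h) % N
  let nx : ℤ → ℤ := fun x => (x - d x * g) / N
  have hd0 : ∀ x, 0 ≤ d x := fun x => Int.emod_nonneg _ hN0.ne'
  have hd1 : ∀ x, d x < N := fun x => Int.emod_lt_of_pos _ hN0
  have hdvd : ∀ x, (N : ℤ) ∣ x - d x * g := by
    intro x
    have e : x - d x * g = (x * h - d x) * g + x * t * N := by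
      linear_combination (-x) * ht
    rw [e]
    apply dvd_add
    · exact Dvd.dvd.mul_right (Int.dvd_self_sub_emod) _
    · exact Dvd.intro_left _ rfl
  have hnx : ∀ x, x = d x * g + N * nx x := by
    intro x
    have := Int.mul_ediv_cancel' (hdvd x)
    simp only [nx]
    linarith
  let st : ℕ → ℤ := fun i => nx^[i] u
  have hst : ∀ i, st (i + 1) = nx (st i) := fun i => Function.iterate_succ_apply' nx i u
  let b : ℕ → Fin N := fun i => ⟨(d (st i)).toNat, by
    have := hd0 (st i); have := hd1 (st i); omega⟩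
  have hb : ∀ i, ((b i : ℕ) : ℤ) = d (st i) := fun i => by
    simp only [b]; exact Int.toNat_of_nonneg (hd0 _)
  have hrep : ∀ n, u = g * psum b n + (N : ℤ) ^ n * st n := by
    intro n
    induction n with
    | zero => simp [psum_zero, st]
    | succ n ih =>
      rw [psum_succ, hb, hst, pow_succ]
      have := hnx (st n)
      linear_combination ih + (N : ℤ) ^ n * this
  refine ⟨b, ?_, fun n => ?_⟩
  · -- boundedness of the states
    let M : ℤ := max |u| g
    have hM : ∀ i, |st i| ≤ M := by
      intro i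
      induction i with
      | zero => simp [st, M]
      | succ i ih =>
        rw [hst]
        have h1 := hnx (st i)
        have h2 : (N : ℤ) * |nx (st i)| ≤ N * M := by
          have e : (N : ℤ) * |nx (st i)| = |(N : ℤ) * nx (st i)| := by
            rw [abs_mul, abs_of_pos hN0]
          have e2 : (N : ℤ) * nx (st i) = st i - d (st i) * g := by linarith
          rw [e, e2]
          have h3 : |st i - d (st i) * g| ≤ |st i| + d (st i) * g := by
            have := abs_sub (st i) (d (st i) * g)
            rw [abs_of_nonneg (mul_nonneg (hd0 _) hg.le)] at this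
            exact this
          have h4 : d (st i) * g ≤ (N - 1) * M := by
            have a1 : d (st i) ≤ N - 1 := by have := hd1 (st i); omega
            have a2 : g ≤ M := le_max_right _ _
            exact mul_le_mul a1 a2 hg.le (by linarith)
          linarith
        exact le_of_mul_le_mul_left h2 hN0
    have hfin : ¬ Function.Injective st := by
      intro hinj
      have : Set.Infinite (Set.range st) := Set.infinite_range_of_injective hinj
      apply this
      apply (Set.finite_Icc (-M) M).subset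
      rintro _ ⟨i, rfl⟩
      exact ⟨(abs_le.mp (hM i)).1, (abs_le.mp (hM i)).2⟩
    obtain ⟨i, j, hij, hlt⟩ : ∃ i j, st i = st j ∧ i < j := by
      unfold Function.Injective at hfin
      push Not at hfin
      obtain ⟨i, j, h1, h2⟩ := hfin
      rcases lt_or_gt_of_ne h2 with h | h
      · exact ⟨i, j, h1, h⟩
      · exact ⟨j, i, h1.symm, h⟩
    have hper : ∀ m, st (i + m + (j - i)) = st (i + m) := by
      intro m
      induction m with
      | zero => rw [add_zero, show i + (j - i) = j by omega]; exact hij.symm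
      | succ m ih =>
        rw [show i + (m + 1) + (j - i) = (i + m + (j - i)) + 1 by ring, hst, ih,
          show i + (m + 1) = i + m + 1 by ring, hst]
    refine ⟨i, j - i, by omega, fun m hm => ?_⟩
    obtain ⟨t, rfl⟩ := Nat.exists_eq_add_of_le hm
    simp only [b]
    exact Fin.ext (by simp only [hper t])
  · rw [show g * psum b n - u = (N : ℤ) ^ n * (- st n) by linear_combination -(hrep n)]
    exact Dvd.intro _ rfl

/-- If `u/g` is congruent to the first `n` digits of `a`, then its sequence extends these. -/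
theorem extends_of_dvd (hN : 0 < N) {a b : ℕ → Fin N} {u g : ℤ} {n : ℕ}
    (hc : IsCoprime g (N : ℤ)) (hb : Represents b u g) (h : (N : ℤ) ^ n ∣ g * psum a n - u) :
    ∀ i < n, b i = a i := by
  apply digits_eq hN
  have h1 := dvd_sub (hb n) h
  have e : g * psum b n - u - (g * psum a n - u) = (psum b n - psum a n) * g := by ring
  rw [e] at h1
  have h2 : (N : ℤ) ^ n ∣ psum b n - psum a n :=
    (IsCoprime.pow_left hc.symm).dvd_of_dvd_mul_right h1
  have h3 := Int.eq_zero_of_abs_lt_dvd h2 (by
    have h4 := psum_lt a n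
    have h5 := psum_lt b n
    have h6 := psum_nonneg a n
    have h7 := psum_nonneg b n
    rw [abs_lt]; constructor <;> linarith)
  linarith

end Pool.Agent.V11204.NAdic
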