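import Mathlib

/-!
Combinatorial core of the finite basis theorem for the flat Brandt semirings `B₂` and `B₀`:
sets of words closed under the zigzag rule.
-/

set_option autoImplicit false

namespace Pool.Agent.V11204.FlatCore

/-- A set of nonempty words closed under the zigzag rule. -/
structure Closed (W : Set (List ℕ)) : Prop where
  ne : ∀ w ∈ W, w ≠ []
  z : ∀ (P b c d e Q : List ℕ) (X Y : Option ℕ), (X = none → c = [] ∧ e = []) →
    (Y = none → b = [] ∧ d = []) → P ++ Y.toList ++ b ∈ W →
    c ++ X.toList ++ Y.toList ++ d ∈ W → e ++ X.toList ++ Q ∈ W → P ++ Q ≠ [] → P ++ Q ∈ W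

/-- The junction `(α, β)` occurs in a word of `W`. -/
def J (W : Set (List ℕ)) (α β : Option ℕ) : Prop :=
  ∃ a b : List ℕ, (α = none → a = []) ∧ (β = none → b = []) ∧
    a ++ α.toList ++ β.toList ++ b ∈ W

/-- The list of junctions of a word read after the letter `α`. -/
def junc : Option ℕ → List ℕ → List (Option ℕ × Option ℕ)
  | α, [] => [(α, none)]
  | α, x :: w => (α, some x) :: junc (some x) w

/-- A path from `i` to `j` reading `w`. -/
def Pth (s t : ℕ → Fin 2) : Fin 2 → List ℕ → Fin 2 → Prop
  | i, [], j => i = j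
  | i, x :: w, j => s x = i ∧ Pth s t (t x) w j

variable {W : Set (List ℕ)}

lemma Closed.not_J (hW : Closed W) : ¬ J W none none := by
  rintro ⟨a, b, ha, hb, h⟩
  have := hW.ne _ h
  simp [ha rfl, hb rfl] at this

lemma Closed.splice (hW : Closed W) {P b e Q : List ℕ} {l β : Option ℕ}
    (hβ : β = none → b = []) (h1 : P ++ β.toList ++ b ∈ W) (hJ : J W l β)
    (hl : l = none → e = []) (h2 : e ++ l.toList ++ Q ∈ W) (hne : P ++ Q ≠ []) : P ++ Q ∈ W := by
  obtain ⟨c, d, hc, hd, h⟩ := hJ
  exact hW.z P b c d e Q l β (fun h => ⟨hc h, hl h⟩) (fun h => ⟨hβ h, hd h⟩) h1 h h2 hne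

lemma Closed.zig (hW : Closed W) {α β α' β' : Option ℕ} (h1 : J W α β) (h2 : J W α' β)
    (h3 : J W α' β') (hne : α ≠ none ∨ β' ≠ none) : J W α β' := by
  obtain ⟨a, b, ha, hb, h⟩ := h1
  obtain ⟨e, f, he, hf, h'⟩ := h3
  refine ⟨a, f, ha, hf, ?_⟩
  have := hW.splice (P := a ++ α.toList) (b := b) (e := e) (Q := β'.toList ++ f) hb h h2 he
    (by simpa using h') (by
      rcases hne with hne | hne
      · cases α with
        | none => exact absurd rfl hne
        | some x => simp
      · cases β' with
        | none => exact absurd rfl hne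
        | some x => simp)
  simpa using this

lemma Closed.cross (hW : Closed W) {a v a' v' : List ℕ} {α : Option ℕ}
    (ha : α = none → a = []) (ha' : α = none → a' = [])
    (h : a ++ α.toList ++ v ∈ W) (h' : a' ++ α.toList ++ v' ∈ W)
    (hne : a ++ α.toList ++ v' ≠ []) : a ++ α.toList ++ v' ∈ W := by
  cases α with
  | none => simpa [ha rfl, ha' rfl] using h'
  | some x =>
    cases v with
    | nil =>
      exact hW.splice (P := a ++ (some x).toList) (b := []) (e := a') (Q := v') (l := some x)
        (β := none) (by simp) (by simpa using h) ⟨a, [], by simp, by simp, by simpa using h⟩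
        (by simp) h' hne
    | cons q v =>
      exact hW.splice (P := a ++ (some x).toList) (b := v) (e := a') (Q := v') (l := some x)
        (β := some q) (by simp) (by simpa using h) ⟨a, v, by simp, by simp, by simpa using h⟩
        (by simp) h' hne

lemma junc_of_mem {w2 : List ℕ} : ∀ {a : List ℕ} {α : Option ℕ}, (α = none → a = []) →
    a ++ α.toList ++ w2 ∈ W → ∀ q ∈ junc α w2, J W q.1 q.2 := by
  induction w2 with
  | nil =>
    intro a α ha h q hq
    simp only [junc, List.mem_singleton] at hq
    subst hq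
    exact ⟨a, [], ha, by simp, by simpa using h⟩
  | cons x w ih =>
    intro a α ha h q hq
    simp only [junc, List.mem_cons] at hq
    rcases hq with rfl | hq
    · exact ⟨a, w, ha, by simp, by simpa using h⟩
    · exact ih (a := a ++ α.toList) (α := some x) (by simp) (by simpa using h) q hq

lemma junc_ne {w : List ℕ} : ∀ {α : Option ℕ}, (α ≠ none ∨ w ≠ []) →
    ∀ q ∈ junc α w, q.1 ≠ none ∨ q.2 ≠ none := by
  induction w with
  | nil =>
    intro α h q hq
    simp only [junc, List.mem_singleton] at hq
    subst hq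
    rcases h with h | h
    · exact Or.inl h
    · exact absurd rfl h
  | cons x w ih =>
    intro α h q hq
    simp only [junc, List.mem_cons] at hq
    rcases hq with rfl | hq
    · exact Or.inr (by simp)
    · exact ih (Or.inl (by simp)) q hq

lemma Closed.build (hW : Closed W) {w2 : List ℕ} : ∀ {a : List ℕ} {α : Option ℕ},
    (α = none → a = []) → (∀ q ∈ junc α w2, J W q.1 q.2) → (∃ Q, a ++ α.toList ++ Q ∈ W) →
    a ++ α.toList ++ w2 ≠ [] → a ++ α.toList ++ w2 ∈ W := by
  induction w2 with
  | nil =>
    intro a α ha h hQ hne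
    obtain ⟨Q, hQ⟩ := hQ
    obtain ⟨a', b, ha', hb, h'⟩ := h (α, none) (by simp [junc])
    have hb' := hb rfl
    subst hb'
    exact hW.cross ha ha' hQ (by simpa using h') hne
  | cons x w ih =>
    intro a α ha h hQ hne
    obtain ⟨Q, hQ⟩ := hQ
    obtain ⟨a', b, ha', hb, h'⟩ := h (α, some x) (by simp [junc])
    have h1 : a ++ α.toList ++ (x :: b) ∈ W :=
      hW.cross ha ha' hQ (by simpa using h') (by simp)
    have := ih (a := a ++ α.toList) (α := some x) (by simp)
      (fun q hq => h q (by simp [junc, hq])) ⟨b, by simpa using h1⟩ (by simp)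
    simpa using this

lemma Closed.mem_of_junc (hW : Closed W) (hne : W.Nonempty) {w : List ℕ} (hw : w ≠ [])
    (h : ∀ q ∈ junc none w, J W q.1 q.2) : w ∈ W := by
  obtain ⟨Q, hQ⟩ := hne
  have := hW.build (a := []) (α := none) (by simp) h ⟨Q, by simpa using hQ⟩ (by simpa using hw)
  simpa using this

lemma pth_iff (cL cR : Option ℕ → Fin 2) {w : List ℕ} : ∀ α : Option ℕ,
    (Pth (fun x => cR (some x)) (fun x => cL (some x)) (cL α) w (cR none) ↔
      ∀ q ∈ junc α w, cL q.1 = cR q.2) := by
  induction w with
  | nil => intro α; simp [Pth, junc]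
  | cons x w ih =>
    intro α
    simp only [Pth, junc, List.mem_cons, forall_eq_or_imp]
    rw [ih (some x)]
    constructor
    · rintro ⟨h1, h2⟩; exact ⟨h1.symm, h2⟩
    · rintro ⟨h1, h2⟩; exact ⟨h1.symm, h2⟩

/-- occurrences of left nodes -/
lemma exists_right {w : List ℕ} (hw : w ∈ W) {x : ℕ} (hx : x ∈ w) :
    ∃ β, J W (some x) β := by
  obtain ⟨a, b, rfl⟩ := List.append_of_mem hx
  cases b with
  | nil => exact ⟨none, a, [], by simp, by simp, by simpa using hw⟩
  | cons y b => exact ⟨some y, a, b, by simp, by simp, by simpa using hw⟩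

lemma exists_left {w : List ℕ} (hw : w ∈ W) {x : ℕ} (hx : x ∈ w) :
    ∃ α, J W α (some x) := by
  obtain ⟨a, b, rfl⟩ := List.append_of_mem hx
  rcases List.eq_nil_or_concat a with rfl | ⟨a, z, rfl⟩
  · exact ⟨none, [], b, by simp, by simp, by simpa using hw⟩
  · exact ⟨some z, a, b, by simp, by simp, by simpa using hw⟩

lemma Closed.exists_first (hW : Closed W) {w : List ℕ} (hw : w ∈ W) : ∃ β, J W none β := by
  cases w with
  | nil => exact absurd rfl (hW.ne _ hw)
  | cons x w => exact ⟨some x, [], w, by simp, by simp, by simpa using hw⟩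

lemma Closed.exists_last (hW : Closed W) {w : List ℕ} (hw : w ∈ W) : ∃ α, J W α none := by
  rcases List.eq_nil_or_concat w with rfl | ⟨a, z, rfl⟩
  · exact absurd rfl (hW.ne _ hw)
  · exact ⟨some z, a, [], by simp, by simp, by simpa using hw⟩

lemma mem_of_junc_fst {w : List ℕ} : ∀ {α : Option ℕ}, ∀ q ∈ junc α w, q.1 = α ∨
    ∃ x ∈ w, q.1 = some x := by
  induction w with
  | nil =>
    intro α q hq
    simp only [junc, List.mem_singleton] at hq
    subst hq; exact Or.inl rfl
  | cons x w ih =>
    intro α q hq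
    simp only [junc, List.mem_cons] at hq
    rcases hq with rfl | hq
    · exact Or.inl rfl
    · rcases ih q hq with h | ⟨y, hy, h⟩
      · exact Or.inr ⟨x, by simp, h⟩
      · exact Or.inr ⟨y, by simp [hy], h⟩

lemma mem_of_junc_snd {w : List ℕ} : ∀ {α : Option ℕ}, ∀ q ∈ junc α w, q.2 = none ∨
    ∃ x ∈ w, q.2 = some x := by
  induction w with
  | nil =>
    intro α q hq
    simp only [junc, List.mem_singleton] at hq
    subst hq; exact Or.inl rfl
  | cons x w ih =>
    intro α q hq
    simp only [junc, List.mem_cons] at hq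
    rcases hq with rfl | hq
    · exact Or.inr ⟨x, by simp, rfl⟩
    · rcases ih q hq with h | ⟨y, hy, h⟩
      · exact Or.inl h
      · exact Or.inr ⟨y, by simp [hy], h⟩

/-- Core statement for `B₂`: if every two-colouring compatible with the words of `A ⊆ W` is
compatible with `w`, then `w ∈ W`. -/
theorem core2 (hW : Closed W) {A : Set (List ℕ)} (hA : A ⊆ W) (hAne : A.Nonempty)
    {w : List ℕ} (hw : w ≠ []) (hcont : ∀ x ∈ w, ∃ w' ∈ A, x ∈ w')
    (hcol : ∀ (s t : ℕ → Fin 2) (i j : Fin 2), (∀ w' ∈ A, Pth s t i w' j) → Pth s t i w j) :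
    w ∈ W := by
  classical
  obtain ⟨w0, hw0⟩ := hAne
  refine hW.mem_of_junc ⟨w0, hA hw0⟩ hw ?_
  intro q hq
  obtain ⟨α, β⟩ := q
  have hne : α ≠ none ∨ β ≠ none := junc_ne (Or.inr hw) _ hq
  -- a right neighbour of α
  have hα : ∃ β₀, J W α β₀ := by
    rcases mem_of_junc_fst _ hq with h | ⟨x, hx, h⟩
    · simp only at h; subst h; exact hW.exists_first (hA hw0)
    · simp only at h; subst h
      obtain ⟨w', hw', hx'⟩ := hcont x hx
      exact exists_right (hA hw') hx'
  obtain ⟨β₀, hβ₀⟩ := hα
  let N : Option ℕ → Prop := fun β' => J W α β' ∨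
    (α = none ∧ β' = none ∧ ∃ α₁ β₁, J W none β₁ ∧ J W α₁ β₁ ∧ J W α₁ none)
  let M : Option ℕ → Prop := fun α' => ∃ β', N β' ∧ J W α' β'
  have hcons : ∀ α' β', J W α' β' → (M α' ↔ N β') := by
    intro α' β' hJ
    constructor
    · rintro ⟨β₁, hN, hJ1⟩
      rcases hN with hN | ⟨hαn, hβn, α₃, β₃, h1, h2, h3⟩
      · by_cases hc : α ≠ none ∨ β' ≠ none
        · exact Or.inl (hW.zig hN hJ1 hJ hc)
        · push Not at hc
          refine Or.inr ⟨hc.1, hc.2, α', β₁, ?_, hJ1, ?_⟩
          · rw [← hc.1]; exact hN
          · rw [← hc.2]; exact hJ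
      · subst hβn
        have hα₃ : α₃ ≠ none := by
          rintro rfl; exact hW.not_J h3
        have h4 : J W α₃ β' := hW.zig h3 hJ1 hJ (Or.inl hα₃)
        by_cases hβ' : β' = none
        · exact Or.inr ⟨hαn, hβ', α₃, β₃, h1, h2, h3⟩
        · refine Or.inl ?_
          rw [hαn]
          exact hW.zig h1 h2 h4 (Or.inr hβ')
    · intro hN
      exact ⟨β', hN, hJ⟩
  let cL : Option ℕ → Fin 2 := fun a => if M a then 1 else 0
  let cR : Option ℕ → Fin 2 := fun a => if N a then 1 else 0
  have hc : ∀ α' β', J W α' β' → cL α' = cR β' := by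
    intro α' β' hJ
    have := hcons α' β' hJ
    by_cases hM : M α'
    · have hN := this.1 hM
      simp only [cL, cR, if_pos hM, if_pos hN]
    · have hN : ¬ N β' := fun h => hM (this.2 h)
      simp only [cL, cR, if_neg hM, if_neg hN]
  have hp := hcol (fun x => cR (some x)) (fun x => cL (some x)) (cL none) (cR none) (by
    intro w' hw'
    rw [pth_iff]
    intro q hq
    exact hc _ _ (junc_of_mem (a := []) (α := none) (by simp) (by simpa using hA hw') q hq))
  rw [pth_iff] at hp
  have h1 := hp _ hq
  have hM : M α := ⟨β₀, Or.inl hβ₀, hβ₀⟩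
  simp only [cL, cR, if_pos hM] at h1
  have hN : N β := by
    by_contra hN
    simp [hN] at h1
  rcases hN with hN | ⟨ha, hb, _⟩
  · exact hN
  · rcases hne with h | h
    · exact absurd ha h
    · exact absurd hb h

/-- `β` is reachable from `α`. -/
def R (W : Set (List ℕ)) (α β : Option ℕ) : Prop :=
  ∃ a m b : List ℕ, (α = none → a = []) ∧ (β = none → b = []) ∧
    a ++ α.toList ++ m ++ β.toList ++ b ∈ W

/-- Core statement for `B₀`. -/
theorem core0 (hW : Closed W)
    (hL : ∀ (a b c d : List ℕ) (x y : ℕ), a ++ x :: (b ++ y :: (c ++ x :: d)) ∈ W →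
      a ++ x :: (b ++ y :: y :: (c ++ x :: d)) ∈ W)
    {A : Set (List ℕ)} (hA : A ⊆ W) (hAne : A.Nonempty)
    {w : List ℕ} (hw : w ≠ []) (hcont : ∀ x ∈ w, ∃ w' ∈ A, x ∈ w')
    (hcol : ∀ (s t : ℕ → Fin 2) (i j : Fin 2), (∀ x, s x ≤ t x) →
      (∀ w' ∈ A, Pth s t i w' j) → Pth s t i w j) :
    w ∈ W := by
  classical
  obtain ⟨w0, hw0⟩ := hAne
  have hw0' := hA hw0
  refine hW.mem_of_junc ⟨w0, hw0'⟩ hw ?_
  intro q hq
  obtain ⟨γ, β⟩ := q
  have hne : γ ≠ none ∨ β ≠ none := junc_ne (Or.inr hw) _ hq
  have hγ : ∃ β₀, J W γ β₀ := by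
    rcases mem_of_junc_fst _ hq with h | ⟨x, hx, h⟩
    · simp only at h; subst h; exact hW.exists_first hw0'
    · simp only at h; subst h
      obtain ⟨w', hw', hx'⟩ := hcont x hx
      exact exists_right (hA hw') hx'
  have hβ : ∃ l, J W l β := by
    rcases mem_of_junc_snd _ hq with h | ⟨x, hx, h⟩
    · simp only at h; subst h; exact hW.exists_last hw0'
    · simp only at h; subst h
      obtain ⟨w', hw', hx'⟩ := hcont x hx
      exact exists_left (hA hw') hx'
  obtain ⟨β₀, hβ₀⟩ := hγ
  obtain ⟨l, hl⟩ := hβ
  have JR : ∀ {α β}, J W α β → R W α β := by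
    rintro α β ⟨a, b, ha, hb, h⟩
    exact ⟨a, [], b, ha, hb, by simpa using h⟩
  have hRnn : R W none none := ⟨[], w0, [], by simp, by simp, by simpa using hw0'⟩
  -- the colouring attached to a left node
  have key : ∀ α : Option ℕ, (∃ δ, J W γ δ ∧ R W α δ) ↔ R W α β := by
    intro α
    let cR : Option ℕ → Fin 2 := fun a => if R W α a then 1 else 0
    let cL : Option ℕ → Fin 2 := fun a => if ∃ δ, J W a δ ∧ R W α δ then 1 else 0
    have hcons : ∀ α' β', J W α' β' → ((∃ δ, J W α' δ ∧ R W α δ) ↔ R W α β') := by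
      intro α' β' hJ
      constructor
      · rintro ⟨δ, hJ1, a, m, b, ha, hb, h⟩
        obtain ⟨e, f, he, hf, h'⟩ := hJ
        by_cases hemp : (a ++ α.toList ++ m) ++ (β'.toList ++ f) = []
        · simp only [List.append_eq_nil_iff] at hemp
          obtain ⟨⟨⟨h1, h2⟩, h3⟩, h4, h5⟩ := hemp
          have hα : α = none := by
            cases α with
            | none => rfl
            | some x => simp at h2
          have hβ' : β' = none := by
            cases β' with
            | none => rfl
            | some x => simp at h4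
          rw [hα, hβ']; exact hRnn
        · have := hW.splice (P := a ++ α.toList ++ m) (b := b) (e := e) (Q := β'.toList ++ f)
            (l := α') (β := δ) hb h hJ1 he (by simpa using h') hemp
          exact ⟨a, m, f, ha, hf, by simpa using this⟩
      · intro h; exact ⟨β', hJ, h⟩
    have hc : ∀ α' β', J W α' β' → cL α' = cR β' := by
      intro α' β' hJ
      have := hcons α' β' hJ
      by_cases hM : ∃ δ, J W α' δ ∧ R W α δ
      · have hN := this.1 hM
        simp only [cL, cR, if_pos hM, if_pos hN]
      · have hN : ¬ R W α β' := fun h => hM (this.2 h)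
        simp only [cL, cR, if_neg hM, if_neg hN]
    have hmono : ∀ x, cR (some x) ≤ cL (some x) := by
      intro x
      by_cases h : R W α (some x)
      · have h2 : ∃ δ, J W (some x) δ ∧ R W α δ := by
          obtain ⟨a, m, b, ha, hb, h⟩ := h
          cases b with
          | nil =>
            refine ⟨none, ⟨a ++ α.toList ++ m, [], by simp, by simp, by simpa using h⟩,
              a, m ++ [x], [], ha, by simp, by simpa using h⟩
          | cons y b =>
            refine ⟨some y, ⟨a ++ α.toList ++ m, b, by simp, by simp, by simpa using h⟩,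
              a, m ++ [x], b, ha, by simp, by simpa using h⟩
        simp only [cL, cR, if_pos h, if_pos h2, le_refl]
      · simp only [cR, if_neg h]
        exact Fin.zero_le _
    have hp := hcol (fun x => cR (some x)) (fun x => cL (some x)) (cL none) (cR none) hmono (by
      intro w' hw'
      rw [pth_iff]
      intro q hq
      exact hc _ _ (junc_of_mem (a := []) (α := none) (by simp) (by simpa using hA hw') q hq))
    rw [pth_iff] at hp
    have h1 := hp _ hq
    simp only [cL, cR] at h1
    constructor
    · intro h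
      by_contra h'
      rw [if_pos h, if_neg h'] at h1
      exact absurd h1 (by decide)
    · intro h
      by_contra h'
      rw [if_neg h', if_pos h] at h1
      exact absurd h1 (by decide)
  have hR1 : R W γ β := (key γ).1 ⟨β₀, hβ₀, JR hβ₀⟩
  obtain ⟨β', hγβ', hR2⟩ := (key l).2 (JR hl)
  obtain ⟨a1, m1, b1, ha1, hb1, h1⟩ := hR1
  obtain ⟨a2, m2, b2, ha2, hb2, h2⟩ := hR2
  cases m1 with
  | nil => exact ⟨a1, b1, ha1, hb1, by simpa using h1⟩
  | cons h r =>
    cases m2 with
    | nil =>
      exact hW.zig hγβ' ⟨a2, b2, ha2, hb2, by simpa using h2⟩ hl hne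
    | cons h' r' =>
      set m1 := h :: r with hm1
      set m2 := h' :: r' with hm2
      have step : ∀ m, a1 ++ γ.toList ++ m ++ β.toList ++ b1 ∈ W →
          a1 ++ γ.toList ++ (m ++ m2 ++ m1) ++ β.toList ++ b1 ∈ W := by
        intro m hm
        have hA1 : (a1 ++ γ.toList ++ m) ++ (m2 ++ β'.toList ++ b2) ∈ W :=
          hW.splice (b := b1) (e := a2) (l := l) (β := β) hb1 hm hl ha2
            (by simpa using h2) (by simp [hm2])
        have hA2 : (a1 ++ γ.toList ++ m ++ m2) ++ (m1 ++ β.toList ++ b1) ∈ W :=
          hW.splice (b := b2) (e := a1) (l := γ) (β := β') hb2 (by simpa using hA1) hγβ' ha1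
            (by simpa using h1) (by simp [hm1])
        simpa using hA2
      have hD := step _ (step _ h1)
      -- each letter of m1 is a loop
      have hloop : ∀ z ∈ m1, J W (some z) (some z) := by
        intro z hz
        obtain ⟨r1, r2, hr⟩ := List.append_of_mem hz
        rw [hr] at hD
        have := hL (a1 ++ γ.toList ++ r1) (r2 ++ m2 ++ r1) (r2 ++ m2 ++ r1)
          (r2 ++ β.toList ++ b1) z z (by simpa using hD)
        exact ⟨a1 ++ γ.toList ++ r1 ++ z :: (r2 ++ m2 ++ r1),
          r2 ++ m2 ++ r1 ++ z :: (r2 ++ β.toList ++ b1), by simp, by simp, by simpa using this⟩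
      have hchain : ∀ (pre suf : List ℕ), m1 = pre ++ suf → suf ≠ [] →
          ∃ z s', suf = z :: s' ∧ J W γ (some z) := by
        intro pre
        induction pre using List.reverseRecOn with
        | nil =>
          intro suf hs hne'
          simp only [List.nil_append] at hs
          refine ⟨h, r, by rw [← hs], a1, r ++ β.toList ++ b1, ha1, by simp, ?_⟩
          simpa [hm1] using h1
        | append_singleton pre x ih =>
          intro suf hs hne'
          cases suf with
          | nil => exact absurd rfl hne'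
          | cons y suf =>
            refine ⟨y, suf, rfl, ?_⟩
            obtain ⟨z, s', hz, hJz⟩ := ih (x :: y :: suf) (by simpa using hs) (by simp)
            simp only [List.cons.injEq] at hz
            obtain ⟨rfl, rfl⟩ := hz
            have hx : J W (some x) (some x) := hloop x (by rw [hs]; simp)
            have hxy : J W (some x) (some y) := by
              refine ⟨a1 ++ γ.toList ++ pre, suf ++ β.toList ++ b1, by simp, by simp, ?_⟩
              have h1' := h1
              rw [hs] at h1'
              simpa using h1'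
            exact hW.zig hJz hx hxy (Or.inr (by simp))
      -- last letter
      rcases List.eq_nil_or_concat m1 with hnil | ⟨pre, z, hpz⟩
      · exact absurd hnil (by simp [hm1])
      · rw [List.concat_eq_append] at hpz
        obtain ⟨z', s', hz', hJz⟩ := hchain pre [z] hpz (by simp)
        simp only [List.cons.injEq] at hz'
        obtain ⟨rfl, rfl⟩ := hz'
        have hzz : J W (some z) (some z) := hloop z (by rw [hpz]; simp)
        have hzβ : J W (some z) β := by
          refine ⟨a1 ++ γ.toList ++ pre, b1, by simp, hb1, ?_⟩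
          have h1' := h1
          rw [hpz] at h1'
          simpa using h1'
        exact hW.zig hJz hzz hzβ hne

end Pool.Agent.V11204.FlatCore
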