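import Mathlib
import Pool.Agent.V11204.FlatCore

/-!
Terms, identities and equational deduction in the signature `{+, ·}`, and the transfer of the zigzag
rule to additively idempotent semirings.
-/

set_option autoImplicit false

namespace Pool.Agent.V11204.FlatAlg

open Pool.Agent.V11204.FlatCore

universe u

/-- Terms in the signature `{+, ·}` over countably many variables. -/
inductive Tm : Type
  | var : ℕ → Tm
  | add : Tm → Tm → Tm
  | mul : Tm → Tm → Tm

/-- Value of a term. -/
def Tm.eval {S : Type u} [Add S] [Mul S] (φ : ℕ → S) : Tm → S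
  | .var n => φ n
  | .add t u => t.eval φ + u.eval φ
  | .mul t u => t.eval φ * u.eval φ

/-- Substitution of terms for variables. -/
def Tm.subst (σ : ℕ → Tm) : Tm → Tm
  | .var n => σ n
  | .add t u => .add (t.subst σ) (u.subst σ)
  | .mul t u => .mul (t.subst σ) (u.subst σ)

/-- `S` satisfies the identity `e.1 ≈ e.2`. -/
def Satisfies (S : Type u) [Add S] [Mul S] (e : Tm × Tm) : Prop :=
  ∀ φ : ℕ → S, e.1.eval φ = e.2.eval φ

/-- Equational deduction from a set of identities. -/
inductive Derives (Γ : Set (Tm × Tm)) : Tm → Tm → Prop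
  | ax {t u : Tm} (σ : ℕ → Tm) : (t, u) ∈ Γ → Derives Γ (t.subst σ) (u.subst σ)
  | refl (t : Tm) : Derives Γ t t
  | symm {t u : Tm} : Derives Γ t u → Derives Γ u t
  | trans {t u v : Tm} : Derives Γ t u → Derives Γ u v → Derives Γ t v
  | add {t t' u u' : Tm} : Derives Γ t t' → Derives Γ u u' → Derives Γ (.add t u) (.add t' u')
  | mul {t t' u u' : Tm} : Derives Γ t t' → Derives Γ u u' → Derives Γ (.mul t u) (.mul t' u')

/-- `S` is finitely based. -/
def FinitelyBased (S : Type u) [Add S] [Mul S] : Prop :=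
  ∃ Γ : Set (Tm × Tm), Γ.Finite ∧ (∀ e ∈ Γ, Satisfies S e) ∧
    ∀ t u : Tm, Satisfies S (t, u) → Derives Γ t u

/-- Additively idempotent semirings. -/
class AIS (T : Type u) extends Semigroup T, Add T where
  add_assoc' : ∀ a b c : T, a + b + c = a + (b + c)
  add_comm' : ∀ a b : T, a + b = b + a
  add_idem' : ∀ a : T, a + a = a
  left_distrib' : ∀ a b c : T, a * (b + c) = a * b + a * c
  right_distrib' : ∀ a b c : T, (a + b) * c = a * c + b * c

section AIS

variable {T : Type u} [AIS T]

/-- The set of words of a term. -/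
def words : Tm → Set (List ℕ)
  | .var n => {[n]}
  | .add t u => words t ∪ words u
  | .mul t u => {w | ∃ a ∈ words t, ∃ b ∈ words u, w = a ++ b}

lemma words_ne {t : Tm} : ∀ w ∈ words t, w ≠ [] := by
  induction t with
  | var n => intro w hw; simp only [words, Set.mem_singleton_iff] at hw; simp [hw]
  | add t u iht ihu =>
    intro w hw
    rcases hw with hw | hw
    · exact iht w hw
    · exact ihu w hw
  | mul t u iht ihu =>
    rintro w ⟨a, ha, b, hb, rfl⟩
    have := iht a ha
    simp [this]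

lemma words_nonempty (t : Tm) : (words t).Nonempty := by
  induction t with
  | var n => exact ⟨[n], rfl⟩
  | add t u iht ihu => obtain ⟨w, hw⟩ := iht; exact ⟨w, Or.inl hw⟩
  | mul t u iht ihu =>
    obtain ⟨a, ha⟩ := iht
    obtain ⟨b, hb⟩ := ihu
    exact ⟨a ++ b, a, ha, b, hb, rfl⟩

/-- Value of a (possibly empty) word in the semigroup with identity adjoined. -/
def pr (φ : ℕ → T) (w : List ℕ) : WithOne T := (w.map (fun n => (φ n : WithOne T))).prod

lemma pr_append (φ : ℕ → T) (a b : List ℕ) : pr φ (a ++ b) = pr φ a * pr φ b := by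
  simp [pr]

lemma pr_cons (φ : ℕ → T) (n : ℕ) (b : List ℕ) : pr φ (n :: b) = (φ n : WithOne T) * pr φ b := by
  simp [pr]

@[simp] lemma pr_nil (φ : ℕ → T) : pr φ [] = 1 := by simp [pr]

lemma withOne_cases (z : WithOne T) : z = 1 ∨ ∃ x : T, z = x := by
  exact WithOne.cases_on z (Or.inl rfl) (fun a => Or.inr ⟨a, rfl⟩)

lemma pr_exists (φ : ℕ → T) {w : List ℕ} (hw : w ≠ []) : ∃ x : T, pr φ w = x := by
  cases w with
  | nil => exact absurd rfl hw
  | cons n w =>
    rw [pr_cons]
    rcases withOne_cases (pr φ w) with h | ⟨x, h⟩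
    · exact ⟨φ n, by rw [h, mul_one]⟩
    · exact ⟨φ n * x, by rw [h, WithOne.coe_mul]⟩

lemma pr_eq_one_iff (φ : ℕ → T) {w : List ℕ} : pr φ w = 1 ↔ w = [] := by
  constructor
  · intro h
    by_contra hw
    obtain ⟨x, hx⟩ := pr_exists φ hw
    rw [hx] at h
    exact WithOne.coe_ne_one h
  · rintro rfl; simp

lemma add_le_iff (p a b : T) : p + (a + b) = p ↔ p + a = p ∧ p + b = p := by
  constructor
  · intro h
    constructor
    · calc p + a = (p + (a + b)) + a := by rw [h]
        _ = p + (a + b) := by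
            rw [AIS.add_assoc', AIS.add_assoc', AIS.add_comm' b a, ← AIS.add_assoc' a a b,
              AIS.add_idem']
        _ = p := h
    · calc p + b = (p + (a + b)) + b := by rw [h]
        _ = p + (a + b) := by
            rw [AIS.add_assoc', AIS.add_assoc', AIS.add_idem']
        _ = p := h
  · rintro ⟨h1, h2⟩
    rw [← AIS.add_assoc', h1, h2]

lemma le_eval (φ : ℕ → T) (p : T) (t : Tm) : ∀ F : T → T, (∀ x y, F (x + y) = F x + F y) →
    (p + F (t.eval φ) = p ↔ ∀ w ∈ words t, ∀ x : T, pr φ w = x → p + F x = p) := by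
  induction t with
  | var n =>
    intro F hF
    simp only [Tm.eval, words, Set.mem_singleton_iff, forall_eq]
    constructor
    · intro h x hx
      have : φ n = x := by
        rw [pr_cons, pr_nil, mul_one] at hx
        exact WithOne.coe_inj.1 hx
      rw [← this]; exact h
    · intro h
      exact h (φ n) (by rw [pr_cons, pr_nil, mul_one])
  | add t u iht ihu =>
    intro F hF
    simp only [Tm.eval, words, Set.mem_union]
    rw [hF, add_le_iff, iht F hF, ihu F hF]
    constructor
    · rintro ⟨h1, h2⟩ w (hw | hw)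
      · exact h1 w hw
      · exact h2 w hw
    · intro h
      exact ⟨fun w hw => h w (Or.inl hw), fun w hw => h w (Or.inr hw)⟩
  | mul t u iht ihu =>
    intro F hF
    simp only [Tm.eval, words, Set.mem_ofPred_eq]
    rw [iht (fun x => F (x * u.eval φ)) (by
      intro x y
      simp only [AIS.right_distrib', hF])]
    constructor
    · rintro h w ⟨a, ha, b, hb, rfl⟩ z hz
      obtain ⟨x, hx⟩ := pr_exists φ (words_ne a ha)
      obtain ⟨y, hy⟩ := pr_exists φ (words_ne b hb)
      have h1 := h a ha x hx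
      have h2 := (ihu (fun y => F (x * y)) (by
        intro y z; simp only [AIS.left_distrib', hF])).1 h1 b hb y hy
      have : z = x * y := by
        rw [pr_append, hx, hy, ← WithOne.coe_mul] at hz
        exact (WithOne.coe_inj.1 hz).symm
      rw [this]; exact h2
    · intro h a ha x hx
      refine (ihu (fun y => F (x * y)) (by
        intro y z; simp only [AIS.left_distrib', hF])).2 ?_
      intro b hb y hy
      refine h (a ++ b) ⟨a, ha, b, hb, rfl⟩ (x * y) ?_
      rw [pr_append, hx, hy, WithOne.coe_mul]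

/-- The words below `p`. -/
def Wd (φ : ℕ → T) (p : T) : Set (List ℕ) := {w | ∃ x : T, pr φ w = x ∧ p + x = p}

lemma le_eval' (φ : ℕ → T) (p : T) (t : Tm) : p + t.eval φ = p ↔ words t ⊆ Wd φ p := by
  have := le_eval φ p t id (fun _ _ => rfl)
  simp only [id] at this
  rw [this]
  constructor
  · intro h w hw
    obtain ⟨x, hx⟩ := pr_exists φ (words_ne w hw)
    exact ⟨x, hx, h w hw x hx⟩
  · intro h w hw x hx
    obtain ⟨y, hy, hp⟩ := h hw
    rw [hx] at hy
    rw [WithOne.coe_inj.1 hy]; exact hp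

variable (T) in
/-- The zigzag law. -/
def ZAx : Prop := ∀ (P b c d e Q X Y : WithOne T), (X = 1 → c = 1 ∧ e = 1) →
  (Y = 1 → b = 1 ∧ d = 1) → ∀ x1 x2 x3 x4 : T, P * Y * b = x1 → c * X * Y * d = x2 →
  e * X * Q = x3 → P * Q = x4 → x1 + x2 + x3 + x4 = x1 + x2 + x3

variable (T) in
/-- The loop law. -/
def LAx : Prop := ∀ (a b c d : WithOne T) (x y : T), ∀ x1 x2 : T,
  a * x * b * y * c * x * d = x1 → a * x * b * y * y * c * x * d = x2 → x1 + x2 = x1

lemma pr_opt_eq_one (φ : ℕ → T) (X : Option ℕ) (h : pr φ X.toList = 1) : X = none := by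
  rw [pr_eq_one_iff] at h
  cases X with
  | none => rfl
  | some x => simp at h

lemma closed_Wd (hZ : ZAx T) (φ : ℕ → T) (p : T) : Closed (Wd φ p) := by
  refine ⟨?_, ?_⟩
  · rintro w ⟨x, hx, -⟩ rfl
    rw [pr_nil] at hx
    exact WithOne.one_ne_coe hx
  · intro P b c d e Q X Y hX hY h1 h2 h3 hne
    obtain ⟨x1, hx1, hp1⟩ := h1
    obtain ⟨x2, hx2, hp2⟩ := h2
    obtain ⟨x3, hx3, hp3⟩ := h3
    obtain ⟨x4, hx4⟩ := pr_exists φ hne
    refine ⟨x4, hx4, ?_⟩
    have := hZ (pr φ P) (pr φ b) (pr φ c) (pr φ d) (pr φ e) (pr φ Q) (pr φ X.toList)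
      (pr φ Y.toList) (by
        intro h
        have := hX (pr_opt_eq_one φ X h)
        rw [this.1, this.2]; simp) (by
        intro h
        have := hY (pr_opt_eq_one φ Y h)
        rw [this.1, this.2]; simp) x1 x2 x3 x4 (by rw [← hx1, pr_append, pr_append])
        (by rw [← hx2, pr_append, pr_append, pr_append]) (by rw [← hx3, pr_append, pr_append])
        (by rw [← hx4, pr_append])
    have h123 : p + (x1 + x2 + x3) = p := by
      rw [add_le_iff, add_le_iff]; exact ⟨⟨hp1, hp2⟩, hp3⟩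
    rw [← this, add_le_iff] at h123
    exact h123.2

lemma loop_Wd (hL : LAx T) (φ : ℕ → T) (p : T) (a b c d : List ℕ) (x y : ℕ)
    (h : a ++ x :: (b ++ y :: (c ++ x :: d)) ∈ Wd φ p) :
    a ++ x :: (b ++ y :: y :: (c ++ x :: d)) ∈ Wd φ p := by
  obtain ⟨x1, hx1, hp1⟩ := h
  obtain ⟨x2, hx2⟩ := pr_exists φ (w := a ++ x :: (b ++ y :: y :: (c ++ x :: d))) (by simp)
  refine ⟨x2, hx2, ?_⟩
  have := hL (pr φ a) (pr φ b) (pr φ c) (pr φ d) (φ x) (φ y) x1 x2
    (by rw [← hx1]; simp only [pr_append, pr_cons, mul_assoc])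
    (by rw [← hx2]; simp only [pr_append, pr_cons, mul_assoc])
  rw [← this, add_le_iff] at hp1
  exact hp1.2

lemma antisymm' {p q : T} (h1 : p + q = p) (h2 : q + p = q) : p = q := by
  rw [← h1, AIS.add_comm', h2]

end AIS

/-! ### identities with optional pieces -/

/-- Product of optional terms. -/
def omul : Option Tm → Option Tm → Option Tm
  | none, b => b
  | some a, none => some a
  | some a, some b => some (.mul a b)

/-- Value of an optional term. -/
def oeval {T : Type u} [AIS T] (φ : ℕ → T) : Option Tm → WithOne T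
  | none => 1
  | some t => (t.eval φ : T)

lemma oeval_omul {T : Type u} [AIS T] (φ : ℕ → T) (a b : Option Tm) :
    oeval φ (omul a b) = oeval φ a * oeval φ b := by
  cases a with
  | none => simp [omul, oeval]
  | some a =>
    cases b with
    | none => simp [omul, oeval]
    | some b => simp [omul, oeval, Tm.eval]

lemma oeval_coe {T : Type u} [AIS T] {φ : ℕ → T} {a : Option Tm} {x : T} (h : oeval φ a = x) :
    ∃ t, a = some t ∧ t.eval φ = x := by
  cases a with
  | none => exact absurd h WithOne.one_ne_coe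
  | some t => exact ⟨t, rfl, WithOne.coe_inj.1 h⟩

/-- The optional variable. -/
def ov (β : Bool) (n : ℕ) : Option Tm := if β then some (.var n) else none

/-- The zigzag identity with the pieces selected by `β`. -/
def zid (β : Fin 8 → Bool) : Tm × Tm :=
  match omul (omul (ov (β 0) 0) (ov (β 7) 7)) (ov (β 1) 1),
    omul (omul (omul (ov (β 2) 2) (ov (β 6) 6)) (ov (β 7) 7)) (ov (β 3) 3),
    omul (omul (ov (β 4) 4) (ov (β 6) 6)) (ov (β 5) 5),
    omul (ov (β 0) 0) (ov (β 5) 5) with
  | some t1, some t2, some t3, some t4 =>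
    (.add (.add (.add t1 t2) t3) t4, .add (.add t1 t2) t3)
  | _, _, _, _ => (.var 0, .var 0)

/-- The admissible selections. -/
def Adm (β : Fin 8 → Bool) : Prop :=
  (β 6 = false → β 2 = false ∧ β 4 = false) ∧ (β 7 = false → β 1 = false ∧ β 3 = false)

/-- The loop identity with the pieces selected by `β`. -/
def lid (β : Fin 4 → Bool) : Tm × Tm :=
  match omul (omul (omul (omul (omul (omul (ov (β 0) 0) (ov true 4)) (ov (β 1) 1)) (ov true 5))
      (ov (β 2) 2)) (ov true 4)) (ov (β 3) 3),
    omul (omul (omul (omul (omul (omul (omul (ov (β 0) 0) (ov true 4)) (ov (β 1) 1)) (ov true 5))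
      (ov true 5)) (ov (β 2) 2)) (ov true 4)) (ov (β 3) 3) with
  | some t1, some t2 => (.add t1 t2, t1)
  | _, _ => (.var 0, .var 0)

/-- assignments realising given pieces -/
lemma oeval_ov {T : Type u} [AIS T] {φ : ℕ → T} {β : Bool} {n : ℕ} {z : WithOne T}
    (h1 : β = false → z = 1) (h2 : β = true → z = φ n) : oeval φ (ov β n) = z := by
  cases β with
  | false => simp [ov, oeval, h1 rfl]
  | true => simp [ov, oeval, Tm.eval, h2 rfl]

lemma exists_pieces {T : Type u} [AIS T] (x0 : T) {k : ℕ} (f : Fin k → WithOne T) :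
    ∃ (β : Fin k → Bool) (φ : ℕ → T), ∀ i : Fin k, oeval φ (ov (β i) i) = f i ∧
      (β i = false ↔ f i = 1) := by
  classical
  have : ∀ i : Fin k, ∃ (b : Bool) (x : T), (b = false → f i = 1) ∧ (b = true → f i = x) := by
    intro i
    rcases withOne_cases (f i) with h | ⟨x, h⟩
    · exact ⟨false, x0, fun _ => h, by simp⟩
    · exact ⟨true, x, by simp, fun _ => h⟩
  choose β ψ h1 h2 using this
  refine ⟨β, fun n => if h : n < k then ψ ⟨n, h⟩ else x0, ?_⟩
  intro i
  constructor
  · refine oeval_ov (h1 i) (fun h => ?_)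
    rw [h2 i h]
    simp
  · constructor
    · exact h1 i
    · intro h
      by_contra hb
      have hb' : β i = true := by simpa using hb
      rw [h2 i hb'] at h
      exact WithOne.coe_ne_one h

lemma zAx_of_zid {T : Type u} [AIS T] (h : ∀ β, Adm β → Satisfies T (zid β)) : ZAx T := by
  intro P b c d e Q X Y hX hY x1 x2 x3 x4 h1 h2 h3 h4
  obtain ⟨β, φ, hβ⟩ := exists_pieces x1 ![P, b, c, d, e, Q, X, Y]
  have e0 : oeval φ (ov (β 0) 0) = P := by simpa using (hβ 0).1
  have e1 : oeval φ (ov (β 1) 1) = b := by simpa using (hβ 1).1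
  have e2 : oeval φ (ov (β 2) 2) = c := by simpa using (hβ 2).1
  have e3 : oeval φ (ov (β 3) 3) = d := by simpa using (hβ 3).1
  have e4 : oeval φ (ov (β 4) 4) = e := by simpa using (hβ 4).1
  have e5 : oeval φ (ov (β 5) 5) = Q := by simpa using (hβ 5).1
  have e6 : oeval φ (ov (β 6) 6) = X := by simpa using (hβ 6).1
  have e7 : oeval φ (ov (β 7) 7) = Y := by simpa using (hβ 7).1
  have f1 : β 1 = false ↔ b = 1 := by simpa using (hβ 1).2
  have f2 : β 2 = false ↔ c = 1 := by simpa using (hβ 2).2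
  have f3 : β 3 = false ↔ d = 1 := by simpa using (hβ 3).2
  have f4 : β 4 = false ↔ e = 1 := by simpa using (hβ 4).2
  have f6 : β 6 = false ↔ X = 1 := by simpa using (hβ 6).2
  have f7 : β 7 = false ↔ Y = 1 := by simpa using (hβ 7).2
  have hadm : Adm β := by
    refine ⟨fun h => ?_, fun h => ?_⟩
    · have := hX (f6.1 h); exact ⟨f2.2 this.1, f4.2 this.2⟩
    · have := hY (f7.1 h); exact ⟨f1.2 this.1, f3.2 this.2⟩
  have hs := h β hadm φ
  obtain ⟨t1, g1, k1⟩ := oeval_coe (φ := φ)
    (a := omul (omul (ov (β 0) 0) (ov (β 7) 7)) (ov (β 1) 1)) (x := x1)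
    (by rw [oeval_omul, oeval_omul, e0, e7, e1, h1])
  obtain ⟨t2, g2, k2⟩ := oeval_coe (φ := φ)
    (a := omul (omul (omul (ov (β 2) 2) (ov (β 6) 6)) (ov (β 7) 7)) (ov (β 3) 3)) (x := x2)
    (by rw [oeval_omul, oeval_omul, oeval_omul, e2, e6, e7, e3, h2])
  obtain ⟨t3, g3, k3⟩ := oeval_coe (φ := φ)
    (a := omul (omul (ov (β 4) 4) (ov (β 6) 6)) (ov (β 5) 5)) (x := x3)
    (by rw [oeval_omul, oeval_omul, e4, e6, e5, h3])
  obtain ⟨t4, g4, k4⟩ := oeval_coe (φ := φ)
    (a := omul (ov (β 0) 0) (ov (β 5) 5)) (x := x4)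
    (by rw [oeval_omul, e0, e5, h4])
  simp only [zid, g1, g2, g3, g4, Tm.eval, k1, k2, k3, k4] at hs
  exact hs

lemma zid_of_zAx {T : Type u} [AIS T] (h : ZAx T) (β : Fin 8 → Bool) (hβ : Adm β) :
    Satisfies T (zid β) := by
  intro φ
  unfold zid
  split
  · rename_i t1 t2 t3 t4 g1 g2 g3 g4
    simp only [Tm.eval]
    refine h (oeval φ (ov (β 0) 0)) (oeval φ (ov (β 1) 1)) (oeval φ (ov (β 2) 2))
      (oeval φ (ov (β 3) 3)) (oeval φ (ov (β 4) 4)) (oeval φ (ov (β 5) 5))
      (oeval φ (ov (β 6) 6)) (oeval φ (ov (β 7) 7)) ?_ ?_ _ _ _ _ ?_ ?_ ?_ ?_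
    · intro hX
      cases h6 : β 6 with
      | true => rw [h6] at hX; simp [ov, oeval, Tm.eval] at hX
      | false =>
        have := hβ.1 h6
        simp [this.1, this.2, ov, oeval]
    · intro hY
      cases h7 : β 7 with
      | true => rw [h7] at hY; simp [ov, oeval, Tm.eval] at hY
      | false =>
        have := hβ.2 h7
        simp [this.1, this.2, ov, oeval]
    · rw [← oeval_omul, ← oeval_omul, g1]; rfl
    · rw [← oeval_omul, ← oeval_omul, ← oeval_omul, g2]; rfl
    · rw [← oeval_omul, ← oeval_omul, g3]; rfl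
    · rw [← oeval_omul, g4]; rfl
  · rfl

lemma lAx_of_lid {T : Type u} [AIS T] (h : ∀ β, Satisfies T (lid β)) : LAx T := by
  intro a b c d x y x1 x2 h1 h2
  obtain ⟨β, φ, hβ⟩ := exists_pieces x1 ![a, b, c, d, (x : WithOne T), (y : WithOne T)]
  have e0 : oeval φ (ov (β 0) 0) = a := by simpa using (hβ 0).1
  have e1 : oeval φ (ov (β 1) 1) = b := by simpa using (hβ 1).1
  have e2 : oeval φ (ov (β 2) 2) = c := by simpa using (hβ 2).1
  have e3 : oeval φ (ov (β 3) 3) = d := by simpa using (hβ 3).1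
  have f4 : β 4 = true := by
    have : β 4 = false ↔ (x : WithOne T) = 1 := by simpa using (hβ 4).2
    cases h4 : β 4 with
    | true => rfl
    | false => exact absurd (this.1 h4) WithOne.coe_ne_one
  have f5 : β 5 = true := by
    have : β 5 = false ↔ (y : WithOne T) = 1 := by simpa using (hβ 5).2
    cases h5 : β 5 with
    | true => rfl
    | false => exact absurd (this.1 h5) WithOne.coe_ne_one
  have e4 : oeval φ (ov true 4) = x := by rw [← f4]; simpa using (hβ 4).1
  have e5 : oeval φ (ov true 5) = y := by rw [← f5]; simpa using (hβ 5).1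
  have hs := h (fun i => β (Fin.castLE (by norm_num) i)) φ
  obtain ⟨t1, g1, k1⟩ := oeval_coe (φ := φ)
    (a := omul (omul (omul (omul (omul (omul (ov (β 0) 0) (ov true 4)) (ov (β 1) 1)) (ov true 5))
      (ov (β 2) 2)) (ov true 4)) (ov (β 3) 3)) (x := x1)
    (by simp only [oeval_omul, e0, e1, e2, e3, e4, e5]; exact h1)
  obtain ⟨t2, g2, k2⟩ := oeval_coe (φ := φ)
    (a := omul (omul (omul (omul (omul (omul (omul (ov (β 0) 0) (ov true 4)) (ov (β 1) 1))
      (ov true 5)) (ov true 5)) (ov (β 2) 2)) (ov true 4)) (ov (β 3) 3)) (x := x2)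
    (by simp only [oeval_omul, e0, e1, e2, e3, e4, e5]; exact h2)
  have c0 : Fin.castLE (by norm_num : 4 ≤ 6) 0 = 0 := rfl
  have c1 : Fin.castLE (by norm_num : 4 ≤ 6) 1 = 1 := rfl
  have c2 : Fin.castLE (by norm_num : 4 ≤ 6) 2 = 2 := rfl
  have c3 : Fin.castLE (by norm_num : 4 ≤ 6) 3 = 3 := rfl
  simp only [lid, c0, c1, c2, c3, g1, g2, Tm.eval, k1, k2] at hs
  exact hs

lemma lid_of_lAx {T : Type u} [AIS T] (h : LAx T) (β : Fin 4 → Bool) :
    Satisfies T (lid β) := by
  intro φ
  unfold lid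
  split
  · rename_i t1 t2 g1 g2
    simp only [Tm.eval]
    refine h (oeval φ (ov (β 0) 0)) (oeval φ (ov (β 1) 1)) (oeval φ (ov (β 2) 2))
      (oeval φ (ov (β 3) 3)) (φ 4) (φ 5) _ _ ?_ ?_
    · have := congrArg (oeval φ) g1
      simp only [oeval_omul] at this
      exact this
    · have := congrArg (oeval φ) g2
      simp only [oeval_omul] at this
      exact this
  · rfl

/-! ### the axioms of ai-semirings -/

/-- The axioms of ai-semirings. -/
def aisAx : List (Tm × Tm) :=
  [(.add (.add (.var 0) (.var 1)) (.var 2), .add (.var 0) (.add (.var 1) (.var 2))),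
   (.add (.var 0) (.var 1), .add (.var 1) (.var 0)),
   (.add (.var 0) (.var 0), .var 0),
   (.mul (.mul (.var 0) (.var 1)) (.var 2), .mul (.var 0) (.mul (.var 1) (.var 2))),
   (.mul (.var 0) (.add (.var 1) (.var 2)), .add (.mul (.var 0) (.var 1)) (.mul (.var 0) (.var 2))),
   (.mul (.add (.var 0) (.var 1)) (.var 2), .add (.mul (.var 0) (.var 2)) (.mul (.var 1) (.var 2)))]

lemma aisAx_sat (T : Type u) [AIS T] : ∀ e ∈ aisAx, Satisfies T e := by
  intro e he φ
  simp only [aisAx, List.mem_cons, List.not_mem_nil, or_false] at he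
  rcases he with rfl | rfl | rfl | rfl | rfl | rfl
  · exact AIS.add_assoc' _ _ _
  · exact AIS.add_comm' _ _
  · exact AIS.add_idem' _
  · exact mul_assoc _ _ _
  · exact AIS.left_distrib' _ _ _
  · exact AIS.right_distrib' _ _ _

/-- The setoid of derivable identities. -/
def dset (Γ : Set (Tm × Tm)) : Setoid Tm where
  r := Derives Γ
  iseqv := ⟨Derives.refl, Derives.symm, Derives.trans⟩

/-- The relatively free algebra. -/
def Fr (Γ : Set (Tm × Tm)) : Type := Quotient (dset Γ)

instance (Γ : Set (Tm × Tm)) : Add (Fr Γ) :=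
  ⟨Quotient.map₂ Tm.add (fun _ _ h _ _ h' => Derives.add h h')⟩

instance (Γ : Set (Tm × Tm)) : Mul (Fr Γ) :=
  ⟨Quotient.map₂ Tm.mul (fun _ _ h _ _ h' => Derives.mul h h')⟩

/-- The class of a term. -/
def Fr.mk (Γ : Set (Tm × Tm)) (t : Tm) : Fr Γ := Quotient.mk (dset Γ) t

lemma eval_Fr (Γ : Set (Tm × Tm)) (σ : ℕ → Tm) (t : Tm) :
    t.eval (fun n => Fr.mk Γ (σ n)) = Fr.mk Γ (t.subst σ) := by
  induction t with
  | var n => rfl
  | add t u iht ihu =>
    simp only [Tm.eval, Tm.subst]
    rw [iht, ihu]; rfl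
  | mul t u iht ihu =>
    simp only [Tm.eval, Tm.subst]
    rw [iht, ihu]; rfl

lemma Fr_sat (Γ : Set (Tm × Tm)) : ∀ e ∈ Γ, Satisfies (Fr Γ) e := by
  intro e he φ
  have : ∃ σ : ℕ → Tm, φ = fun n => Fr.mk Γ (σ n) := by
    have : ∀ n, ∃ t, Fr.mk Γ t = φ n := fun n => Quotient.exists_rep (φ n)
    choose σ hσ using this
    exact ⟨σ, funext fun n => (hσ n).symm⟩
  obtain ⟨σ, rfl⟩ := this
  rw [eval_Fr, eval_Fr]
  exact Quotient.sound (Derives.ax σ he)

lemma subst_var (t : Tm) : t.subst Tm.var = t := by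
  induction t with
  | var n => rfl
  | add t u iht ihu => simp [Tm.subst, iht, ihu]
  | mul t u iht ihu => simp [Tm.subst, iht, ihu]

lemma derives_of_Fr (Γ : Set (Tm × Tm)) {t u : Tm} (h : Satisfies (Fr Γ) (t, u)) :
    Derives Γ t u := by
  have := h (fun n => Fr.mk Γ (Tm.var n))
  rw [eval_Fr, eval_Fr, subst_var, subst_var] at this
  exact Quotient.exact this

/-- Build an ai-semiring structure from the axioms. -/
def aisOf (Γ : Set (Tm × Tm)) (h : ∀ e ∈ aisAx, e ∈ Γ) : AIS (Fr Γ) :=
  { (inferInstance : Add (Fr Γ)), (inferInstance : Mul (Fr Γ)) with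
    mul_assoc := fun a b c => by
      have := Fr_sat Γ _ (h (.mul (.mul (.var 0) (.var 1)) (.var 2), .mul (.var 0) (.mul (.var 1) (.var 2)))
        (by simp [aisAx])) (fun n => if n = 0 then a else if n = 1 then b else c)
      simpa [Tm.eval] using this
    add_assoc' := fun a b c => by
      have := Fr_sat Γ _ (h (.add (.add (.var 0) (.var 1)) (.var 2), .add (.var 0) (.add (.var 1) (.var 2)))
        (by simp [aisAx])) (fun n => if n = 0 then a else if n = 1 then b else c)
      simpa [Tm.eval] using this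
    add_comm' := fun a b => by
      have := Fr_sat Γ _ (h (.add (.var 0) (.var 1), .add (.var 1) (.var 0))
        (by simp [aisAx])) (fun n => if n = 0 then a else b)
      simpa [Tm.eval] using this
    add_idem' := fun a => by
      have := Fr_sat Γ _ (h (.add (.var 0) (.var 0), .var 0)
        (by simp [aisAx])) (fun n => a)
      simpa [Tm.eval] using this
    left_distrib' := fun a b c => by
      have := Fr_sat Γ _ (h (.mul (.var 0) (.add (.var 1) (.var 2)),
        .add (.mul (.var 0) (.var 1)) (.mul (.var 0) (.var 2)))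
        (by simp [aisAx])) (fun n => if n = 0 then a else if n = 1 then b else c)
      simpa [Tm.eval] using this
    right_distrib' := fun a b c => by
      have := Fr_sat Γ _ (h (.mul (.add (.var 0) (.var 1)) (.var 2),
        .add (.mul (.var 0) (.var 2)) (.mul (.var 1) (.var 2)))
        (by simp [aisAx])) (fun n => if n = 0 then a else if n = 1 then b else c)
      simpa [Tm.eval] using this }

end Pool.Agent.V11204.FlatAlg
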