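import Mathlib

/-!
An analytic map of `ℝ³` with the maximum norm which is nonexpansive, and whose fixed point set has
three linearly independent tangent directions at the origin, although it is contained in
`|z| ≤ max |x| |y|`.
-/

set_option autoImplicit false

open Filter Set Topology

namespace Pool.Agent.V11204.CubicFix

/-- `t - sin t` -/
noncomputable def φ (t : ℝ) : ℝ := t - Real.sin t

theorem φ_zero : φ 0 = 0 := by simp [φ]

theorem φ_neg (t : ℝ) : φ (-t) = - φ t := by simp [φ]; ring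

theorem abs_sin_sub (s t : ℝ) : |Real.sin s - Real.sin t| ≤ |s - t| := by
  have h := Real.abs_sin_sub_sin_le s t
  exact h

/-- `φ` is monotone -/
theorem φ_mono : Monotone φ := by
  intro s t hst
  have h := abs_sin_sub t s
  rw [abs_of_nonneg (sub_nonneg.2 hst)] at h
  have := (abs_le.1 h).2
  unfold φ
  linarith

theorem φ_pos {t : ℝ} (ht : 0 < t) : 0 < φ t := by
  have := Real.sin_lt ht
  unfold φ
  linarith

theorem φ_lip {s t : ℝ} (h : s ≤ t) : φ t - φ s ≤ 2 * (t - s) := by
  have h1 := abs_sin_sub t s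
  rw [abs_of_nonneg (sub_nonneg.2 h)] at h1
  have := (abs_le.1 h1).1
  unfold φ
  linarith

/-- the difference quotient of `φ` lies in `[0, 2]` -/
theorem φ_slope (s t : ℝ) : ∃ θ : ℝ, 0 ≤ θ ∧ θ ≤ 2 ∧ φ s - φ t = θ * (s - t) := by
  by_cases h : s = t
  · exact ⟨0, le_rfl, by norm_num, by simp [h]⟩
  have hne : s - t ≠ 0 := sub_ne_zero.2 h
  refine ⟨(φ s - φ t) / (s - t), ?_, ?_, by field_simp⟩
  · rcases lt_or_gt_of_ne h with h1 | h1
    · exact div_nonneg_of_nonpos (sub_nonpos.2 (φ_mono h1.le)) (by linarith)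
    · exact div_nonneg (sub_nonneg.2 (φ_mono h1.le)) (by linarith)
  · rcases lt_or_gt_of_ne h with h1 | h1
    · have h2 := φ_lip h1.le
      rw [div_le_iff_of_neg (by linarith)]
      linarith
    · have h2 := φ_lip h1.le
      rw [div_le_iff₀ (by linarith)]
      linarith

/-- the function vanishing on the fixed point set -/
noncomputable def h (x y z : ℝ) : ℝ := φ (z - x) + φ (z - y) + 7 * φ z

/-- the map -/
noncomputable def f (p : Fin 3 → ℝ) : Fin 3 → ℝ :=
  ![p 0, p 1, p 2 - (1 / 18) * h (p 0) (p 1) (p 2)]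

theorem mem_fix (p : Fin 3 → ℝ) : p ∈ Function.fixedPoints f ↔ h (p 0) (p 1) (p 2) = 0 := by
  rw [Function.mem_fixedPoints, Function.IsFixedPt]
  constructor
  · intro hp
    have := congrFun hp 2
    simp only [f, Matrix.cons_val] at this
    linarith
  · intro hp
    ext i
    fin_cases i
    · simp [f]
    · simp [f]
    · simp [f, hp]

theorem zero_mem : (0 : Fin 3 → ℝ) ∈ Function.fixedPoints f := by
  rw [mem_fix]
  simp [h, φ_zero]

theorem analytic : AnalyticOnNhd ℝ f univ := by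
  have hp : ∀ i : Fin 3, AnalyticOnNhd ℝ (fun p : Fin 3 → ℝ => p i) univ := fun i =>
    (ContinuousLinearMap.proj (R := ℝ) (φ := fun _ : Fin 3 => ℝ) i).analyticOnNhd univ
  have hs : ∀ u : (Fin 3 → ℝ) → ℝ, AnalyticOnNhd ℝ u univ →
      AnalyticOnNhd ℝ (fun p => φ (u p)) univ := by
    intro u hu
    refine hu.sub ?_
    intro p hp
    exact AnalyticAt.fun_comp Real.analyticAt_sin (hu p hp)
  have hh : AnalyticOnNhd ℝ (fun p : Fin 3 → ℝ => h (p 0) (p 1) (p 2)) univ := by
    unfold h
    refine ((hs _ ((hp 2).sub (hp 0))).add (hs _ ((hp 2).sub (hp 1)))).add ?_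
    exact analyticOnNhd_const.mul (hs _ (hp 2))
  have : f = fun p => fun i : Fin 3 => (![fun p : Fin 3 → ℝ => p 0, fun p => p 1,
      fun p => p 2 - (1 / 18) * h (p 0) (p 1) (p 2)] : Fin 3 → (Fin 3 → ℝ) → ℝ) i p := by
    funext p i
    fin_cases i <;> rfl
  rw [this]
  refine AnalyticOnNhd.pi fun i => ?_
  fin_cases i
  · exact hp 0
  · exact hp 1
  · exact (hp 2).sub (analyticOnNhd_const.mul hh)

theorem nonexpansive : LipschitzWith 1 f := by
  refine LipschitzWith.of_dist_le_mul fun p q => ?_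
  rw [NNReal.coe_one, one_mul]
  rw [dist_pi_le_iff dist_nonneg]
  intro i
  have h0 : |p 0 - q 0| ≤ dist p q := by
    rw [← Real.dist_eq]; exact dist_le_pi_dist p q 0
  have h1 : |p 1 - q 1| ≤ dist p q := by
    rw [← Real.dist_eq]; exact dist_le_pi_dist p q 1
  have h2 : |p 2 - q 2| ≤ dist p q := by
    rw [← Real.dist_eq]; exact dist_le_pi_dist p q 2
  fin_cases i
  · simpa [f, Real.dist_eq] using h0
  · simpa [f, Real.dist_eq] using h1
  · simp only [f, Real.dist_eq, Matrix.cons_val, h]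
    obtain ⟨a, ha0, ha2, ha⟩ := φ_slope (p 2 - p 0) (q 2 - q 0)
    obtain ⟨b, hb0, hb2, hb⟩ := φ_slope (p 2 - p 1) (q 2 - q 1)
    obtain ⟨c, hc0, hc2, hc⟩ := φ_slope (p 2) (q 2)
    have key : p 2 - (1 / 18) * (φ (p 2 - p 0) + φ (p 2 - p 1) + 7 * φ (p 2)) -
        (q 2 - (1 / 18) * (φ (q 2 - q 0) + φ (q 2 - q 1) + 7 * φ (q 2))) =
        (1 - (a + b + 7 * c) / 18) * (p 2 - q 2) + a / 18 * (p 0 - q 0) +
          b / 18 * (p 1 - q 1) := by
      linear_combination (-1 / 18 : ℝ) * ha - (1 / 18 : ℝ) * hb - (7 / 18 : ℝ) * hc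
    have hcoef : 0 ≤ 1 - (a + b + 7 * c) / 18 := by linarith
    set D := dist p q with hD
    have hD0 : 0 ≤ D := dist_nonneg
    show |p 2 - (1 / 18) * (φ (p 2 - p 0) + φ (p 2 - p 1) + 7 * φ (p 2)) -
        (q 2 - (1 / 18) * (φ (q 2 - q 0) + φ (q 2 - q 1) + 7 * φ (q 2)))| ≤ D
    rw [key]
    have e1 : |(1 - (a + b + 7 * c) / 18) * (p 2 - q 2)| ≤ (1 - (a + b + 7 * c) / 18) * D := by
      rw [abs_mul, abs_of_nonneg hcoef]
      exact mul_le_mul_of_nonneg_left h2 hcoef
    have e2 : |a / 18 * (p 0 - q 0)| ≤ a / 18 * D := by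
      rw [abs_mul, abs_of_nonneg (by positivity)]
      exact mul_le_mul_of_nonneg_left h0 (by positivity)
    have e3 : |b / 18 * (p 1 - q 1)| ≤ b / 18 * D := by
      rw [abs_mul, abs_of_nonneg (by positivity)]
      exact mul_le_mul_of_nonneg_left h1 (by positivity)
    have e4 := abs_add_three ((1 - (a + b + 7 * c) / 18) * (p 2 - q 2)) (a / 18 * (p 0 - q 0))
      (b / 18 * (p 1 - q 1))
    have e5 : 0 ≤ c * D := mul_nonneg hc0 hD0
    nlinarith

/-- On the fixed point set, `|z| ≤ max |x| |y|`. -/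
theorem fix_bound {x y z : ℝ} (hz : h x y z = 0) : |z| ≤ max |x| |y| := by
  by_contra hcon
  push Not at hcon
  obtain ⟨hx, hy⟩ := max_lt_iff.1 hcon
  rw [abs_lt] at hx hy
  rcases lt_trichotomy z 0 with hz0 | hz0 | hz0
  · rw [abs_of_neg hz0] at hx hy
    have h1 := φ_pos (t := -(z - x)) (by linarith)
    have h2 := φ_pos (t := -(z - y)) (by linarith)
    have h3 := φ_pos (t := -z) (by linarith)
    rw [φ_neg] at h1 h2 h3
    unfold h at hz
    linarith
  · rw [hz0, abs_zero] at hcon
    exact absurd hcon (not_lt.2 (le_max_of_le_left (abs_nonneg _)))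
  · rw [abs_of_pos hz0] at hx hy
    have h1 := φ_pos (t := z - x) (by linarith)
    have h2 := φ_pos (t := z - y) (by linarith)
    have h3 := φ_pos (t := z) (by linarith)
    unfold h at hz
    linarith

theorem φ_cont : Continuous φ := continuous_id.sub Real.continuous_sin

theorem exists_root (x y : ℝ) : ∃ z, h x y z = 0 := by
  set m := |x| + |y| with hm
  have hx := abs_le.1 (le_refl |x|)
  have hy := abs_le.1 (le_refl |y|)
  have h0x := abs_nonneg x
  have h0y := abs_nonneg y
  have hc : Continuous (h x y) := by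
    unfold h
    exact ((φ_cont.comp (continuous_id.sub continuous_const)).add
      (φ_cont.comp (continuous_id.sub continuous_const))).add (continuous_const.mul φ_cont)
  have hz : ∀ t, 0 ≤ t → 0 ≤ φ t := fun t ht => by
    have := φ_mono ht
    rwa [φ_zero] at this
  have h1 : h x y (-m) ≤ 0 := by
    have e1 := hz (-(-m - x)) (by linarith)
    have e2 := hz (-(-m - y)) (by linarith)
    have e3 := hz (-(-m)) (by linarith)
    rw [φ_neg] at e1 e2 e3
    unfold h
    linarith
  have h2 : 0 ≤ h x y m := by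
    have e1 := hz (m - x) (by linarith)
    have e2 := hz (m - y) (by linarith)
    have e3 := hz m (by linarith)
    unfold h
    linarith
  obtain ⟨z, -, hz⟩ := intermediate_value_Icc (by linarith : -m ≤ m) hc.continuousOn ⟨h1, h2⟩
  exact ⟨z, hz⟩

theorem h_mono (x y : ℝ) : Monotone (h x y) := by
  intro s t hst
  have h1 := φ_mono (sub_le_sub_right hst x)
  have h2 := φ_mono (sub_le_sub_right hst y)
  have h3 := φ_mono hst
  unfold h
  linarith

/-- `φ (s u) / s³ → u³ / 6` -/
theorem φ_lim (u : ℝ) : Tendsto (fun s : ℝ => φ (s * u) / s ^ 3) (𝓝[>] 0) (𝓝 (u ^ 3 / 6)) := by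
  have h0 : Tendsto (fun s : ℝ => s ^ 2 * (|u| ^ 5 * (1 / 100))) (𝓝[>] 0) (𝓝 0) := by
    have : Tendsto (fun s : ℝ => s ^ 2 * (|u| ^ 5 * (1 / 100))) (𝓝 0)
        (𝓝 (0 ^ 2 * (|u| ^ 5 * (1 / 100)))) :=
      (tendsto_id.pow 2).mul_const _
    rw [zero_pow two_ne_zero, zero_mul] at this
    exact this.mono_left nhdsWithin_le_nhds
  rw [tendsto_iff_dist_tendsto_zero]
  refine squeeze_zero' (Eventually.of_forall fun _ => dist_nonneg) ?_ h0
  have hs1 : ∀ᶠ s : ℝ in 𝓝[>] 0, |s * u| ≤ 1 := by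
    have : Tendsto (fun s : ℝ => |s * u|) (𝓝 0) (𝓝 0) := by
      have h1 : Continuous fun s : ℝ => |s * u| := (continuous_id.mul continuous_const).abs
      simpa using h1.tendsto 0
    exact (this.mono_left nhdsWithin_le_nhds).eventually_le_const one_pos
  filter_upwards [hs1, self_mem_nhdsWithin] with s hs hs0
  have hs0' : (0 : ℝ) < s := hs0
  have hb := Real.sin_bound hs
  rw [Real.dist_eq]
  have e1 : φ (s * u) / s ^ 3 - u ^ 3 / 6 =
      -(Real.sin (s * u) - (s * u - (s * u) ^ 3 / 6)) / s ^ 3 := by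
    unfold φ
    field_simp
    ring
  rw [e1, abs_div, abs_neg, abs_of_pos (pow_pos hs0' 3), div_le_iff₀ (pow_pos hs0' 3)]
  refine hb.trans (le_of_eq ?_)
  rw [abs_mul, abs_of_pos hs0']
  ring

/-- the leading cubic form -/
theorem h_lim (a b c : ℝ) : Tendsto (fun s : ℝ => h (s * a) (s * b) (s * c) / s ^ 3) (𝓝[>] 0)
    (𝓝 (((c - a) ^ 3 + (c - b) ^ 3 + 7 * c ^ 3) / 6)) := by
  have h1 := ((φ_lim (c - a)).add (φ_lim (c - b))).add ((φ_lim c).const_mul 7)
  have e1 : (c - a) ^ 3 / 6 + (c - b) ^ 3 / 6 + 7 * (c ^ 3 / 6) =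
      ((c - a) ^ 3 + (c - b) ^ 3 + 7 * c ^ 3) / 6 := by ring
  rw [e1] at h1
  refine h1.congr fun s => ?_
  unfold h
  rw [← mul_sub, ← mul_sub]
  ring

/-- A zero `(a, b, c)` of the cubic form is a tangent direction of the fixed point set at `0`. -/
theorem mem_cone {a b c : ℝ} (hc : (c - a) ^ 3 + (c - b) ^ 3 + 7 * c ^ 3 = 0) :
    ![a, b, c] ∈ tangentConeAt ℝ (Function.fixedPoints f) 0 := by
  choose g hg using exists_root
  have hcube : StrictMono fun t : ℝ => t ^ 3 := Odd.strictMono_pow (by decide)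
  have hlim : Tendsto (fun s : ℝ => s⁻¹ * g (s * a) (s * b)) (𝓝[>] 0) (𝓝 c) := by
    rw [tendsto_order]
    constructor
    · intro c' hc'
      have h1 : ((c' - a) ^ 3 + (c' - b) ^ 3 + 7 * c' ^ 3) / 6 < 0 := by
        have e1 := hcube (show c' - a < c - a by linarith)
        have e2 := hcube (show c' - b < c - b by linarith)
        have e3 := hcube hc'
        simp only at e1 e2 e3
        linarith
      have h2 := (h_lim a b c').eventually_lt_const h1
      filter_upwards [h2, self_mem_nhdsWithin] with s hs hs0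
      have hs0' : (0 : ℝ) < s := hs0
      rw [div_lt_iff₀ (pow_pos hs0' 3), zero_mul] at hs
      have h3 : s * c' < g (s * a) (s * b) := by
        by_contra hcon
        have := h_mono (s * a) (s * b) (not_lt.1 hcon)
        rw [hg] at this
        linarith
      rw [lt_inv_mul_iff₀ hs0']
      exact h3
    · intro c' hc'
      have h1 : 0 < ((c' - a) ^ 3 + (c' - b) ^ 3 + 7 * c' ^ 3) / 6 := by
        have e1 := hcube (show c - a < c' - a by linarith)
        have e2 := hcube (show c - b < c' - b by linarith)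
        have e3 := hcube hc'
        simp only at e1 e2 e3
        linarith
      have h2 := (h_lim a b c').eventually_const_lt h1
      filter_upwards [h2, self_mem_nhdsWithin] with s hs hs0
      have hs0' : (0 : ℝ) < s := hs0
      rw [lt_div_iff₀ (pow_pos hs0' 3), zero_mul] at hs
      have h3 : g (s * a) (s * b) < s * c' := by
        by_contra hcon
        have := h_mono (s * a) (s * b) (not_lt.1 hcon)
        rw [hg] at this
        linarith
      rw [inv_mul_lt_iff₀ hs0']
      exact h3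
  have hlim3 : Tendsto (fun s : ℝ => s⁻¹ • (![s * a, s * b, g (s * a) (s * b)] : Fin 3 → ℝ))
      (𝓝[>] 0) (𝓝 ![a, b, c]) := by
    rw [tendsto_pi_nhds]
    intro i
    fin_cases i
    · refine tendsto_const_nhds.congr' ?_
      filter_upwards [self_mem_nhdsWithin] with s hs0
      have hs0' : (0 : ℝ) < s := hs0
      simp [hs0'.ne']
    · refine tendsto_const_nhds.congr' ?_
      filter_upwards [self_mem_nhdsWithin] with s hs0
      have hs0' : (0 : ℝ) < s := hs0
      simp [hs0'.ne']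
    · exact hlim
  refine mem_tangentConeAt_of_seq (𝓝[>] (0 : ℝ)) (fun s => s⁻¹)
    (fun s => (![s * a, s * b, g (s * a) (s * b)] : Fin 3 → ℝ)) ?_ ?_ hlim3
  · have h1 : Tendsto (fun s : ℝ => s • (s⁻¹ • (![s * a, s * b, g (s * a) (s * b)] : Fin 3 → ℝ)))
        (𝓝[>] 0) (𝓝 ((0 : ℝ) • ![a, b, c])) :=
      (tendsto_id.mono_left nhdsWithin_le_nhds).smul hlim3
    rw [zero_smul] at h1
    refine h1.congr' ?_
    filter_upwards [self_mem_nhdsWithin] with s hs0
    have hs0' : (0 : ℝ) < s := hs0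
    rw [smul_smul, mul_inv_cancel₀ hs0'.ne', one_smul]
  · refine Eventually.of_forall fun s => ?_
    rw [zero_add, mem_fix]
    exact hg _ _

/-- A continuous linear map vanishing on the tangent cone vanishes. -/
theorem eq_of_cone {Y : Type} [NormedAddCommGroup Y] [NormedSpace ℝ Y]
    {L L' : (Fin 3 → ℝ) →L[ℝ] Y}
    (hL : EqOn L L' (tangentConeAt ℝ (Function.fixedPoints f) 0)) : L = L' := by
  have h1 := hL (mem_cone (a := 3) (b := 0) (c := 1) (by norm_num))
  have h2 := hL (mem_cone (a := 0) (b := 3) (c := 1) (by norm_num))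
  have h3 := hL (mem_cone (a := 7) (b := 8) (c := 3) (by norm_num))
  have key : ∀ v : Fin 3 → ℝ, v =
      ((v 0 - 7 * ((v 0 + v 1 - 3 * v 2) / 6)) / 3) • ![3, 0, 1] +
      ((v 1 - 8 * ((v 0 + v 1 - 3 * v 2) / 6)) / 3) • ![0, 3, 1] +
      ((v 0 + v 1 - 3 * v 2) / 6) • ![7, 8, 3] := by
    intro v
    ext i
    fin_cases i
    · simp
      ring
    · simp
      ring
    · simp
      ring
  refine ContinuousLinearMap.ext fun v => ?_
  rw [key v]
  simp only [map_add, map_smul, h1, h2, h3]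

end Pool.Agent.V11204.CubicFix
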