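import Mathlib

/-!
# The sum of the reciprocals of the nonzero eigenvalues from a generalised inverse
-/

namespace Pool.Agent.V11204.PatSpec
open Matrix

variable {n : ℕ}

lemma trace_of_eigen {A B : Matrix (Fin n) (Fin n) ℝ} (hA : A.IsHermitian) (μ : Fin n → ℝ)
    (h : ∀ i, B *ᵥ ⇑(hA.eigenvectorBasis i) = μ i • ⇑(hA.eigenvectorBasis i)) :
    B.trace = ∑ i, μ i := by
  set U : Matrix (Fin n) (Fin n) ℝ := (hA.eigenvectorUnitary : Matrix (Fin n) (Fin n) ℝ) with hU
  have h1 : B * U = U * diagonal μ := by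
    ext i j
    rw [mul_diagonal]
    have h2 := congrFun (h j) i
    simp only [Pi.smul_apply, smul_eq_mul] at h2
    rw [hU, Matrix.IsHermitian.eigenvectorUnitary_apply, mul_comm _ (μ j), ← h2]
    simp only [Matrix.mul_apply, Matrix.mulVec, dotProduct]
    rfl
  have h3 : U * star U = 1 := Unitary.coe_mul_star_self _
  have h4 : star U * U = 1 := Unitary.coe_star_mul_self _
  calc B.trace = (B * (U * star U)).trace := by rw [h3, mul_one]
    _ = (U * diagonal μ * star U).trace := by rw [← mul_assoc, h1]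
    _ = (star U * (U * diagonal μ)).trace := by rw [Matrix.trace_mul_comm]
    _ = (diagonal μ).trace := by rw [← mul_assoc, h4, one_mul]
    _ = ∑ i, μ i := by rw [Matrix.trace_diagonal]

theorem spec {A K P : Matrix (Fin n) (Fin n) ℝ} (hA : A.IsHermitian) (hPA : P * A = 0)
    (hKA : K * A = 1 - P) (hKP : K * P = 0) :
    (A.charpoly.roots.map (fun x => x⁻¹)).sum = K.trace ∧
      (A.charpoly.roots.count 0 : ℝ) = P.trace := by
  have hu := hA.mulVec_eigenvectorBasis
  have hP : ∀ i, P *ᵥ ⇑(hA.eigenvectorBasis i) =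
      (if hA.eigenvalues i = 0 then (1 : ℝ) else 0) • ⇑(hA.eigenvectorBasis i) := by
    intro i
    by_cases h0 : hA.eigenvalues i = 0
    · have h1 : A *ᵥ ⇑(hA.eigenvectorBasis i) = 0 := by rw [hu, h0, zero_smul]
      have h2 : (K * A) *ᵥ ⇑(hA.eigenvectorBasis i) = 0 := by
        rw [← Matrix.mulVec_mulVec, h1, Matrix.mulVec_zero]
      rw [hKA, Matrix.sub_mulVec, Matrix.one_mulVec, sub_eq_zero] at h2
      rw [if_pos h0, one_smul, ← h2]
    · have h2 : (P * A) *ᵥ ⇑(hA.eigenvectorBasis i) = 0 := by rw [hPA, Matrix.zero_mulVec]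
      rw [← Matrix.mulVec_mulVec, hu, Matrix.mulVec_smul] at h2
      rw [if_neg h0, zero_smul]
      exact (smul_eq_zero.1 h2).resolve_left h0
  have hK : ∀ i, K *ᵥ ⇑(hA.eigenvectorBasis i) =
      (hA.eigenvalues i)⁻¹ • ⇑(hA.eigenvectorBasis i) := by
    intro i
    by_cases h0 : hA.eigenvalues i = 0
    · have h1 := hP i
      rw [if_pos h0, one_smul] at h1
      have h2 : (K * P) *ᵥ ⇑(hA.eigenvectorBasis i) = 0 := by rw [hKP, Matrix.zero_mulVec]
      rw [← Matrix.mulVec_mulVec, h1] at h2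
      rw [h2, h0, _root_.inv_zero, zero_smul]
    · have h1 := hP i
      rw [if_neg h0, zero_smul] at h1
      have h2 : (K * A) *ᵥ ⇑(hA.eigenvectorBasis i) = ⇑(hA.eigenvectorBasis i) := by
        rw [hKA, Matrix.sub_mulVec, Matrix.one_mulVec, h1, sub_zero]
      rw [← Matrix.mulVec_mulVec, hu, Matrix.mulVec_smul] at h2
      rw [← h2, smul_smul, inv_mul_cancel₀ h0, one_smul, h2]
  have t1 := trace_of_eigen hA _ hK
  have t2 := trace_of_eigen hA _ hP
  rw [hA.roots_charpoly_eq_eigenvalues]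
  constructor
  · rw [t1, Multiset.map_map]
    rfl
  · rw [t2, Multiset.count_map, Finset.sum_ite]
    simp only [Finset.sum_const, nsmul_eq_mul, mul_one, mul_zero, add_zero]
    congr 1
    rw [Finset.card_def, Finset.filter_val]
    congr 1
    apply Multiset.filter_congr
    intro i _
    simp [eq_comm]

theorem erase_sum {A K P : Matrix (Fin n) (Fin n) ℝ} (hA : A.IsHermitian) (hPA : P * A = 0)
    (hKA : K * A = 1 - P) (hKP : K * P = 0) (hP1 : P.trace = 1) :
    ((A.charpoly.roots.erase 0).map (fun x => x⁻¹)).sum = K.trace ∧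
      (0 : ℝ) ∉ A.charpoly.roots.erase 0 := by
  obtain ⟨h1, h2⟩ := spec hA hPA hKA hKP
  rw [hP1] at h2
  have h3 : A.charpoly.roots.count 0 = 1 := by exact_mod_cast h2
  have hmem : (0 : ℝ) ∈ A.charpoly.roots := by
    rw [← Multiset.count_pos, h3]; exact one_pos
  constructor
  · rw [← h1]
    conv_rhs => rw [← Multiset.cons_erase hmem]
    rw [Multiset.map_cons, Multiset.sum_cons, _root_.inv_zero, zero_add]
  · rw [← Multiset.count_eq_zero, Multiset.count_erase_self, h3]

end Pool.Agent.V11204.PatSpec
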