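import Mathlib
import Pool.Agent.V11204.PatSpec

/-!
# Block designs: information matrix, optimality criteria, pairwise variances
-/

namespace Pool.Agent.V11204.PV
open Matrix

variable {v b : ℕ}

/-- `n i B` is the multiplicity of treatment `i` in block `B`; all blocks have `k` plots -/
def IsDesign (k : ℕ) (n : Matrix (Fin v) (Fin b) ℕ) : Prop := ∀ B, ∑ i, n i B = k

/-- replication -/
def rep (n : Matrix (Fin v) (Fin b) ℕ) (i : Fin v) : ℕ := ∑ B, n i B

/-- concurrence -/
def conc (n : Matrix (Fin v) (Fin b) ℕ) (i j : Fin v) : ℕ := ∑ B, n i B * n j B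

/-- the concurrence graph is connected -/
def Conn (n : Matrix (Fin v) (Fin b) ℕ) : Prop :=
  (SimpleGraph.fromRel fun i j => 0 < conc n i j).Connected

/-- the information matrix `C = R - k⁻¹ N Nᵀ` -/
noncomputable def info (k : ℕ) (n : Matrix (Fin v) (Fin b) ℕ) : Matrix (Fin v) (Fin v) ℝ :=
  Matrix.of fun i j => (if i = j then (rep n i : ℝ) else 0) - (∑ B, (n i B : ℝ) * (n j B : ℝ)) / k

/-- the non-trivial eigenvalues of `C` (with multiplicity) -/
noncomputable def ev (k : ℕ) (n : Matrix (Fin v) (Fin b) ℕ) : Multiset ℝ :=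
  (info k n).charpoly.roots.erase 0

/-- A-optimality in `D(v,b,k)` -/
def AOptimal (k : ℕ) (n : Matrix (Fin v) (Fin b) ℕ) : Prop :=
  ∀ n' : Matrix (Fin v) (Fin b) ℕ, IsDesign k n' → Conn n' →
    ((ev k n).map (fun x => x⁻¹)).sum ≤ ((ev k n').map (fun x => x⁻¹)).sum

/-- D-optimality in `D(v,b,k)` -/
def DOptimal (k : ℕ) (n : Matrix (Fin v) (Fin b) ℕ) : Prop :=
  ∀ n' : Matrix (Fin v) (Fin b) ℕ, IsDesign k n' → Conn n' → (ev k n').prod ≤ (ev k n).prod

/-- E-optimality in `D(v,b,k)`: the least non-trivial eigenvalue is as large as possible -/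
def EOptimal (k : ℕ) (n : Matrix (Fin v) (Fin b) ℕ) : Prop :=
  ∀ n' : Matrix (Fin v) (Fin b) ℕ, IsDesign k n' → Conn n' →
    ∀ θ ∈ ev k n, ∃ θ' ∈ ev k n', θ' ≤ θ

/-- `V` is the pairwise variance `(e_i - e_j)ᵀ C⁻ (e_i - e_j)`: the equation `C x = e_i - e_j` is
solvable and `x i - x j = V` for every solution `x` -/
def IsVar (k : ℕ) (n : Matrix (Fin v) (Fin b) ℕ) (i j : Fin v) (V : ℝ) : Prop :=
  (∃ x, info k n *ᵥ x = Pi.single i 1 - Pi.single j 1) ∧
    ∀ x, info k n *ᵥ x = Pi.single i 1 - Pi.single j 1 → x i - x j = V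

lemma info_symm (k : ℕ) (n : Matrix (Fin v) (Fin b) ℕ) (i j : Fin v) :
    info k n i j = info k n j i := by
  unfold info
  simp only [Matrix.of_apply]
  rw [show (∑ B, (n i B : ℝ) * (n j B : ℝ)) = ∑ B, (n j B : ℝ) * (n i B : ℝ) from
    Finset.sum_congr rfl fun B _ => mul_comm _ _]
  by_cases h : i = j
  · rw [h]
  · rw [if_neg h, if_neg (Ne.symm h)]

lemma info_herm (k : ℕ) (n : Matrix (Fin v) (Fin b) ℕ) : (info k n).IsHermitian := by
  ext i j
  rw [Matrix.conjTranspose_apply, info_symm k n j i]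
  simp

/-- solving one system gives the pairwise variance -/
lemma isVar_of {k : ℕ} {n : Matrix (Fin v) (Fin b) ℕ} {i j : Fin v} {x : Fin v → ℝ}
    (hx : info k n *ᵥ x = Pi.single i 1 - Pi.single j 1) : IsVar k n i j (x i - x j) := by
  refine ⟨⟨x, hx⟩, fun y hy => ?_⟩
  have hsym : (info k n)ᵀ = info k n := by
    ext a c
    rw [Matrix.transpose_apply, info_symm]
  have key : x ⬝ᵥ (info k n *ᵥ y) = (info k n *ᵥ x) ⬝ᵥ y := by
    rw [Matrix.dotProduct_mulVec, ← Matrix.mulVec_transpose, hsym]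
  rw [hx, hy] at key
  simp only [dotProduct_sub, sub_dotProduct, dotProduct_single, single_dotProduct, mul_one,
    one_mul] at key
  linarith

/-- row sums of the information matrix vanish -/
lemma info_row {k : ℕ} (hk : 0 < k) {n : Matrix (Fin v) (Fin b) ℕ} (hn : IsDesign k n)
    (i : Fin v) : ∑ j, info k n i j = 0 := by
  unfold info
  simp only [Matrix.of_apply]
  rw [Finset.sum_sub_distrib, Finset.sum_ite_eq, if_pos (Finset.mem_univ _), ← Finset.sum_div,
    Finset.sum_comm]
  have : ∑ B, ∑ j, (n i B : ℝ) * (n j B : ℝ) = k * rep n i := by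
    unfold rep
    push_cast
    rw [Finset.mul_sum]
    refine Finset.sum_congr rfl fun B _ => ?_
    rw [← Finset.mul_sum]
    have h := hn B
    have h' : ∑ j, (n j B : ℝ) = k := by exact_mod_cast h
    rw [h']; ring
  rw [this]
  have : (k : ℝ) ≠ 0 := by exact_mod_cast hk.ne'
  field_simp
  ring

lemma det_of_eigen {n : ℕ} {A B : Matrix (Fin n) (Fin n) ℝ} (hA : A.IsHermitian) (μ : Fin n → ℝ)
    (h : ∀ i, B *ᵥ ⇑(hA.eigenvectorBasis i) = μ i • ⇑(hA.eigenvectorBasis i)) :
    B.det = ∏ i, μ i := by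
  set U : Matrix (Fin n) (Fin n) ℝ := (hA.eigenvectorUnitary : Matrix (Fin n) (Fin n) ℝ) with hU
  have h1 : B * U = U * diagonal μ := by
    ext i j
    rw [mul_diagonal]
    have h2 := congrFun (h j) i
    simp only [Pi.smul_apply, smul_eq_mul] at h2
    rw [hU, Matrix.IsHermitian.eigenvectorUnitary_apply, mul_comm _ (μ j), ← h2]
    simp only [Matrix.mul_apply, Matrix.mulVec, dotProduct]
    rfl
  have h3 : U * star U = 1 := Unitary.coe_mul_star_self _
  have h5 : U.det ≠ 0 := by
    intro h0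
    have := congrArg Matrix.det h3
    rw [Matrix.det_mul, h0, zero_mul, Matrix.det_one] at this
    exact zero_ne_one this
  have h6 := congrArg Matrix.det h1
  rw [Matrix.det_mul, Matrix.det_mul, Matrix.det_diagonal, mul_comm] at h6
  exact mul_left_cancel₀ h5 h6

/-- the product of the nonzero eigenvalues, from the determinant of `c A + s P` where `P` is the
projection on the kernel -/
theorem erase_prod {n : ℕ} {A K P : Matrix (Fin n) (Fin n) ℝ} (hA : A.IsHermitian)
    (hPA : P * A = 0) (hKA : K * A = 1 - P) (hKP : K * P = 0) (hP1 : P.trace = 1) (c s : ℝ) :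
    (c • A + s • P).det = s * c ^ (n - 1) * (A.charpoly.roots.erase 0).prod := by
  have hu := hA.mulVec_eigenvectorBasis
  have hP : ∀ i, P *ᵥ ⇑(hA.eigenvectorBasis i) =
      (if hA.eigenvalues i = 0 then (1 : ℝ) else 0) • ⇑(hA.eigenvectorBasis i) := by
    intro i
    by_cases h0 : hA.eigenvalues i = 0
    · have h1 : A *ᵥ ⇑(hA.eigenvectorBasis i) = 0 := by rw [hu, h0, zero_smul]
      have h2 : (K * A) *ᵥ ⇑(hA.eigenvectorBasis i) = 0 := by
        rw [← Matrix.mulVec_mulVec, h1, Matrix.mulVec_zero]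
      rw [hKA, Matrix.sub_mulVec, Matrix.one_mulVec, sub_eq_zero] at h2
      rw [if_pos h0, one_smul, ← h2]
    · have h2 : (P * A) *ᵥ ⇑(hA.eigenvectorBasis i) = 0 := by rw [hPA, Matrix.zero_mulVec]
      rw [← Matrix.mulVec_mulVec, hu, Matrix.mulVec_smul] at h2
      rw [if_neg h0, zero_smul]
      exact (smul_eq_zero.1 h2).resolve_left h0
  have hdet := det_of_eigen hA (B := c • A + s • P)
    (fun i => if hA.eigenvalues i = 0 then s else c * hA.eigenvalues i) (by
      intro i
      rw [Matrix.add_mulVec, Matrix.smul_mulVec, Matrix.smul_mulVec, hu, hP]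
      by_cases h0 : hA.eigenvalues i = 0
      · rw [if_pos h0, if_pos h0, h0, zero_smul, smul_zero, zero_add, one_smul]
      · rw [if_neg h0, if_neg h0, zero_smul, smul_zero, add_zero, smul_smul])
  obtain ⟨-, hcount⟩ := PatSpec.spec hA hPA hKA hKP
  rw [hP1] at hcount
  have h3 : A.charpoly.roots.count 0 = 1 := by exact_mod_cast hcount
  have hmem : (0 : ℝ) ∈ A.charpoly.roots := by
    rw [← Multiset.count_pos, h3]; exact one_pos
  have hnot : (0 : ℝ) ∉ A.charpoly.roots.erase 0 := by
    rw [← Multiset.count_eq_zero, Multiset.count_erase_self, h3]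
  have hroots : A.charpoly.roots = Multiset.map hA.eigenvalues Finset.univ.val := by
    rw [hA.roots_charpoly_eq_eigenvalues]
    rfl
  rw [hdet]
  have hprod : ∏ i, (if hA.eigenvalues i = 0 then s else c * hA.eigenvalues i) =
      (A.charpoly.roots.map fun x => if x = 0 then s else c * x).prod := by
    rw [hroots, Multiset.map_map]
    rfl
  rw [hprod]
  conv_lhs => rw [← Multiset.cons_erase hmem]
  rw [Multiset.map_cons, Multiset.prod_cons, if_pos rfl]
  have h7 : (A.charpoly.roots.erase 0).map (fun x => if x = 0 then s else c * x) =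
      (A.charpoly.roots.erase 0).map (fun x => c * x) := by
    refine Multiset.map_congr rfl fun x hx => ?_
    rw [if_neg]
    rintro rfl
    exact hnot hx
  rw [h7, Multiset.prod_map_mul, Multiset.map_const', Multiset.prod_replicate,
    Multiset.card_erase_of_mem hmem, Multiset.map_id', mul_assoc]
  congr 3
  rw [hroots]
  simp

end Pool.Agent.V11204.PV
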