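import Mathlib

/-!
# Exhaustive search over the designs with 7 treatments in 4 blocks of size 3
-/

namespace Pool.Agent.V11204.PVS

/-- vectors of length `m` with entries summing to `s`, packed with two bits per entry -/
def vecs : ℕ → ℕ → List ℕ
  | 0, s => if s = 0 then [0] else []
  | m + 1, s => (List.range (s + 1)).flatMap fun d => (vecs m (s - d)).map fun r => d + 4 * r

def dig (b i : ℕ) : ℕ := Nat.land (Nat.shiftRight b (Nat.mul 2 i)) 3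

/-- all blocks -/
def BL : List ℕ := [12288, 9216, 6144, 3072, 8448, 5376, 2304, 4608, 1536, 768, 8256, 5184, 2112, 4416, 1344, 576, 4224, 1152, 384, 192, 8208, 5136, 2064, 4368, 1296, 528, 4176, 1104, 336, 144, 4128, 1056, 288, 96, 48, 8196, 5124, 2052, 4356, 1284, 516, 4164, 1092, 324, 132, 4116, 1044, 276, 84, 36, 4104, 1032, 264, 72, 24, 12, 8193, 5121, 2049, 4353, 1281, 513, 4161, 1089, 321, 129, 4113, 1041, 273, 81, 33, 4101, 1029, 261, 69, 21, 9, 4098, 1026, 258, 66, 18, 6, 3]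

lemma BL_eq : BL = vecs 7 3 := by decide +kernel

/-- concurrence -/
def lm (b0 b1 b2 b3 i j : ℕ) : ℕ :=
  Nat.add (Nat.add (Nat.mul (dig b0 i) (dig b0 j)) (Nat.mul (dig b1 i) (dig b1 j)))
    (Nat.add (Nat.mul (dig b2 i) (dig b2 j)) (Nat.mul (dig b3 i) (dig b3 j)))

/-- diagonal entry of `3 C` -/
def dgr (b0 b1 b2 b3 i : ℕ) : ℕ :=
  Nat.add (Nat.add (Nat.mul (dig b0 i) (Nat.sub 3 (dig b0 i)))
      (Nat.mul (dig b1 i) (Nat.sub 3 (dig b1 i))))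
    (Nat.add (Nat.mul (dig b2 i) (Nat.sub 3 (dig b2 i)))
      (Nat.mul (dig b3 i) (Nat.sub 3 (dig b3 i))))

/-! untrusted elimination with packed rows -/

def sh (j x : ℕ) : ℕ := Nat.shiftLeft x (Nat.mul 32 j)
def gt (j x : ℕ) : ℕ := Nat.land (Nat.shiftRight x (Nat.mul 32 j)) 4294967295

def step (k p q P r : ℕ) : ℕ := Nat.div (Nat.add (Nat.mul p r) (Nat.mul (gt k r) P)) q
def piv (k r : ℕ) : ℕ := Nat.sub 4294967296 (gt k r)
def xr (k r : ℕ) : ℕ := Nat.shiftRight (Nat.add r (sh k (piv k r))) 192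

def elimN : ℕ → ℕ → ℕ → List ℕ → List ℕ
  | 0, _, _, _ => []
  | _ + 1, _, _, [] => []
  | n + 1, k, q, r :: rs => xr k r :: elimN n (Nat.succ k) (piv k r) (rs.map (step k (piv k r) q r))

def irow (b0 b1 b2 b3 i : ℕ) : ℕ :=
  Nat.sub (Nat.add (sh (Nat.add 6 i) 1)
    (Nat.add (sh 0 (lm b0 b1 b2 b3 i 0)) (Nat.add (sh 1 (lm b0 b1 b2 b3 i 1))
      (Nat.add (sh 2 (lm b0 b1 b2 b3 i 2)) (Nat.add (sh 3 (lm b0 b1 b2 b3 i 3))
        (Nat.add (sh 4 (lm b0 b1 b2 b3 i 4)) (sh 5 (lm b0 b1 b2 b3 i 5))))))))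
    (sh i (Nat.add (lm b0 b1 b2 b3 i i) (dgr b0 b1 b2 b3 i)))

def cert (b0 b1 b2 b3 : ℕ) : List ℕ :=
  elimN 6 0 1 [irow b0 b1 b2 b3 0, irow b0 b1 b2 b3 1, irow b0 b1 b2 b3 2,
    irow b0 b1 b2 b3 3, irow b0 b1 b2 b3 4, irow b0 b1 b2 b3 5]

/-! verification -/

def rsum (b0 b1 b2 b3 X j : ℕ) : ℕ → ℕ
  | 0 => 0
  | n + 1 => Nat.add (rsum b0 b1 b2 b3 X j n)
      (bif Nat.beq n j then 0 else Nat.mul (gt n X) (lm b0 b1 b2 b3 n j))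

def vj (b0 b1 b2 b3 X i : ℕ) : ℕ → Bool
  | 0 => true
  | n + 1 => vj b0 b1 b2 b3 X i n &&
      Nat.beq (rsum b0 b1 b2 b3 X n (Nat.succ i)) (Nat.mul (gt n X) (dgr b0 b1 b2 b3 n))

def vrow (b0 b1 b2 b3 i X : ℕ) : Bool :=
  vj b0 b1 b2 b3 X i i && Nat.ble 1 (gt i X) &&
    Nat.ble (Nat.succ (rsum b0 b1 b2 b3 X i i)) (Nat.mul (gt i X) (dgr b0 b1 b2 b3 i))

def yd (b0 b1 b2 b3 i X : ℕ) : ℕ :=
  Nat.sub (Nat.mul (gt i X) (dgr b0 b1 b2 b3 i)) (rsum b0 b1 b2 b3 X i i)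

def sm (X : ℕ) : ℕ → ℕ
  | 0 => 0
  | n + 1 => Nat.add (sm X n) (gt n X)

def sq (X : ℕ) : ℕ → ℕ
  | 0 => 0
  | n + 1 => Nat.add (sq X n) (Nat.mul (gt n X) (gt n X))

def nm (i X : ℕ) : ℕ :=
  Nat.sub (Nat.mul 7 (sq X (Nat.succ i))) (Nat.mul (sm X (Nat.succ i)) (sm X (Nat.succ i)))

def fr : List (ℕ × ℕ) → ℕ × ℕ
  | [] => (0, 1)
  | (s, q) :: t => (Nat.add (Nat.mul s (fr t).2) (Nat.mul (fr t).1 q), Nat.mul q (fr t).2)

def term (b0 b1 b2 b3 i X : ℕ) : ℕ × ℕ :=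
  (nm i X, Nat.mul 7 (Nat.mul (gt i X) (yd b0 b1 b2 b3 i X)))

def terms (b0 b1 b2 b3 X0 X1 X2 X3 X4 X5 : ℕ) : List (ℕ × ℕ) :=
  [term b0 b1 b2 b3 0 X0, term b0 b1 b2 b3 1 X1, term b0 b1 b2 b3 2 X2,
    term b0 b1 b2 b3 3 X3, term b0 b1 b2 b3 4 X4, term b0 b1 b2 b3 5 X5]

def ver (b0 b1 b2 b3 : ℕ) : List ℕ → Bool
  | [X0, X1, X2, X3, X4, X5] =>
    vrow b0 b1 b2 b3 0 X0 && vrow b0 b1 b2 b3 1 X1 && vrow b0 b1 b2 b3 2 X2 &&
      vrow b0 b1 b2 b3 3 X3 && vrow b0 b1 b2 b3 4 X4 && vrow b0 b1 b2 b3 5 X5 &&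
    Nat.ble (Nat.mul (yd b0 b1 b2 b3 0 X0) (Nat.mul (yd b0 b1 b2 b3 1 X1)
        (Nat.mul (yd b0 b1 b2 b3 2 X2) (Nat.mul (yd b0 b1 b2 b3 3 X3)
          (Nat.mul (yd b0 b1 b2 b3 4 X4) (yd b0 b1 b2 b3 5 X5))))))
      (Nat.mul 288 (Nat.mul (gt 0 X0) (Nat.mul (gt 1 X1) (Nat.mul (gt 2 X2)
        (Nat.mul (gt 3 X3) (Nat.mul (gt 4 X4) (gt 5 X5))))))) &&
    Nat.ble (Nat.mul 167 (fr (terms b0 b1 b2 b3 X0 X1 X2 X3 X4 X5)).2)
      (Nat.mul 84 (fr (terms b0 b1 b2 b3 X0 X1 X2 X3 X4 X5)).1)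
  | _ => false

/-- treatment `i` has been used -/
def used (bs : List ℕ) (i : ℕ) : Bool := bs.any fun b => !(Nat.beq (dig b i) 0)

def R7 : List ℕ := [0, 1, 2, 3, 4, 5, 6]

/-- indices `i` such that `i` and `i + 1` have the same history -/
def cells (bs : List ℕ) : List ℕ :=
  [0, 1, 2, 3, 4, 5].filter fun i => bs.all fun b => Nat.beq (dig b i) (dig b (Nat.succ i))

def okc (bs : List ℕ) (b : ℕ) : Bool :=
  (cells bs).all fun i => Nat.ble (dig b (Nat.succ i)) (dig b i)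

def link (bs : List ℕ) (b : ℕ) : Bool :=
  (match bs with | [] => true | _ => false) || R7.all (used bs) ||
    (R7.any (fun i => !(Nat.beq (dig b i) 0) && used bs i) &&
      R7.any (fun i => !(Nat.beq (dig b i) 0) && !(used bs i)))

def check : List ℕ → Bool
  | [b3, b2, b1, b0] => !(R7.all (used [b3, b2, b1, b0])) || ver b0 b1 b2 b3 (cert b0 b1 b2 b3)
  | _ => false

def search : ℕ → List ℕ → Bool
  | 0, bs => check bs
  | n + 1, bs => BL.all fun b => !(okc bs b && link bs b) || search n (b :: bs)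

theorem search_true : search 4 [] = true := by decide +kernel

end Pool.Agent.V11204.PVS
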