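import Mathlib
import Pool.Agent.V11204.PVDefs

/-!
# Triangular certificates for the A- and D-values
-/

namespace Pool.Agent.V11204.PV
open Matrix

/-- all-ones matrix -/
def JJ (m : ℕ) : Matrix (Fin (m + 1)) (Fin (m + 1)) ℝ := Matrix.of fun _ _ => 1

theorem tri_cert {m : ℕ} (L Z : Matrix (Fin (m + 1)) (Fin (m + 1)) ℝ)
    (hs : ∀ i j, L i j = L j i) (hr : ∀ i, ∑ j, L i j = 0)
    (hlow : ∀ i k, i < k → Z i k = 0) (hlast : ∀ k, Z (Fin.last m) k = 1)
    (hx : ∀ i, i ≠ Fin.last m → 0 < Z i i)
    (h0 : ∀ i j, i ≠ Fin.last m → j < i → (Z * L) i j = 0)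
    (hy : ∀ i, i ≠ Fin.last m → 0 < (Z * L) i i) :
    ∃ K0 : Matrix (Fin (m + 1)) (Fin (m + 1)) ℝ, (L + JJ m) * K0 = 1 ∧
      K0.trace = ∑ i : Fin m, (∑ k, Z i.castSucc k ^ 2 - (∑ k, Z i.castSucc k) ^ 2 / (m + 1)) /
        (Z i.castSucc i.castSucc * (Z * L) i.castSucc i.castSucc) + 1 / (m + 1) ∧
      (L + JJ m).det * ∏ i : Fin m, Z i.castSucc i.castSucc =
        (m + 1) ^ 2 * ∏ i : Fin m, (Z * L) i.castSucc i.castSucc := by
  set v : ℝ := (m : ℝ) + 1 with hv
  have hv0 : v ≠ 0 := by positivity
  set s : Fin (m + 1) → ℝ := fun i => ∑ k, Z i k with hsdef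
  set c : Fin (m + 1) → ℝ := fun i => if i = Fin.last m then 0 else s i / v with hc
  set T : Matrix (Fin (m + 1)) (Fin (m + 1)) ℝ := Matrix.of fun i j => Z i j - c i with hT
  have hrow : ∀ i, ∑ k, (Z * L) i k = 0 := by
    intro i
    simp only [Matrix.mul_apply]
    rw [Finset.sum_comm]
    simp only [← Finset.mul_sum, hr, mul_zero, Finset.sum_const_zero]
  have hcolL : ∀ j, ∑ k, L k j = 0 := by
    intro j
    rw [← hr j]
    exact Finset.sum_congr rfl fun k _ => hs k j
  have hTs : ∀ i, ∑ k, T i k = if i = Fin.last m then v else 0 := by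
    intro i
    simp only [hT, Matrix.of_apply, Finset.sum_sub_distrib, Finset.sum_const, Finset.card_univ,
      Fintype.card_fin, nsmul_eq_mul]
    push_cast
    by_cases hi : i = Fin.last m
    · simp only [hc, if_pos hi, mul_zero, sub_zero]
      rw [hi]
      simp only [hlast, Finset.sum_const, Finset.card_univ, Fintype.card_fin, nsmul_eq_mul]
      push_cast
      ring
    · simp only [hc, if_neg hi]
      rw [← hv]
      show s i - v * (s i / v) = 0
      field_simp
      ring
  have hTB : ∀ i j, (T * (L + JJ m)) i j = if i = Fin.last m then v else (Z * L) i j := by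
    intro i j
    rw [Matrix.mul_add, Matrix.add_apply, Matrix.mul_apply, Matrix.mul_apply]
    have e1 : ∑ k, T i k * JJ m k j = ∑ k, T i k := by
      refine Finset.sum_congr rfl fun k _ => ?_
      simp [JJ]
    have e2 : ∑ k, T i k * L k j = (Z * L) i j := by
      rw [Matrix.mul_apply]
      simp only [hT, Matrix.of_apply, sub_mul, Finset.sum_sub_distrib]
      rw [← Finset.mul_sum, hcolL, mul_zero, sub_zero]
    rw [e1, e2, hTs]
    by_cases hi : i = Fin.last m
    · rw [if_pos hi, if_pos hi, hi, Matrix.mul_apply]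
      simp only [hlast, one_mul, hcolL, zero_add]
    · rw [if_neg hi, if_neg hi, add_zero]
  have hsymB : (L + JJ m)ᵀ = L + JJ m := by
    ext i j
    simp [JJ, hs j i]
  have hsymM : (T * (L + JJ m) * Tᵀ)ᵀ = T * (L + JJ m) * Tᵀ := by
    rw [Matrix.transpose_mul, Matrix.transpose_mul, hsymB, Matrix.transpose_transpose,
      Matrix.mul_assoc]
  set δ : Fin (m + 1) → ℝ := fun i => if i = Fin.last m then v ^ 2 else Z i i * (Z * L) i i with hδ
  have hδ0 : ∀ i, δ i ≠ 0 := by
    intro i
    by_cases hi : i = Fin.last m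
    · simp only [hδ, if_pos hi]; positivity
    · simp only [hδ, if_neg hi]
      exact (mul_pos (hx i hi) (hy i hi)).ne'
  have hle : ∀ i j, j ≤ i → (T * (L + JJ m) * Tᵀ) i j = if i = j then δ i else 0 := by
    intro i j hji
    rw [Matrix.mul_apply]
    simp only [hTB, Matrix.transpose_apply]
    by_cases hi : i = Fin.last m
    · simp only [if_pos hi, ← Finset.mul_sum, hTs]
      by_cases hj : j = Fin.last m
      · rw [if_pos hj, if_pos (by rw [hi, hj]), hδ]
        simp only [if_pos hi]; ring
      · rw [if_neg hj, if_neg (by rw [hi]; exact fun h => hj h.symm), mul_zero]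
    · simp only [if_neg hi]
      have e1 : ∑ k, (Z * L) i k * T j k = ∑ k, (Z * L) i k * Z j k := by
        simp only [hT, Matrix.of_apply, mul_sub, Finset.sum_sub_distrib]
        rw [← Finset.sum_mul, hrow, zero_mul, sub_zero]
      rw [e1]
      by_cases hij : i = j
      · subst hij
        rw [if_pos rfl, Finset.sum_eq_single i]
        · simp only [hδ, if_neg hi]; ring
        · intro k _ hk
          rcases lt_or_gt_of_ne hk with h | h
          · rw [h0 i k hi h, zero_mul]
          · rw [hlow i k h, mul_zero]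
        · intro h; exact absurd (Finset.mem_univ _) h
      · rw [if_neg hij]
        refine Finset.sum_eq_zero fun k _ => ?_
        rcases lt_or_ge k i with h | h
        · rw [h0 i k hi h, zero_mul]
        · have : j < k := lt_of_lt_of_le (lt_of_le_of_ne hji (Ne.symm hij)) h
          rw [hlow j k this, mul_zero]
  have hdiag : T * (L + JJ m) * Tᵀ = diagonal δ := by
    ext i j
    rcases le_total j i with h | h
    · rw [hle i j h, Matrix.diagonal_apply]
    · have := congrFun (congrFun hsymM i) j
      rw [Matrix.transpose_apply] at this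
      rw [← this, hle j i h, Matrix.diagonal_apply]
      by_cases hij : i = j
      · subst hij; simp
      · rw [if_neg hij, if_neg (Ne.symm hij)]
  have hinv : T * (L + JJ m) * Tᵀ * diagonal (fun i => (δ i)⁻¹) = 1 := by
    rw [hdiag, Matrix.diagonal_mul_diagonal]
    ext i j
    rw [Matrix.diagonal_apply, Matrix.one_apply]
    by_cases hij : i = j
    · rw [if_pos hij, if_pos hij, mul_inv_cancel₀ (hδ0 i)]
    · rw [if_neg hij, if_neg hij]
  refine ⟨Tᵀ * diagonal (fun i => (δ i)⁻¹) * T, ?_, ?_, ?_⟩
  · have h1 : T * ((L + JJ m) * Tᵀ * diagonal (fun i => (δ i)⁻¹)) = 1 := by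
      rw [← hinv]; simp only [Matrix.mul_assoc]
    have h2 := mul_eq_one_comm.1 h1
    rw [← h2]; simp only [Matrix.mul_assoc]
  · rw [Matrix.mul_assoc, Matrix.trace_mul_comm, Matrix.mul_assoc]
    rw [Matrix.trace]
    simp only [Matrix.diag_apply, Matrix.diagonal_mul]
    rw [Fin.sum_univ_castSucc]
    congr 1
    · refine Finset.sum_congr rfl fun i _ => ?_
      have hi : i.castSucc ≠ Fin.last m := (Fin.castSucc_lt_last i).ne
      rw [Matrix.mul_apply]
      simp only [hδ, if_neg hi, Matrix.transpose_apply]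
      rw [div_eq_inv_mul]
      congr 1
      have : ∀ k, T i.castSucc k * T i.castSucc k =
          Z i.castSucc k ^ 2 - 2 * c i.castSucc * Z i.castSucc k + c i.castSucc ^ 2 := by
        intro k
        simp only [hT, Matrix.of_apply]; ring
      simp only [this, Finset.sum_add_distrib, Finset.sum_sub_distrib, ← Finset.mul_sum,
        Finset.sum_const, Finset.card_univ, Fintype.card_fin, nsmul_eq_mul]
      push_cast
      rw [← hv]
      have hci : c i.castSucc = s i.castSucc / v := by simp only [hc, if_neg hi]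
      rw [hci]
      show _ - 2 * (s i.castSucc / v) * s i.castSucc + _ = _ - s i.castSucc ^ 2 / v
      field_simp
      ring
    · rw [Matrix.mul_apply]
      simp only [hδ, Matrix.transpose_apply]
      rw [if_pos trivial]
      have : ∀ k, T (Fin.last m) k = 1 := by
        intro k
        simp only [hT, Matrix.of_apply, hlast, hc, if_pos, sub_zero]
      simp only [this, mul_one, Finset.sum_const, Finset.card_univ, Fintype.card_fin,
        nsmul_eq_mul]
      push_cast
      rw [← hv]
      field_simp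
  · set U : Matrix (Fin (m + 1)) (Fin (m + 1)) ℝ :=
      Matrix.of fun i j => (if i = j then 1 else 0) - (if j = Fin.last m then c i else 0) with hU
    have hUZ : T = U * Z := by
      ext i j
      rw [Matrix.mul_apply]
      simp only [hU, Matrix.of_apply, sub_mul, Finset.sum_sub_distrib, ite_mul, one_mul, zero_mul,
        Finset.sum_ite_eq, Finset.mem_univ, if_true, Finset.sum_ite_eq', hlast, hT, mul_one]
    have hUdet : U.det = 1 := by
      rw [Matrix.det_of_isUpperTriangular]
      · refine Finset.prod_eq_one fun i _ => ?_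
        simp only [hU, Matrix.of_apply, if_true]
        by_cases hi : i = Fin.last m
        · rw [if_pos hi]; simp only [hc, if_pos hi, sub_zero]
        · rw [if_neg hi, sub_zero]
      · intro i j hij
        have hij' : j < i := hij
        simp only [hU, Matrix.of_apply]
        rw [if_neg hij'.ne', if_neg (ne_of_lt (lt_of_lt_of_le hij' (Fin.le_last i))), sub_zero]
    have hZdet : Z.det = ∏ i : Fin m, Z i.castSucc i.castSucc := by
      rw [Matrix.det_of_isLowerTriangular]
      · rw [Fin.prod_univ_castSucc, hlast, mul_one]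
      · intro i j hij
        exact hlow i j (by simpa using hij)
    have hTdet : T.det = ∏ i : Fin m, Z i.castSucc i.castSucc := by
      rw [hUZ, Matrix.det_mul, hUdet, one_mul, hZdet]
    have hd := congrArg Matrix.det hdiag
    rw [Matrix.det_mul, Matrix.det_mul, Matrix.det_transpose, Matrix.det_diagonal,
      Fin.prod_univ_castSucc, hTdet] at hd
    have hδl : δ (Fin.last m) = v ^ 2 := by simp only [hδ, if_true]
    have hδc : ∏ i : Fin m, δ i.castSucc =
        (∏ i : Fin m, Z i.castSucc i.castSucc) * ∏ i : Fin m, (Z * L) i.castSucc i.castSucc := by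
      rw [← Finset.prod_mul_distrib]
      refine Finset.prod_congr rfl fun i _ => ?_
      simp only [hδ, if_neg (Fin.castSucc_lt_last i).ne]
    rw [hδl, hδc] at hd
    have hne : (∏ i : Fin m, Z i.castSucc i.castSucc) ≠ 0 :=
      Finset.prod_ne_zero_iff.2 fun i _ => (hx _ (Fin.castSucc_lt_last i).ne).ne'
    have : (∏ i : Fin m, Z i.castSucc i.castSucc) * ((L + JJ m).det *
        ∏ i : Fin m, Z i.castSucc i.castSucc) = (∏ i : Fin m, Z i.castSucc i.castSucc) *
        (v ^ 2 * ∏ i : Fin m, (Z * L) i.castSucc i.castSucc) := by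
      linear_combination hd
    exact mul_left_cancel₀ hne this

/-- values of the criteria from a right inverse of `k C + J` -/
theorem values {m b k : ℕ} (hk : 0 < k) {n : Matrix (Fin (m + 1)) (Fin b) ℕ} (hn : IsDesign k n)
    {K0 : Matrix (Fin (m + 1)) (Fin (m + 1)) ℝ}
    (hK0 : ((k : ℝ) • info k n + JJ m) * K0 = 1) :
    ((ev k n).map (fun x => x⁻¹)).sum = k * (K0.trace - 1 / (m + 1)) ∧
      (0 : ℝ) ∉ ev k n ∧
      ((k : ℝ) • info k n + JJ m).det = (m + 1) * (k : ℝ) ^ m * (ev k n).prod := by
  have hk' : (k : ℝ) ≠ 0 := by exact_mod_cast hk.ne'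
  set v : ℝ := (m : ℝ) + 1 with hv
  have hv0 : v ≠ 0 := by positivity
  have hK0' : K0 * ((k : ℝ) • info k n + JJ m) = 1 := mul_eq_one_comm.1 hK0
  have hrow := info_row hk hn
  have hCJ : info k n * JJ m = 0 := by
    ext i j
    rw [Matrix.mul_apply]
    simp only [JJ, Matrix.of_apply, mul_one, hrow, Matrix.zero_apply]
  have hJC : JJ m * info k n = 0 := by
    ext i j
    rw [Matrix.mul_apply]
    simp only [JJ, Matrix.of_apply, one_mul, Matrix.zero_apply]
    rw [← hrow j]
    exact Finset.sum_congr rfl fun l _ => info_symm k n l j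
  have hJJ : JJ m * JJ m = v • JJ m := by
    ext i j
    rw [Matrix.mul_apply]
    simp [JJ, hv]
  have hKJ : K0 * JJ m = v⁻¹ • JJ m := by
    have h1 : K0 * ((k : ℝ) • info k n + JJ m) * JJ m = JJ m := by rw [hK0', Matrix.one_mul]
    rw [Matrix.mul_assoc, Matrix.add_mul, Matrix.smul_mul, hCJ, smul_zero, zero_add, hJJ,
      Matrix.mul_smul] at h1
    rw [← h1, smul_smul]
    rw [show v⁻¹ * v = 1 from inv_mul_cancel₀ hv0, one_smul]
    rw [h1]
  set P : Matrix (Fin (m + 1)) (Fin (m + 1)) ℝ := v⁻¹ • JJ m with hP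
  set K : Matrix (Fin (m + 1)) (Fin (m + 1)) ℝ := (k : ℝ) • (K0 - (v⁻¹ * v⁻¹) • JJ m) with hK
  have hPA : P * info k n = 0 := by rw [hP, Matrix.smul_mul, hJC, smul_zero]
  have hKC0 : (k : ℝ) • (K0 * info k n) = 1 - P := by
    rw [Matrix.mul_add, Matrix.mul_smul, hKJ] at hK0'
    rw [← hK0', add_sub_cancel_right]
  have hKA : K * info k n = 1 - P := by
    rw [hK, Matrix.smul_mul, Matrix.sub_mul, Matrix.smul_mul, hJC, smul_zero, sub_zero, hKC0]
  have hKP : K * P = 0 := by
    have h1 : (v⁻¹ * v⁻¹) • v • JJ m = P := by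
      rw [smul_smul, mul_assoc, inv_mul_cancel₀ hv0, mul_one]
    have h2 : K * JJ m = 0 := by
      rw [hK, Matrix.smul_mul, Matrix.sub_mul, Matrix.smul_mul, hKJ, hJJ, h1, sub_self, smul_zero]
    rw [hP, Matrix.mul_smul, h2, smul_zero]
  have hP1 : P.trace = 1 := by
    rw [hP, Matrix.trace_smul]
    simp only [JJ, Matrix.trace, Matrix.diag_apply, Matrix.of_apply, Finset.sum_const,
      Finset.card_univ, Fintype.card_fin, nsmul_eq_mul, mul_one, smul_eq_mul]
    push_cast
    rw [← hv, inv_mul_cancel₀ hv0]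
  have hA := info_herm k n
  obtain ⟨e1, e2⟩ := PatSpec.erase_sum hA hPA hKA hKP hP1
  have e3 := erase_prod hA hPA hKA hKP hP1 (k : ℝ) v
  refine ⟨?_, e2, ?_⟩
  · unfold ev
    rw [e1, hK, Matrix.trace_smul, Matrix.trace_sub, Matrix.trace_smul]
    have : (JJ m).trace = v := by
      simp only [JJ, Matrix.trace, Matrix.diag_apply, Matrix.of_apply, Finset.sum_const,
        Finset.card_univ, Fintype.card_fin, nsmul_eq_mul, mul_one]
      push_cast
      rfl
    rw [this]
    simp only [smul_eq_mul]
    rw [mul_assoc, inv_mul_cancel₀ hv0, mul_one, one_div]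
  · unfold ev
    have h7 : (k : ℝ) • info k n + v • P = (k : ℝ) • info k n + JJ m := by
      rw [hP, smul_smul, mul_inv_cancel₀ hv0, one_smul]
    rw [h7] at e3
    rw [e3, Nat.add_sub_cancel]

end Pool.Agent.V11204.PV
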