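import Mathlib
import Pool.Agent.V11204.PVTri
import Pool.Agent.V11204.PVSearch

/-!
# Soundness of the verification of one design
-/

namespace Pool.Agent.V11204.PV
open Matrix PVS

variable {n : Matrix (Fin 7) (Fin 4) ℕ} {b0 b1 b2 b3 : ℕ}

/-- the blocks are encoded by `b0, …, b3` -/
structure Enc (n : Matrix (Fin 7) (Fin 4) ℕ) (b0 b1 b2 b3 : ℕ) : Prop where
  e0 : ∀ i : Fin 7, dig b0 i = n i 0
  e1 : ∀ i : Fin 7, dig b1 i = n i 1
  e2 : ∀ i : Fin 7, dig b2 i = n i 2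
  e3 : ∀ i : Fin 7, dig b3 i = n i 3

lemma entry_le {m b k : ℕ} {n : Matrix (Fin m) (Fin b) ℕ} (hn : IsDesign k n) (i : Fin m)
    (B : Fin b) : n i B ≤ k := by
  rw [← hn B]
  exact Finset.single_le_sum (f := fun i => n i B) (fun _ _ => Nat.zero_le _) (Finset.mem_univ i)

lemma L_off (hE : Enc n b0 b1 b2 b3) {i j : Fin 7} (hij : i ≠ j) :
    ((3 : ℝ) • info 3 n) i j = -(lm b0 b1 b2 b3 i j : ℝ) := by
  rw [Matrix.smul_apply]
  unfold info
  rw [Matrix.of_apply, if_neg hij, Fin.sum_univ_four]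
  simp only [lm, Nat.add_eq, Nat.mul_eq, hE.e0, hE.e1, hE.e2, hE.e3]
  push_cast
  rw [smul_eq_mul]
  ring

lemma L_diag (hn : IsDesign 3 n) (hE : Enc n b0 b1 b2 b3) (i : Fin 7) :
    ((3 : ℝ) • info 3 n) i i = (dgr b0 b1 b2 b3 i : ℝ) := by
  rw [Matrix.smul_apply]
  unfold info rep
  rw [Matrix.of_apply, if_pos rfl, Fin.sum_univ_four, Fin.sum_univ_four]
  simp only [dgr, Nat.add_eq, Nat.mul_eq, Nat.sub_eq, hE.e0, hE.e1, hE.e2, hE.e3]
  have h0 := entry_le hn i 0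
  have h1 := entry_le hn i 1
  have h2 := entry_le hn i 2
  have h3 := entry_le hn i 3
  push_cast [Nat.cast_sub h0, Nat.cast_sub h1, Nat.cast_sub h2, Nat.cast_sub h3]
  rw [smul_eq_mul]
  ring

lemma rsum_eq (X j N : ℕ) : rsum b0 b1 b2 b3 X j N =
    ∑ k ∈ Finset.range N, if k = j then 0 else gt k X * lm b0 b1 b2 b3 k j := by
  induction N with
  | zero => rfl
  | succ N ih =>
    rw [Finset.sum_range_succ, ← ih]
    show rsum b0 b1 b2 b3 X j N + (bif Nat.beq N j then 0 else gt N X * lm b0 b1 b2 b3 N j) = _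
    congr 1
    by_cases h : N = j
    · rw [if_pos h, h]; simp
    · rw [if_neg h]
      have : Nat.beq N j = false := by
        rw [← Bool.not_eq_true, Nat.beq_eq]; exact h
      rw [this]; rfl

lemma vj_eq {X i N : ℕ} (h : vj b0 b1 b2 b3 X i N = true) : ∀ j < N,
    rsum b0 b1 b2 b3 X j (i + 1) = gt j X * dgr b0 b1 b2 b3 j := by
  induction N with
  | zero => intro j hj; exact absurd hj (Nat.not_lt_zero _)
  | succ N ih =>
    unfold vj at h
    rw [Bool.and_eq_true] at h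
    intro j hj
    rcases Nat.lt_succ_iff_lt_or_eq.1 hj with h1 | h1
    · exact ih h.1 j h1
    · subst h1
      exact Nat.beq_eq.mp h.2

lemma sm_eq (X N : ℕ) : sm X N = ∑ k ∈ Finset.range N, gt k X := by
  induction N with
  | zero => rfl
  | succ N ih => rw [Finset.sum_range_succ, ← ih]; rfl

lemma sq_eq (X N : ℕ) : sq X N = ∑ k ∈ Finset.range N, gt k X ^ 2 := by
  induction N with
  | zero => rfl
  | succ N ih =>
    rw [Finset.sum_range_succ, ← ih, pow_two]; rfl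

lemma sm_sq {X N : ℕ} (hN : N ≤ 7) : sm X N * sm X N ≤ 7 * sq X N := by
  rw [sm_eq, sq_eq, ← pow_two]
  have h := sq_sum_le_card_mul_sum_sq (s := Finset.range N) (f := fun k => (gt k X : ℝ))
  rw [Finset.card_range] at h
  have h2 : (((∑ k ∈ Finset.range N, gt k X) ^ 2 : ℕ) : ℝ) ≤
      ((7 * ∑ k ∈ Finset.range N, gt k X ^ 2 : ℕ) : ℝ) := by
    push_cast
    refine le_trans h ?_
    refine mul_le_mul_of_nonneg_right ?_ (Finset.sum_nonneg fun _ _ => by positivity)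
    exact_mod_cast hN
  exact_mod_cast h2

lemma fr_eq (l : List (ℕ × ℕ)) (h : ∀ p ∈ l, 0 < p.2) :
    0 < (fr l).2 ∧ ((fr l).1 : ℝ) / ((fr l).2 : ℝ) = (l.map fun p => (p.1 : ℝ) / (p.2 : ℝ)).sum := by
  induction l with
  | nil => exact ⟨Nat.one_pos, by simp [fr]⟩
  | cons p t ih =>
    obtain ⟨s, q⟩ := p
    obtain ⟨h1, h2⟩ := ih fun p hp => h p (List.mem_cons_of_mem _ hp)
    have hq : 0 < q := h (s, q) List.mem_cons_self
    refine ⟨Nat.mul_pos hq h1, ?_⟩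
    rw [List.map_cons, List.sum_cons, ← h2]
    show (((s * (fr t).2 + (fr t).1 * q : ℕ) : ℝ)) / ((q * (fr t).2 : ℕ) : ℝ) = _
    push_cast
    have hq' : (q : ℝ) ≠ 0 := by exact_mod_cast hq.ne'
    have h1' : ((fr t).2 : ℝ) ≠ 0 := by exact_mod_cast h1.ne'
    field_simp

/-- the triangular matrix of a certificate -/
noncomputable def Zm (X : Fin 7 → ℕ) : Matrix (Fin 7) (Fin 7) ℝ :=
  Matrix.of fun i k => if i = Fin.last 6 then 1 else if k ≤ i then (gt k (X i) : ℝ) else 0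

lemma Zm_sum (X : Fin 7 → ℕ) {i : Fin 7} (hi : i ≠ Fin.last 6) (f : ℕ → ℝ) :
    ∑ k, Zm X i k * f k = ∑ k ∈ Finset.range (i + 1), (gt k (X i) : ℝ) * f k := by
  have h1 : ∀ k : Fin 7, Zm X i k * f k =
      (fun k : ℕ => (if k ≤ (i : ℕ) then (gt k (X i) : ℝ) else 0) * f k) k := by
    intro k
    simp only [Zm, Matrix.of_apply, if_neg hi]
    rfl
  rw [Finset.sum_congr rfl fun k _ => h1 k,
    Fin.sum_univ_eq_sum_range (fun k : ℕ => (if k ≤ (i : ℕ) then (gt k (X i) : ℝ) else 0) * f k) 7]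
  symm
  rw [← Finset.sum_subset (s₁ := Finset.range (i + 1)) (s₂ := Finset.range 7)]
  · refine Finset.sum_congr rfl fun k hk => ?_
    rw [Finset.mem_range, Nat.lt_succ_iff] at hk
    rw [if_pos hk]
  · intro k hk
    rw [Finset.mem_range] at hk ⊢
    omega
  · intro k _ hk
    rw [Finset.mem_range, Nat.lt_succ_iff] at hk
    rw [if_neg hk, zero_mul]

lemma ZL (hn : IsDesign 3 n) (hE : Enc n b0 b1 b2 b3) (X : Fin 7 → ℕ) {i : Fin 7}
    (hi : i ≠ Fin.last 6) (j : Fin 7) (hji : j ≤ i) :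
    (Zm X * ((3 : ℝ) • info 3 n)) i j =
      (gt j (X i) * dgr b0 b1 b2 b3 j : ℕ) - (rsum b0 b1 b2 b3 (X i) j (i + 1) : ℕ) := by
  rw [Matrix.mul_apply]
  have h1 : ∀ k : Fin 7, ((3 : ℝ) • info 3 n) k j =
      (fun k : ℕ => if k = j then (dgr b0 b1 b2 b3 j : ℝ) else -(lm b0 b1 b2 b3 k j : ℝ)) k := by
    intro k
    by_cases hkj : k = j
    · subst hkj
      simp only [if_true]
      exact L_diag hn hE k
    · have : ¬ ((k : ℕ) = j) := fun h => hkj (Fin.ext h)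
      simp only [if_neg this]
      exact L_off hE hkj
  refine (Finset.sum_congr rfl fun k _ => by rw [h1 k]).trans ((Zm_sum X hi
    (fun k : ℕ => if k = j then (dgr b0 b1 b2 b3 j : ℝ) else -(lm b0 b1 b2 b3 k j : ℝ))).trans ?_)
  rw [rsum_eq]
  have hmem : (j : ℕ) ∈ Finset.range (i + 1) := by
    rw [Finset.mem_range]
    have : (j : ℕ) ≤ i := hji
    omega
  rw [← Finset.add_sum_erase _ _ hmem, if_pos rfl]
  push_cast
  rw [← Finset.add_sum_erase (Finset.range ((i : ℕ) + 1)) _ hmem, if_pos rfl, sub_eq_add_neg,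
    zero_add, ← Finset.sum_neg_distrib]
  congr 1
  refine Finset.sum_congr rfl fun k hk => ?_
  have hk' := Finset.ne_of_mem_erase hk
  rw [if_neg hk', if_neg hk']
  ring

lemma rsum_self (X i : ℕ) : rsum b0 b1 b2 b3 X i (i + 1) = rsum b0 b1 b2 b3 X i i := by
  rw [rsum_eq, rsum_eq, Finset.sum_range_succ, if_pos rfl, add_zero]

theorem ver_values (hn : IsDesign 3 n) (hE : Enc n b0 b1 b2 b3) (X : Fin 7 → ℕ)
    (hX : ∀ i : Fin 6, vrow b0 b1 b2 b3 i (X i.castSucc) = true) :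
    ((ev 3 n).map (fun x => x⁻¹)).sum =
      3 * ∑ i : Fin 6, ((nm i (X i.castSucc) : ℕ) : ℝ) /
        ((7 * (gt i (X i.castSucc) * yd b0 b1 b2 b3 i (X i.castSucc)) : ℕ) : ℝ) ∧
      (0 : ℝ) ∉ ev 3 n ∧
      729 * (ev 3 n).prod * ∏ i : Fin 6, (gt i (X i.castSucc) : ℝ) =
        7 * ∏ i : Fin 6, (yd b0 b1 b2 b3 i (X i.castSucc) : ℝ) ∧
      (∀ i : Fin 6, 0 < gt i (X i.castSucc)) ∧
      (∀ i : Fin 6, 0 < yd b0 b1 b2 b3 i (X i.castSucc)) := by
  have hV : ∀ i : Fin 6, (∀ j < (i : ℕ), rsum b0 b1 b2 b3 (X i.castSucc) j (i + 1) =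
      gt j (X i.castSucc) * dgr b0 b1 b2 b3 j) ∧ 1 ≤ gt i (X i.castSucc) ∧
      rsum b0 b1 b2 b3 (X i.castSucc) i i + 1 ≤ gt i (X i.castSucc) * dgr b0 b1 b2 b3 i := by
    intro i
    have h := hX i
    unfold vrow at h
    rw [Bool.and_eq_true, Bool.and_eq_true, Nat.ble_eq, Nat.ble_eq] at h
    exact ⟨vj_eq h.1.1, h.1.2, h.2⟩
  have hyd : ∀ i : Fin 6, (yd b0 b1 b2 b3 i (X i.castSucc) : ℝ) =
      (Zm X * ((3 : ℝ) • info 3 n)) i.castSucc i.castSucc := by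
    intro i
    have hi : i.castSucc ≠ Fin.last 6 := (Fin.castSucc_lt_last i).ne
    rw [ZL hn hE X hi _ le_rfl]
    have h3 := (hV i).2.2
    rw [Fin.val_castSucc, rsum_self]
    unfold yd
    rw [Nat.sub_eq, Nat.mul_eq, Nat.cast_sub (by omega)]
  have hydpos : ∀ i : Fin 6, 0 < yd b0 b1 b2 b3 i (X i.castSucc) := by
    intro i
    have h3 := (hV i).2.2
    unfold yd
    rw [Nat.sub_eq, Nat.mul_eq]
    omega
  have hxx : ∀ i : Fin 6, Zm X i.castSucc i.castSucc = (gt i (X i.castSucc) : ℝ) := by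
    intro i
    have hi : i.castSucc ≠ Fin.last 6 := (Fin.castSucc_lt_last i).ne
    simp only [Zm, Matrix.of_apply, if_neg hi, le_refl, if_true, Fin.val_castSucc]
  obtain ⟨K0, k1, k2, k3⟩ := tri_cert (m := 6) ((3 : ℝ) • info 3 n) (Zm X)
    (fun i j => by rw [Matrix.smul_apply, Matrix.smul_apply, info_symm])
    (fun i => by
      simp only [Matrix.smul_apply, smul_eq_mul]
      rw [← Finset.mul_sum, info_row (by norm_num) hn, mul_zero])
    (fun i k hik => by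
      have hi : i ≠ Fin.last 6 := (lt_of_lt_of_le hik (Fin.le_last k)).ne
      simp only [Zm, Matrix.of_apply, if_neg hi, if_neg (not_le.2 hik)])
    (fun k => by simp [Zm])
    (fun i hi => by
      obtain ⟨i, rfl⟩ := Fin.exists_castSucc_eq.2 hi
      rw [hxx]
      exact_mod_cast (hV i).2.1)
    (fun i j hi hji => by
      rw [ZL hn hE X hi j hji.le]
      obtain ⟨i, rfl⟩ := Fin.exists_castSucc_eq.2 hi
      have h1 := (hV i).1 j hji
      rw [Fin.val_castSucc, h1, sub_self])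
    (fun i hi => by
      obtain ⟨i, rfl⟩ := Fin.exists_castSucc_eq.2 hi
      rw [← hyd]
      exact_mod_cast hydpos i)
  obtain ⟨v1, v2, v3⟩ := values (m := 6) (k := 3) (by norm_num) hn (K0 := K0) (by exact_mod_cast k1)
  refine ⟨?_, v2, ?_, fun i => (hV i).2.1, hydpos⟩
  · rw [v1, k2]
    push_cast
    rw [add_sub_cancel_right]
    congr 1
    refine Finset.sum_congr rfl fun i _ => ?_
    have hi : i.castSucc ≠ Fin.last 6 := (Fin.castSucc_lt_last i).ne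
    rw [hxx, ← hyd]
    have hs : ∑ k, Zm X i.castSucc k = (sm (X i.castSucc) (i + 1) : ℝ) := by
      have := Zm_sum X hi (fun _ => 1)
      simp only [mul_one] at this
      rw [this, sm_eq]
      push_cast
      rfl
    have hq : ∑ k, Zm X i.castSucc k ^ 2 = (sq (X i.castSucc) (i + 1) : ℝ) := by
      have h1 : ∀ k : Fin 7, Zm X i.castSucc k ^ 2 =
          Zm X i.castSucc k * (fun k : ℕ => (gt k (X i.castSucc) : ℝ)) k := by
        intro k
        simp only [Zm, Matrix.of_apply, if_neg hi]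
        split_ifs
        · rw [pow_two]
        · simp
      refine (Finset.sum_congr rfl fun k _ => h1 k).trans ((Zm_sum X hi
        (fun k : ℕ => (gt k (X i.castSucc) : ℝ))).trans ?_)
      rw [sq_eq]
      push_cast
      refine Finset.sum_congr rfl fun k _ => ?_
      rw [pow_two]
    rw [hs, hq]
    have hnm : (nm i (X i.castSucc) : ℝ) = 7 * (sq (X i.castSucc) (i + 1) : ℝ) -
        (sm (X i.castSucc) (i + 1) : ℝ) ^ 2 := by
      unfold nm
      rw [Nat.sub_eq, Nat.mul_eq, Nat.mul_eq, Nat.cast_sub]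
      · push_cast
        rw [pow_two]
      · exact sm_sq (by omega)
    rw [hnm]
    have hx0 : (gt i (X i.castSucc) : ℝ) ≠ 0 := by
      have := (hV i).2.1
      exact_mod_cast (by omega : gt i (X i.castSucc) ≠ 0)
    have hy0 : (yd b0 b1 b2 b3 i (X i.castSucc) : ℝ) ≠ 0 := by exact_mod_cast (hydpos i).ne'
    field_simp
    ring
  · have k3' := k3
    rw [Finset.prod_congr rfl fun i _ => hxx i, Finset.prod_congr rfl fun i _ => (hyd i).symm] at k3'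
    have v3' : ((3 : ℝ) • info 3 n + JJ 6).det = 7 * 729 * (ev 3 n).prod := by
      have := v3
      push_cast at this
      rw [this]
      norm_num
    rw [v3'] at k3'
    push_cast at k3'
    linear_combination k3' / 7

theorem ver_eq (hn : IsDesign 3 n) (hE : Enc n b0 b1 b2 b3) {X0 X1 X2 X3 X4 X5 : ℕ}
    (h0 : vrow b0 b1 b2 b3 0 X0 = true) (h1 : vrow b0 b1 b2 b3 1 X1 = true)
    (h2 : vrow b0 b1 b2 b3 2 X2 = true) (h3 : vrow b0 b1 b2 b3 3 X3 = true)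
    (h4 : vrow b0 b1 b2 b3 4 X4 = true) (h5 : vrow b0 b1 b2 b3 5 X5 = true) :
    0 < (fr (terms b0 b1 b2 b3 X0 X1 X2 X3 X4 X5)).2 ∧
    ((ev 3 n).map (fun x => x⁻¹)).sum = 3 *
      (((fr (terms b0 b1 b2 b3 X0 X1 X2 X3 X4 X5)).1 : ℝ) /
        ((fr (terms b0 b1 b2 b3 X0 X1 X2 X3 X4 X5)).2 : ℝ)) ∧
    (0 : ℝ) ∉ ev 3 n ∧
    0 < gt 0 X0 * (gt 1 X1 * (gt 2 X2 * (gt 3 X3 * (gt 4 X4 * gt 5 X5)))) ∧
    729 * (ev 3 n).prod *
      ((gt 0 X0 * (gt 1 X1 * (gt 2 X2 * (gt 3 X3 * (gt 4 X4 * gt 5 X5)))) : ℕ) : ℝ) =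
      7 * ((yd b0 b1 b2 b3 0 X0 * (yd b0 b1 b2 b3 1 X1 * (yd b0 b1 b2 b3 2 X2 *
        (yd b0 b1 b2 b3 3 X3 * (yd b0 b1 b2 b3 4 X4 * yd b0 b1 b2 b3 5 X5)))) : ℕ) : ℝ) := by
  obtain ⟨a1, a2, a3, a4, a5⟩ := ver_values hn hE ![X0, X1, X2, X3, X4, X5, 0] (by
    intro i
    fin_cases i
    · exact h0
    · exact h1
    · exact h2
    · exact h3
    · exact h4
    · exact h5)
  have x0 : 0 < gt 0 X0 := a4 0
  have x1 : 0 < gt 1 X1 := a4 1
  have x2 : 0 < gt 2 X2 := a4 2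
  have x3 : 0 < gt 3 X3 := a4 3
  have x4 : 0 < gt 4 X4 := a4 4
  have x5 : 0 < gt 5 X5 := a4 5
  have y0 : 0 < yd b0 b1 b2 b3 0 X0 := a5 0
  have y1 : 0 < yd b0 b1 b2 b3 1 X1 := a5 1
  have y2 : 0 < yd b0 b1 b2 b3 2 X2 := a5 2
  have y3 : 0 < yd b0 b1 b2 b3 3 X3 := a5 3
  have y4 : 0 < yd b0 b1 b2 b3 4 X4 := a5 4
  have y5 : 0 < yd b0 b1 b2 b3 5 X5 := a5 5
  have hf := fr_eq (terms b0 b1 b2 b3 X0 X1 X2 X3 X4 X5) (by
    intro p hp
    simp only [terms, List.mem_cons, List.not_mem_nil, or_false] at hp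
    have h7 : 0 < 7 := by norm_num
    rcases hp with rfl | rfl | rfl | rfl | rfl | rfl
    · exact Nat.mul_pos h7 (Nat.mul_pos x0 y0)
    · exact Nat.mul_pos h7 (Nat.mul_pos x1 y1)
    · exact Nat.mul_pos h7 (Nat.mul_pos x2 y2)
    · exact Nat.mul_pos h7 (Nat.mul_pos x3 y3)
    · exact Nat.mul_pos h7 (Nat.mul_pos x4 y4)
    · exact Nat.mul_pos h7 (Nat.mul_pos x5 y5))
  refine ⟨hf.1, ?_, a2, Nat.mul_pos x0 (Nat.mul_pos x1 (Nat.mul_pos x2 (Nat.mul_pos x3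
    (Nat.mul_pos x4 x5)))), ?_⟩
  · rw [a1, hf.2, Fin.sum_univ_six]
    simp only [terms, term, List.map_cons, List.map_nil, List.sum_cons, List.sum_nil]
    congr 1
    rw [add_zero]
    simp only [← add_assoc]
    rfl
  · rw [Fin.prod_univ_six, Fin.prod_univ_six] at a3
    push_cast
    have a3' : 729 * (ev 3 n).prod * ((gt 0 X0 : ℝ) * gt 1 X1 * gt 2 X2 * gt 3 X3 * gt 4 X4 *
        gt 5 X5) = 7 * ((yd b0 b1 b2 b3 0 X0 : ℝ) * yd b0 b1 b2 b3 1 X1 * yd b0 b1 b2 b3 2 X2 *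
        yd b0 b1 b2 b3 3 X3 * yd b0 b1 b2 b3 4 X4 * yd b0 b1 b2 b3 5 X5) := a3
    linear_combination a3'

theorem ver_sound (hn : IsDesign 3 n) (hE : Enc n b0 b1 b2 b3) {Xs : List ℕ}
    (h : ver b0 b1 b2 b3 Xs = true) :
    167 / 28 ≤ ((ev 3 n).map (fun x => x⁻¹)).sum ∧ (ev 3 n).prod ≤ 2016 / 729 := by
  match Xs, h with
  | [X0, X1, X2, X3, X4, X5], h =>
    unfold ver at h
    simp only [Bool.and_eq_true] at h
    obtain ⟨⟨⟨⟨⟨⟨⟨h0, h1⟩, h2⟩, h3⟩, h4⟩, h5⟩, hd⟩, ht⟩ := h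
    obtain ⟨q1, q2, q3, q4, q5⟩ := ver_eq hn hE h0 h1 h2 h3 h4 h5
    rw [Nat.ble_eq] at hd ht
    constructor
    · rw [q2]
      have q1' : (0 : ℝ) < (fr (terms b0 b1 b2 b3 X0 X1 X2 X3 X4 X5)).2 := by exact_mod_cast q1
      have ht' : (167 : ℝ) * (fr (terms b0 b1 b2 b3 X0 X1 X2 X3 X4 X5)).2 ≤
          84 * (fr (terms b0 b1 b2 b3 X0 X1 X2 X3 X4 X5)).1 := by exact_mod_cast ht
      rw [mul_div_assoc', le_div_iff₀ q1']
      linarith
    · have hd' : ((yd b0 b1 b2 b3 0 X0 * (yd b0 b1 b2 b3 1 X1 * (yd b0 b1 b2 b3 2 X2 *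
        (yd b0 b1 b2 b3 3 X3 * (yd b0 b1 b2 b3 4 X4 * yd b0 b1 b2 b3 5 X5)))) : ℕ) : ℝ) ≤
          288 * ((gt 0 X0 * (gt 1 X1 * (gt 2 X2 * (gt 3 X3 * (gt 4 X4 * gt 5 X5)))) : ℕ) : ℝ) := by
        exact_mod_cast hd
      have q4' : (0 : ℝ) <
          ((gt 0 X0 * (gt 1 X1 * (gt 2 X2 * (gt 3 X3 * (gt 4 X4 * gt 5 X5)))) : ℕ) : ℝ) := by
        exact_mod_cast q4
      rw [le_div_iff₀ (by norm_num)]
      by_contra hcon
      push Not at hcon
      nlinarith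

end Pool.Agent.V11204.PV
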