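import Mathlib
import Pool.Agent.V11204.PVSound

/-!
# Optimality in `D(7,4,3)`
-/

namespace Pool.Agent.V11204.PV
open Matrix PVS

lemma dig_eq (b i : ℕ) : dig b i = b / 4 ^ i % 4 := by
  unfold dig
  show (b >>> (2 * i)) &&& 3 = _
  have h := Nat.and_two_pow_sub_one_eq_mod (b >>> (2 * i)) 2
  norm_num at h
  rw [h, Nat.shiftRight_eq_div_pow, pow_mul]
  norm_num

def enc : (m : ℕ) → (Fin m → ℕ) → ℕ
  | 0, _ => 0
  | m + 1, f => f 0 + 4 * enc m (fun i => f i.succ)

lemma enc_mem (m : ℕ) (f : Fin m → ℕ) : enc m f ∈ vecs m (∑ i, f i) := by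
  induction m with
  | zero => simp [enc, vecs]
  | succ m ih =>
    rw [Fin.sum_univ_succ]
    unfold enc vecs
    rw [List.mem_flatMap]
    refine ⟨f 0, List.mem_range.2 (by omega), ?_⟩
    rw [List.mem_map]
    exact ⟨_, by rw [Nat.add_sub_cancel_left]; exact ih _, rfl⟩

lemma dig_enc (m : ℕ) (f : Fin m → ℕ) (hf : ∀ i, f i < 4) (i : Fin m) : dig (enc m f) i = f i := by
  induction m with
  | zero => exact i.elim0
  | succ m ih =>
    rw [dig_eq]
    unfold enc
    refine Fin.cases ?_ (fun j => ?_) i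
    · simp only [Fin.val_zero, pow_zero, Nat.div_one]
      rw [Nat.add_mul_mod_self_left]
      exact Nat.mod_eq_of_lt (hf 0)
    · have h := ih (fun i => f i.succ) (fun i => hf _) j
      rw [dig_eq] at h
      rw [← h, Fin.val_succ, pow_succ', ← Nat.div_div_eq_div_mul]
      congr 2
      have := hf 0
      omega

/-! ### permutations -/

lemma ev_perm {n : Matrix (Fin 7) (Fin 4) ℕ} (σ : Equiv.Perm (Fin 7)) (π : Equiv.Perm (Fin 4)) :
    ev 3 (Matrix.of fun i t => n (σ i) (π t)) = ev 3 n := by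
  have h : info 3 (Matrix.of fun i t => n (σ i) (π t)) = Matrix.reindex σ.symm σ.symm (info 3 n) := by
    ext i j
    rw [Matrix.reindex_apply, Matrix.submatrix_apply]
    unfold info rep
    simp only [Matrix.of_apply, Equiv.symm_symm]
    rw [Equiv.sum_comp π fun B => n (σ i) B, Equiv.sum_comp π fun B => (n (σ i) B : ℝ) * n (σ j) B]
    by_cases hij : i = j
    · rw [if_pos hij, if_pos (by rw [hij])]
    · rw [if_neg hij, if_neg fun h => hij (σ.injective h)]
  unfold ev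
  rw [h, Matrix.charpoly_reindex]

/-- link condition for the order of the blocks -/
def Lk (n : Matrix (Fin 7) (Fin 4) ℕ) (t : Fin 4) : Prop :=
  t = 0 ∨ (∀ i, ∃ s < t, n i s ≠ 0) ∨
    ((∃ i, n i t ≠ 0 ∧ ∃ s < t, n i s ≠ 0) ∧ (∃ i, n i t ≠ 0 ∧ ∀ s < t, n i s = 0))

lemma cross {v b : ℕ} {n : Matrix (Fin v) (Fin b) ℕ} (hc : Conn n) (U : Set (Fin v)) {i j : Fin v}
    (hi : i ∈ U) (hj : j ∉ U) : ∃ B, (∃ i ∈ U, n i B ≠ 0) ∧ (∃ j, j ∉ U ∧ n j B ≠ 0) := by
  obtain ⟨p⟩ := hc.preconnected i j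
  obtain ⟨d, -, h1, h2⟩ := p.exists_boundary_dart U hi hj
  have h3 := d.adj
  rw [SimpleGraph.fromRel_adj] at h3
  have h4 : 0 < conc n d.fst d.snd := by
    rcases h3.2 with h | h
    · exact h
    · unfold conc at h ⊢
      rw [Finset.sum_congr rfl fun B _ => mul_comm _ _]
      exact h
  unfold conc at h4
  obtain ⟨B, -, hB⟩ := Finset.exists_ne_zero_of_sum_ne_zero h4.ne'
  exact ⟨B, ⟨d.fst, h1, left_ne_zero_of_mul hB⟩, ⟨d.snd, h2, right_ne_zero_of_mul hB⟩⟩

lemma order {n : Matrix (Fin 7) (Fin 4) ℕ} (hn : IsDesign 3 n) (hc : Conn n) :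
    ∃ π : Equiv.Perm (Fin 4), ∀ t, Lk (Matrix.of fun i s => n i (π s)) t := by
  have key : ∀ T : ℕ, T ≤ 4 → ∃ π : Equiv.Perm (Fin 4), ∀ t : Fin 4, (t : ℕ) < T →
      Lk (Matrix.of fun i s => n i (π s)) t := by
    intro T
    induction T with
    | zero => exact fun _ => ⟨Equiv.refl _, fun t ht => absurd ht (Nat.not_lt_zero _)⟩
    | succ T ih =>
      intro hT
      obtain ⟨π, hπ⟩ := ih (by omega)
      have hlast : ∀ π' : Equiv.Perm (Fin 4), (∀ s : Fin 4, (s : ℕ) < T → π' s = π s) →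
          Lk (Matrix.of fun i s => n i (π' s)) ⟨T, hT⟩ → ∀ t : Fin 4, (t : ℕ) < T + 1 →
          Lk (Matrix.of fun i s => n i (π' s)) t := by
        intro π' hs hL t ht
        rcases Nat.lt_succ_iff_lt_or_eq.1 ht with h | h
        · have h1 := hπ t h
          unfold Lk at h1 ⊢
          simp only [Matrix.of_apply] at h1 ⊢
          have e : ∀ s : Fin 4, s ≤ t → π' s = π s := fun s hst => hs s (by
            have : (s : ℕ) ≤ t := hst
            omega)
          rcases h1 with h1 | h1 | ⟨⟨i, h1, s, h2, h3⟩, ⟨j, h4, h5⟩⟩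
          · exact Or.inl h1
          · refine Or.inr (Or.inl fun i => ?_)
            obtain ⟨s, h2, h3⟩ := h1 i
            exact ⟨s, h2, by rw [e s h2.le]; exact h3⟩
          · refine Or.inr (Or.inr ⟨⟨i, by rw [e t le_rfl]; exact h1, s, h2, by
              rw [e s h2.le]; exact h3⟩, ⟨j, by rw [e t le_rfl]; exact h4, fun s hs' => by
              rw [e s hs'.le]; exact h5 s hs'⟩⟩)
        · have : t = ⟨T, hT⟩ := Fin.ext h
          rw [this]; exact hL
      by_cases h0 : T = 0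
      · refine ⟨π, hlast π (fun _ _ => rfl) (Or.inl ?_)⟩
        exact Fin.ext h0
      by_cases hall : ∀ i, ∃ s : Fin 4, (s : ℕ) < T ∧ n i (π s) ≠ 0
      · refine ⟨π, hlast π (fun _ _ => rfl) (Or.inr (Or.inl fun i => ?_))⟩
        obtain ⟨s, h1, h2⟩ := hall i
        exact ⟨s, h1, h2⟩
      push Not at hall
      obtain ⟨j, hj⟩ := hall
      have hT4 : T < 4 := hT
      have hpos : ∃ i, n i (π 0) ≠ 0 := by
        by_contra hcon
        push Not at hcon
        have := hn (π 0)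
        rw [Finset.sum_eq_zero fun i _ => hcon i] at this
        omega
      obtain ⟨i, hi⟩ := hpos
      obtain ⟨B, ⟨u, hu, hu'⟩, ⟨w, hw, hw'⟩⟩ := cross hc
        {i | ∃ s : Fin 4, (s : ℕ) < T ∧ n i (π s) ≠ 0} (i := i) (j := j)
        ⟨0, Nat.pos_of_ne_zero h0, hi⟩ (by
          rintro ⟨s, h1, h2⟩
          exact h2 (hj s h1))
      obtain ⟨r, rfl⟩ := π.surjective B
      have hr : ¬ (r : ℕ) < T := fun h => hw ⟨r, h, hw'⟩
      have hsw : ∀ s : Fin 4, (s : ℕ) < T →
          ((Equiv.swap ⟨T, hT4⟩ r).trans π) s = π s := by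
        intro s hs
        rw [Equiv.trans_apply, Equiv.swap_apply_of_ne_of_ne]
        · exact fun h => by rw [h] at hs; exact lt_irrefl _ hs
        · exact fun h => hr (by rw [← h]; exact hs)
      refine ⟨(Equiv.swap ⟨T, hT4⟩ r).trans π, hlast _ hsw (Or.inr (Or.inr ⟨?_, ?_⟩))⟩
      · obtain ⟨s, h1, h2⟩ := hu
        refine ⟨u, ?_, s, h1, ?_⟩
        · rw [Matrix.of_apply, Equiv.trans_apply, Equiv.swap_apply_left]; exact hu'
        · rw [Matrix.of_apply, hsw s h1]; exact h2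
      · refine ⟨w, ?_, fun s h1 => ?_⟩
        · rw [Matrix.of_apply, Equiv.trans_apply, Equiv.swap_apply_left]; exact hw'
        · rw [Matrix.of_apply, hsw s h1]
          by_contra h2
          exact hw ⟨s, h1, h2⟩
  obtain ⟨π, hπ⟩ := key 4 le_rfl
  exact ⟨π, fun t => hπ t t.2⟩

def code (n : Matrix (Fin 7) (Fin 4) ℕ) (i : Fin 7) : ℕ :=
  64 * n i 0 + 16 * n i 1 + 4 * n i 2 + n i 3

/-- canonical form -/
structure Can (n : Matrix (Fin 7) (Fin 4) ℕ) : Prop where
  des : IsDesign 3 n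
  cov : ∀ i, ∃ s, n i s ≠ 0
  lk : ∀ t, Lk n t
  srt : ∀ i j : Fin 7, i ≤ j → code n j ≤ code n i

lemma exists_can {n : Matrix (Fin 7) (Fin 4) ℕ} (hn : IsDesign 3 n) (hc : Conn n) :
    ∃ n', Can n' ∧ ev 3 n' = ev 3 n := by
  obtain ⟨π, hπ⟩ := order hn hc
  set n1 : Matrix (Fin 7) (Fin 4) ℕ := Matrix.of fun i s => n i (π s) with hn1
  let σ := Tuple.sort (fun i => 255 - code n1 i)
  have hσ : Monotone ((fun i => 255 - code n1 i) ∘ σ) := Tuple.monotone_sort _
  have hd1 : IsDesign 3 n1 := fun B => hn (π B)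
  have hcode : ∀ i, code n1 i ≤ 255 := by
    intro i
    have h0 := entry_le hd1 i 0
    have h1 := entry_le hd1 i 1
    have h2 := entry_le hd1 i 2
    have h3 := entry_le hd1 i 3
    unfold code
    omega
  refine ⟨Matrix.of fun i t => n (σ i) (π t), ⟨?_, ?_, ?_, ?_⟩, ev_perm σ π⟩
  · intro B
    simp only [Matrix.of_apply]
    rw [Equiv.sum_comp σ fun i => n i (π B)]
    exact hn _
  · intro i
    have : ∃ j, j ≠ σ i := exists_ne _
    obtain ⟨j, hj⟩ := this
    obtain ⟨B, ⟨u, hu, hu'⟩, -⟩ := cross hc {σ i} (i := σ i) (j := j) rfl hj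
    have hu2 : u = σ i := hu
    rw [hu2] at hu'
    exact ⟨π.symm B, by simpa using hu'⟩
  · intro t
    have h := hπ t
    unfold Lk at h ⊢
    simp only [hn1, Matrix.of_apply] at h ⊢
    rcases h with h | h | ⟨⟨i, h1, h2⟩, ⟨j, h3, h4⟩⟩
    · exact Or.inl h
    · exact Or.inr (Or.inl fun i => h (σ i))
    · refine Or.inr (Or.inr ⟨⟨σ.symm i, ?_⟩, ⟨σ.symm j, ?_⟩⟩)
      · rw [Equiv.apply_symm_apply]; exact ⟨h1, h2⟩
      · rw [Equiv.apply_symm_apply]; exact ⟨h3, h4⟩
  · intro i j hij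
    have h := hσ hij
    simp only [Function.comp] at h
    have h1 := hcode (σ i)
    have h2 := hcode (σ j)
    show code n1 (σ j) ≤ code n1 (σ i)
    omega

/-! ### soundness of the search -/

lemma okc_of {bs : List ℕ} {b : ℕ}
    (h : ∀ i < 6, (∀ b' ∈ bs, dig b' i = dig b' (i + 1)) → dig b (i + 1) ≤ dig b i) :
    okc bs b = true := by
  unfold okc cells
  rw [List.all_eq_true]
  intro i hi
  rw [List.mem_filter, List.all_eq_true] at hi
  rw [Nat.ble_eq]
  refine h i ?_ fun b' hb' => Nat.beq_eq.mp (hi.2 b' hb')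
  have := hi.1
  simp only [List.mem_cons, List.not_mem_nil, or_false] at this
  omega

lemma used_iff {bs : List ℕ} {i : ℕ} : used bs i = true ↔ ∃ b ∈ bs, dig b i ≠ 0 := by
  unfold used
  rw [List.any_eq_true]
  constructor
  · rintro ⟨b, hb, h⟩
    refine ⟨b, hb, fun h0 => ?_⟩
    rw [h0] at h
    exact absurd h (by decide)
  · rintro ⟨b, hb, h⟩
    refine ⟨b, hb, ?_⟩
    rw [Bool.not_eq_true', ← Bool.not_eq_true, Nat.beq_eq]
    exact h

lemma mem_R7 {i : ℕ} : i ∈ R7 ↔ i < 7 := by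
  unfold R7
  simp only [List.mem_cons, List.not_mem_nil, or_false]
  omega

lemma allused_iff {bs : List ℕ} : R7.all (used bs) = true ↔ ∀ i < 7, ∃ b ∈ bs, dig b i ≠ 0 := by
  rw [List.all_eq_true]
  constructor
  · intro h i hi
    exact used_iff.1 (h i (mem_R7.2 hi))
  · intro h i hi
    exact used_iff.2 (h i (mem_R7.1 hi))

lemma link_of {bs : List ℕ} {b : ℕ} (h : bs = [] ∨ (∀ i < 7, ∃ b ∈ bs, dig b i ≠ 0) ∨
    ((∃ i < 7, dig b i ≠ 0 ∧ ∃ b ∈ bs, dig b i ≠ 0) ∧
      (∃ i < 7, dig b i ≠ 0 ∧ ∀ b ∈ bs, dig b i = 0))) : link bs b = true := by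
  have hd : ∀ x : ℕ, x ≠ 0 → (!(Nat.beq x 0)) = true := by
    intro x hx
    rw [Bool.not_eq_true', ← Bool.not_eq_true, Nat.beq_eq]
    exact hx
  unfold link
  rcases h with rfl | h | ⟨⟨i, hi, h1, h2⟩, ⟨j, hj, h3, h4⟩⟩
  · rfl
  · rw [allused_iff.2 h]; simp
  · have e1 : R7.any (fun i => !(Nat.beq (dig b i) 0) && used bs i) = true := by
      rw [List.any_eq_true]
      exact ⟨i, mem_R7.2 hi, by rw [hd _ h1, used_iff.2 h2]; rfl⟩
    have e2 : R7.any (fun i => !(Nat.beq (dig b i) 0) && !(used bs i)) = true := by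
      rw [List.any_eq_true]
      refine ⟨j, mem_R7.2 hj, ?_⟩
      have : used bs j = false := by
        rw [← Bool.not_eq_true, used_iff]
        rintro ⟨b', hb', h⟩
        exact h (h4 b' hb')
      rw [hd _ h3, this]; rfl
    rw [e1, e2]; simp

def pre (c : ℕ → ℕ) : ℕ → List ℕ
  | 0 => []
  | t + 1 => c t :: pre c t

lemma mem_pre {c : ℕ → ℕ} {T b : ℕ} : b ∈ pre c T ↔ ∃ s < T, b = c s := by
  induction T with
  | zero => simp [pre]
  | succ T ih =>
    unfold pre
    rw [List.mem_cons, ih]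
    constructor
    · rintro (h | ⟨s, hs, h⟩)
      · exact ⟨T, Nat.lt_succ_self _, h⟩
      · exact ⟨s, by omega, h⟩
    · rintro ⟨s, hs, h⟩
      rcases Nat.lt_succ_iff_lt_or_eq.1 hs with h1 | h1
      · exact Or.inr ⟨s, h1, h⟩
      · left; rw [← h1]; exact h

theorem opt_can {n : Matrix (Fin 7) (Fin 4) ℕ} (hn : Can n) :
    167 / 28 ≤ ((ev 3 n).map (fun x => x⁻¹)).sum ∧ (ev 3 n).prod ≤ 2016 / 729 := by
  let c : ℕ → ℕ := fun t => if h : t < 4 then enc 7 (fun i => n i ⟨t, h⟩) else 0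
  have hdig : ∀ (t : Fin 4) (i : Fin 7), dig (c t) i = n i t := by
    intro t i
    have : c t = enc 7 (fun i => n i t) := by
      simp only [c, t.2, dif_pos, Fin.eta]
    rw [this]
    exact dig_enc 7 _ (fun i => by have := entry_le hn.des i t; omega) i
  have hBL : ∀ t : Fin 4, c t ∈ BL := by
    intro t
    have : c t = enc 7 (fun i => n i t) := by
      simp only [c, t.2, dif_pos, Fin.eta]
    rw [this, BL_eq, ← hn.des t]
    exact enc_mem 7 _
  have hok : ∀ t : Fin 4, okc (pre c t) (c t) = true := by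
    intro t
    refine okc_of fun i hi heq => ?_
    have hle : (⟨i, by omega⟩ : Fin 7) ≤ ⟨i + 1, by omega⟩ := Nat.le_succ i
    have hs := hn.srt _ _ hle
    have heq' : ∀ s : Fin 4, s < t → n ⟨i, by omega⟩ s = n ⟨i + 1, by omega⟩ s := by
      intro s hst
      have := heq (c s) (mem_pre.2 ⟨s, hst, rfl⟩)
      have e1 := hdig s ⟨i, by omega⟩
      have e2 := hdig s ⟨i + 1, by omega⟩
      simp only at e1 e2
      rw [← e1, ← e2, this]
    have e1 := hdig t ⟨i, by omega⟩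
    have e2 := hdig t ⟨i + 1, by omega⟩
    simp only at e1 e2
    rw [e1, e2]
    have b0 := entry_le hn.des ⟨i, by omega⟩ 0
    have b1 := entry_le hn.des ⟨i, by omega⟩ 1
    have b2 := entry_le hn.des ⟨i, by omega⟩ 2
    have b3 := entry_le hn.des ⟨i, by omega⟩ 3
    have d0 := entry_le hn.des ⟨i + 1, by omega⟩ 0
    have d1 := entry_le hn.des ⟨i + 1, by omega⟩ 1
    have d2 := entry_le hn.des ⟨i + 1, by omega⟩ 2
    have d3 := entry_le hn.des ⟨i + 1, by omega⟩ 3
    unfold code at hs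
    fin_cases t
    · show n ⟨i + 1, by omega⟩ 0 ≤ n ⟨i, by omega⟩ 0
      omega
    · have g0 := heq' 0 (by decide)
      show n ⟨i + 1, by omega⟩ 1 ≤ n ⟨i, by omega⟩ 1
      omega
    · have g0 := heq' 0 (by decide)
      have g1 := heq' 1 (by decide)
      show n ⟨i + 1, by omega⟩ 2 ≤ n ⟨i, by omega⟩ 2
      omega
    · have g0 := heq' 0 (by decide)
      have g1 := heq' 1 (by decide)
      have g2 := heq' 2 (by decide)
      show n ⟨i + 1, by omega⟩ 3 ≤ n ⟨i, by omega⟩ 3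
      omega
  have hlk : ∀ t : Fin 4, link (pre c t) (c t) = true := by
    intro t
    refine link_of ?_
    rcases hn.lk t with h | h | ⟨⟨i, h1, s, hs, h2⟩, ⟨j, h3, h4⟩⟩
    · left
      rw [h]; rfl
    · right; left
      intro i hi
      obtain ⟨s, hs, h1⟩ := h ⟨i, hi⟩
      exact ⟨c s, mem_pre.2 ⟨s, hs, rfl⟩, by rw [← hdig] at h1; exact h1⟩
    · right; right
      refine ⟨⟨i, i.2, by rw [hdig]; exact h1, c s, mem_pre.2 ⟨s, hs, rfl⟩, by
        rw [hdig]; exact h2⟩, ⟨j, j.2, by rw [hdig]; exact h3, ?_⟩⟩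
      intro b' hb'
      obtain ⟨r, hr, rfl⟩ := mem_pre.1 hb'
      have hr4 : r < 4 := lt_trans hr t.2
      have := hdig ⟨r, hr4⟩ j
      simp only at this
      rw [this]
      exact h4 ⟨r, hr4⟩ hr
  have hsearch : ∀ T : ℕ, T ≤ 4 → search (4 - T) (pre c T) = true := by
    intro T
    induction T with
    | zero => intro _; exact search_true
    | succ T ih =>
      intro hT
      have h := ih (by omega)
      have e : 4 - T = (4 - (T + 1)) + 1 := by omega
      rw [e] at h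
      unfold search at h
      rw [List.all_eq_true] at h
      have h1 := h (c T) (hBL ⟨T, hT⟩)
      have h2 := hok ⟨T, hT⟩
      have h3 := hlk ⟨T, hT⟩
      simp only at h2 h3
      rw [h2, h3] at h1
      exact h1
  have hfin := hsearch 4 le_rfl
  have hcheck : (!(R7.all (used [c 3, c 2, c 1, c 0])) ||
      ver (c 0) (c 1) (c 2) (c 3) (cert (c 0) (c 1) (c 2) (c 3))) = true := hfin
  have hall : R7.all (used [c 3, c 2, c 1, c 0]) = true := by
    rw [allused_iff]
    intro i hi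
    obtain ⟨s, hs⟩ := hn.cov ⟨i, hi⟩
    refine ⟨c s, ?_, by rw [← hdig] at hs; exact hs⟩
    have : c s ∈ pre c 4 := mem_pre.2 ⟨s, s.2, rfl⟩
    exact this
  rw [hall] at hcheck
  have hver : ver (c 0) (c 1) (c 2) (c 3) (cert (c 0) (c 1) (c 2) (c 3)) = true := by
    simpa using hcheck
  exact ver_sound hn.des ⟨fun i => hdig 0 i, fun i => hdig 1 i, fun i => hdig 2 i,
    fun i => hdig 3 i⟩ hver

theorem opt_all {n : Matrix (Fin 7) (Fin 4) ℕ} (hn : IsDesign 3 n) (hc : Conn n) :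
    167 / 28 ≤ ((ev 3 n).map (fun x => x⁻¹)).sum ∧ (ev 3 n).prod ≤ 2016 / 729 := by
  obtain ⟨n', h1, h2⟩ := exists_can hn hc
  rw [← h2]
  exact opt_can h1

end Pool.Agent.V11204.PV
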