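import Mathlib
import Pool.Agent.V11204.PVOpt

/-!
# The least non-trivial eigenvalue; E-optimality of `K_{2,4}` in `D(6,8,2)`
-/

namespace Pool.Agent.V11204.PV
open Matrix

variable {v b k : ℕ}

lemma quad (n : Matrix (Fin v) (Fin b) ℕ) (x : Fin v → ℝ) :
    x ⬝ᵥ (info k n *ᵥ x) = ∑ B, (∑ i, (n i B : ℝ) * x i ^ 2 - (∑ i, (n i B : ℝ) * x i) ^ 2 / k) := by
  have h1 : ∀ i, (info k n *ᵥ x) i = (rep n i : ℝ) * x i -
      (∑ B, (n i B : ℝ) * (∑ j, (n j B : ℝ) * x j)) / k := by
    intro i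
    simp only [Matrix.mulVec, dotProduct, info, Matrix.of_apply, sub_mul, Finset.sum_sub_distrib,
      ite_mul, zero_mul, Finset.sum_ite_eq, Finset.mem_univ, if_true]
    congr 1
    simp only [Finset.mul_sum, Finset.sum_mul, Finset.sum_div]
    rw [Finset.sum_comm]
    refine Finset.sum_congr rfl fun B _ => Finset.sum_congr rfl fun j _ => ?_
    ring
  simp only [dotProduct, h1]
  rw [Finset.sum_sub_distrib]
  have h2 : ∑ i, x i * ((rep n i : ℝ) * x i - (∑ B, (n i B : ℝ) * (∑ j, (n j B : ℝ) * x j)) / k) =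
      ∑ i, ∑ B, (n i B : ℝ) * x i ^ 2 -
        ∑ i, ∑ B, (x i * (n i B : ℝ)) * (∑ j, (n j B : ℝ) * x j) / k := by
    rw [← Finset.sum_sub_distrib]
    refine Finset.sum_congr rfl fun i _ => ?_
    rw [mul_sub]
    congr 1
    · unfold rep
      push_cast
      rw [Finset.sum_mul, Finset.mul_sum]
      refine Finset.sum_congr rfl fun B _ => ?_
      ring
    · rw [Finset.sum_div, Finset.mul_sum]
      refine Finset.sum_congr rfl fun B _ => ?_
      ring
  rw [h2, Finset.sum_comm]
  congr 1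
  rw [Finset.sum_comm]
  refine Finset.sum_congr rfl fun B _ => ?_
  rw [← Finset.sum_div, ← Finset.sum_mul, pow_two]
  congr 2
  exact Finset.sum_congr rfl fun i _ => mul_comm _ _

lemma block_var {n : Matrix (Fin v) (Fin b) ℕ} (hk : 0 < k) (hn : IsDesign k n) (x : Fin v → ℝ)
    (B : Fin b) : ∑ i, (n i B : ℝ) * x i ^ 2 - (∑ i, (n i B : ℝ) * x i) ^ 2 / k =
      (∑ i, ∑ j, (n i B : ℝ) * (n j B : ℝ) * (x i - x j) ^ 2) / (2 * k) := by
  have hk' : (k : ℝ) ≠ 0 := by exact_mod_cast hk.ne'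
  have hs : ∑ i, (n i B : ℝ) = k := by exact_mod_cast hn B
  have h1 : ∑ i, ∑ j, (n i B : ℝ) * (n j B : ℝ) * (x i - x j) ^ 2 =
      2 * k * (∑ i, (n i B : ℝ) * x i ^ 2) - 2 * (∑ i, (n i B : ℝ) * x i) ^ 2 := by
    have e1 : ∀ i j, (n i B : ℝ) * (n j B : ℝ) * (x i - x j) ^ 2 =
        (n i B : ℝ) * x i ^ 2 * (n j B : ℝ) + (n i B : ℝ) * ((n j B : ℝ) * x j ^ 2) -
        2 * ((n i B : ℝ) * x i * ((n j B : ℝ) * x j)) := by intro i j; ring
    simp only [e1, Finset.sum_sub_distrib, Finset.sum_add_distrib, ← Finset.mul_sum,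
      ← Finset.sum_mul, hs]
    ring
  rw [h1]
  field_simp

lemma ker_const {n : Matrix (Fin v) (Fin b) ℕ} (hk : 0 < k) (hn : IsDesign k n) (hc : Conn n)
    {x : Fin v → ℝ} (hx : info k n *ᵥ x = 0) (i j : Fin v) : x i = x j := by
  have h0 := quad (k := k) n x
  rw [hx, dotProduct_zero, Finset.sum_congr rfl fun B _ => block_var hk hn x B] at h0
  have hk' : (0 : ℝ) < 2 * k := by positivity
  have hB : ∀ B, ∀ i j, (n i B : ℝ) * (n j B : ℝ) * (x i - x j) ^ 2 = 0 := by
    intro B i j
    have h1 := (Finset.sum_eq_zero_iff_of_nonneg (fun B _ => by positivity)).1 h0.symm B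
      (Finset.mem_univ _)
    rw [div_eq_zero_iff] at h1
    have h2 := h1.resolve_right hk'.ne'
    have h3 := (Finset.sum_eq_zero_iff_of_nonneg (fun i _ => by positivity)).1 h2 i
      (Finset.mem_univ _)
    exact (Finset.sum_eq_zero_iff_of_nonneg (fun i _ => by positivity)).1 h3 j (Finset.mem_univ _)
  by_contra hne
  obtain ⟨B, ⟨p, hp, hp'⟩, ⟨q, hq, hq'⟩⟩ := cross hc {l | x l = x i} (i := i) (j := j) rfl
    (fun h => hne (Eq.symm h))
  have h4 := hB B p q
  have h5 : (n p B : ℝ) ≠ 0 := by exact_mod_cast hp'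
  have h6 : (n q B : ℝ) ≠ 0 := by exact_mod_cast hq'
  have h7 : (x p - x q) ^ 2 = 0 := by
    rcases mul_eq_zero.1 h4 with h | h
    · exact absurd h (mul_ne_zero h5 h6)
    · exact h
  have h8 : x p = x q := by
    have := pow_eq_zero_iff (two_ne_zero) |>.1 h7
    linarith
  exact hq (by rw [Set.mem_ofPred_eq, ← h8]; exact hp)

lemma zero_notMem {n : Matrix (Fin v) (Fin b) ℕ} (hk : 0 < k) (hn : IsDesign k n) (hc : Conn n) :
    (0 : ℝ) ∉ ev k n := by
  have hA := info_herm k n
  unfold ev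
  rw [hA.roots_charpoly_eq_eigenvalues]
  intro h0
  rw [← Multiset.count_pos, Multiset.count_erase_self, Multiset.count_map] at h0
  have h1 : 1 < (Finset.univ.filter fun i => (0 : ℝ) = hA.eigenvalues i).card := by
    have : 1 < (Multiset.filter (fun a => (0 : ℝ) = (RCLike.ofReal ∘ hA.eigenvalues) a)
      Finset.univ.val).card := by omega
    exact this
  obtain ⟨i, hi, j, hj, hij⟩ := Finset.one_lt_card.1 h1
  rw [Finset.mem_filter] at hi hj
  have hz : ∀ i, (0 : ℝ) = hA.eigenvalues i → info k n *ᵥ ⇑(hA.eigenvectorBasis i) = 0 := by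
    intro i hi
    rw [hA.mulVec_eigenvectorBasis, ← hi, zero_smul]
  have ci := ker_const hk hn hc (hz i hi.2)
  have cj := ker_const hk hn hc (hz j hj.2)
  have ho := hA.eigenvectorBasis.orthonormal
  have h2 : inner ℝ (hA.eigenvectorBasis i) (hA.eigenvectorBasis j) = 0 := ho.2 hij
  have h3 : inner ℝ (hA.eigenvectorBasis i) (hA.eigenvectorBasis i) = 1 := by
    rw [real_inner_self_eq_norm_sq, ho.1]; norm_num
  have h4 : inner ℝ (hA.eigenvectorBasis j) (hA.eigenvectorBasis j) = 1 := by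
    rw [real_inner_self_eq_norm_sq, ho.1]; norm_num
  rw [PiLp.inner_apply] at h2 h3 h4
  simp only [RCLike.inner_apply, conj_trivial] at h2 h3 h4
  set a := hA.eigenvectorBasis i i with ha
  set c := hA.eigenvectorBasis j i with hcc
  have e2 : ∑ l, hA.eigenvectorBasis j l * hA.eigenvectorBasis i l = (v : ℝ) * (c * a) := by
    rw [Finset.sum_congr rfl fun l _ => by rw [ci l i, cj l i]]
    simp [← ha, ← hcc]
  have e3 : ∑ l, hA.eigenvectorBasis i l * hA.eigenvectorBasis i l = (v : ℝ) * (a * a) := by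
    rw [Finset.sum_congr rfl fun l _ => by rw [ci l i]]
    simp [← ha]
  have e4 : ∑ l, hA.eigenvectorBasis j l * hA.eigenvectorBasis j l = (v : ℝ) * (c * c) := by
    rw [Finset.sum_congr rfl fun l _ => by rw [cj l i]]
    simp [← hcc]
  rw [e2] at h2
  rw [e3] at h3
  rw [e4] at h4
  have : ((v : ℝ) * (a * a)) * ((v : ℝ) * (c * c)) = ((v : ℝ) * (c * a)) ^ 2 := by ring
  rw [h2, h3, h4] at this
  norm_num at this

lemma mem_ev_iff {n : Matrix (Fin v) (Fin b) ℕ} {θ : ℝ} (hθ : θ ≠ 0) :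
    θ ∈ ev k n ↔ ∃ i, (info_herm k n).eigenvalues i = θ := by
  unfold ev
  rw [Multiset.mem_erase_of_ne hθ, (info_herm k n).roots_charpoly_eq_eigenvalues,
    Multiset.mem_map]
  constructor
  · rintro ⟨i, -, h⟩
    exact ⟨i, h⟩
  · rintro ⟨i, h⟩
    exact ⟨i, Finset.mem_univ_val i, h⟩

lemma norm_one {n : Matrix (Fin v) (Fin b) ℕ} (i : Fin v) :
    (⇑((info_herm k n).eigenvectorBasis i) : Fin v → ℝ) ⬝ᵥ
      ⇑((info_herm k n).eigenvectorBasis i) = 1 := by
  have h3 : inner ℝ ((info_herm k n).eigenvectorBasis i) ((info_herm k n).eigenvectorBasis i) = 1 := by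
    rw [real_inner_self_eq_norm_sq, (info_herm k n).eigenvectorBasis.orthonormal.1]; norm_num
  rw [PiLp.inner_apply] at h3
  simp only [RCLike.inner_apply, conj_trivial] at h3
  exact h3

theorem ev_lower {n : Matrix (Fin v) (Fin b) ℕ} (hk : 0 < k) (hn : IsDesign k n) (hc : Conn n)
    {c : ℝ} (h : ∀ x : Fin v → ℝ, ∑ i, x i = 0 → c * (x ⬝ᵥ x) ≤ x ⬝ᵥ (info k n *ᵥ x)) :
    ∀ θ ∈ ev k n, c ≤ θ := by
  intro θ hθ
  have hθ0 : θ ≠ 0 := fun h0 => zero_notMem hk hn hc (h0 ▸ hθ)
  obtain ⟨i, hi⟩ := (mem_ev_iff hθ0).1 hθ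
  set u : Fin v → ℝ := ⇑((info_herm k n).eigenvectorBasis i) with hu
  have hCu : info k n *ᵥ u = θ • u := by
    rw [hu, (info_herm k n).mulVec_eigenvectorBasis, hi]
  have hsum : ∑ l, u l = 0 := by
    have h1 : ∑ l, (info k n *ᵥ u) l = 0 := by
      simp only [Matrix.mulVec, dotProduct]
      rw [Finset.sum_comm]
      refine Finset.sum_eq_zero fun j _ => ?_
      rw [← Finset.sum_mul]
      have : ∑ l, info k n l j = 0 := by
        rw [← info_row hk hn j]
        exact Finset.sum_congr rfl fun l _ => info_symm k n l j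
      rw [this, zero_mul]
    rw [hCu] at h1
    simp only [Pi.smul_apply, smul_eq_mul, ← Finset.mul_sum] at h1
    exact (mul_eq_zero.1 h1).resolve_left hθ0
  have h2 := h u hsum
  rw [hCu, dotProduct_smul, norm_one, smul_eq_mul, mul_one, mul_one] at h2
  exact h2

theorem ev_upper {n : Matrix (Fin v) (Fin b) ℕ} (hk : 0 < k) (hn : IsDesign k n) (hc : Conn n)
    {θ : ℝ} {x : Fin v → ℝ} (hs : ∑ i, x i = 0) (hx : x ≠ 0)
    (hq : x ⬝ᵥ (info k n *ᵥ x) ≤ θ * (x ⬝ᵥ x)) : ∃ θ' ∈ ev k n, θ' ≤ θ := by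
  by_contra hcon
  push Not at hcon
  have hA := info_herm k n
  set U : Matrix (Fin v) (Fin v) ℝ := (hA.eigenvectorUnitary : Matrix (Fin v) (Fin v) ℝ) with hU
  have h3 : U * star U = 1 := Unitary.coe_mul_star_self _
  have h4 : star U * U = 1 := Unitary.coe_star_mul_self _
  have hst : star U = Uᵀ := by
    ext i j
    simp [Matrix.star_apply]
  rw [hst] at h3 h4
  set c : Fin v → ℝ := Uᵀ *ᵥ x with hcdef
  have hxc : U *ᵥ c = x := by rw [hcdef, Matrix.mulVec_mulVec, h3, Matrix.one_mulVec]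
  have hCU : info k n * U = U * diagonal hA.eigenvalues := by
    ext i j
    rw [mul_diagonal]
    have h2 := congrFun (hA.mulVec_eigenvectorBasis j) i
    simp only [Pi.smul_apply, smul_eq_mul] at h2
    rw [hU, Matrix.IsHermitian.eigenvectorUnitary_apply, mul_comm _ (hA.eigenvalues j), ← h2]
    simp only [Matrix.mul_apply, Matrix.mulVec, dotProduct]
    rfl
  have hdot : ∀ a d : Fin v → ℝ, (U *ᵥ a) ⬝ᵥ (U *ᵥ d) = a ⬝ᵥ d := by
    intro a d
    rw [Matrix.dotProduct_mulVec, ← Matrix.mulVec_transpose, Matrix.mulVec_mulVec, h4,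
      Matrix.one_mulVec]
  have hxx : x ⬝ᵥ x = ∑ i, c i * c i := by
    rw [← hxc, hdot]; rfl
  have hCx : x ⬝ᵥ (info k n *ᵥ x) = ∑ i, hA.eigenvalues i * (c i * c i) := by
    have : info k n *ᵥ x = U *ᵥ (diagonal hA.eigenvalues *ᵥ c) := by
      rw [Matrix.mulVec_mulVec, ← hCU, ← Matrix.mulVec_mulVec, hxc]
    rw [this]
    conv_lhs => rw [← hxc]
    rw [hdot, dotProduct]
    refine Finset.sum_congr rfl fun i _ => ?_
    rw [Matrix.mulVec_diagonal]; ring
  have hci : ∀ i, c i = ∑ l, hA.eigenvectorBasis i l * x l := by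
    intro i
    rw [hcdef]
    simp only [Matrix.mulVec, dotProduct, Matrix.transpose_apply]
    refine Finset.sum_congr rfl fun l _ => ?_
    rw [hU, Matrix.IsHermitian.eigenvectorUnitary_apply]
  have hzero : ∀ i, hA.eigenvalues i = 0 → c i = 0 := by
    intro i hi
    have hz : info k n *ᵥ ⇑(hA.eigenvectorBasis i) = 0 := by
      rw [hA.mulVec_eigenvectorBasis, hi, zero_smul]
    have ci := ker_const hk hn hc hz
    rw [hci, Finset.sum_congr rfl fun l _ => by rw [ci l i], ← Finset.mul_sum, hs, mul_zero]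
  have hterm : ∀ i, 0 ≤ (hA.eigenvalues i - θ) * (c i * c i) := by
    intro i
    by_cases hi : hA.eigenvalues i = 0
    · rw [hzero i hi]; simp
    · have := hcon _ ((mem_ev_iff hi).2 ⟨i, rfl⟩)
      exact mul_nonneg (by linarith) (mul_self_nonneg _)
  have hsum : ∑ i, (hA.eigenvalues i - θ) * (c i * c i) ≤ 0 := by
    simp only [sub_mul, Finset.sum_sub_distrib, ← Finset.mul_sum]
    rw [← hCx, ← hxx]
    linarith
  have hz := (Finset.sum_eq_zero_iff_of_nonneg (fun i _ => hterm i)).1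
    (le_antisymm hsum (Finset.sum_nonneg fun i _ => hterm i))
  have hc0 : c = 0 := by
    funext i
    by_cases hi : hA.eigenvalues i = 0
    · exact hzero i hi
    · have h5 := hz i (Finset.mem_univ _)
      have h6 := hcon _ ((mem_ev_iff hi).2 ⟨i, rfl⟩)
      have h7 : hA.eigenvalues i - θ ≠ 0 := by linarith
      exact mul_self_eq_zero.1 ((mul_eq_zero.1 h5).resolve_left h7)
  exact hx (by rw [← hxc, hc0, Matrix.mulVec_zero])

/-! ### blocks of size 2 -/

lemma two_ends {n : Matrix (Fin v) (Fin b) ℕ} (hn : IsDesign 2 n) (B : Fin b) :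
    ∃ p q, ∀ i, n i B = (if i = p then 1 else 0) + (if i = q then 1 else 0) := by
  have h := hn B
  obtain ⟨p, hp⟩ : ∃ p, n p B ≠ 0 := by
    by_contra hcon
    push Not at hcon
    rw [Finset.sum_eq_zero fun i _ => hcon i] at h
    omega
  have h1 : ∑ i, (n i B - if i = p then 1 else 0) = 1 := by
    have e : ∑ i, n i B = ∑ i, (n i B - if i = p then 1 else 0) + 1 := by
      have : ∑ i : Fin v, (if i = p then 1 else 0) = 1 := by simp
      rw [← this, ← Finset.sum_add_distrib]
      refine Finset.sum_congr rfl fun i _ => ?_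
      by_cases hi : i = p
      · subst hi; simp only [if_true]; omega
      · simp only [if_neg hi]; omega
    omega
  obtain ⟨q, hq⟩ : ∃ q, (n q B - if q = p then 1 else 0) ≠ 0 := by
    by_contra hcon
    push Not at hcon
    rw [Finset.sum_eq_zero fun i _ => hcon i] at h1
    omega
  have h2 : ∀ i, i ≠ q → (n i B - if i = p then 1 else 0) = 0 := by
    intro i hi
    have h3 : (n q B - if q = p then 1 else 0) +
        ∑ i ∈ Finset.univ.erase q, (n i B - if i = p then 1 else 0) =
        ∑ i, (n i B - if i = p then 1 else 0) :=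
      Finset.add_sum_erase Finset.univ (fun i => n i B - if i = p then 1 else 0)
      (Finset.mem_univ q)
    rw [h1] at h3
    have h4 : ∑ i ∈ Finset.univ.erase q, (n i B - if i = p then 1 else 0) = 0 := by omega
    exact (Finset.sum_eq_zero_iff.1 h4) i (Finset.mem_erase.2 ⟨hi, Finset.mem_univ _⟩)
  have h5 : (n q B - if q = p then 1 else 0) = 1 := by
    have h3 : (n q B - if q = p then 1 else 0) ≤ ∑ i, (n i B - if i = p then 1 else 0) :=
      Finset.single_le_sum (f := fun i => n i B - if i = p then 1 else 0)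
      (fun _ _ => Nat.zero_le _) (Finset.mem_univ q)
    omega
  refine ⟨p, q, fun i => ?_⟩
  by_cases hiq : i = q
  · subst hiq
    rw [if_pos rfl]
    by_cases hip : i = p
    · rw [if_pos hip] at h5 ⊢
      omega
    · rw [if_neg hip] at h5 ⊢
      omega
  · rw [if_neg hiq]
    have h6 := h2 i hiq
    by_cases hip : i = p
    · subst hip
      rw [if_pos rfl] at h6 ⊢
      omega
    · rw [if_neg hip] at h6 ⊢
      omega

lemma quad_two {n : Matrix (Fin v) (Fin b) ℕ} {p q : Fin b → Fin v}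
    (hpq : ∀ B i, n i B = (if i = p B then 1 else 0) + (if i = q B then 1 else 0))
    (x : Fin v → ℝ) :
    x ⬝ᵥ (info 2 n *ᵥ x) = ∑ B, (x (p B) - x (q B)) ^ 2 / 2 := by
  rw [quad]
  refine Finset.sum_congr rfl fun B _ => ?_
  have h1 : ∀ f : Fin v → ℝ, ∑ i, (n i B : ℝ) * f i = f (p B) + f (q B) := by
    intro f
    simp only [hpq]
    push_cast
    simp only [add_mul, ite_mul, one_mul, zero_mul, Finset.sum_add_distrib, Finset.sum_ite_eq',
      Finset.mem_univ, if_true]
  rw [h1, h1]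
  push_cast
  ring

theorem e_upper {n : Matrix (Fin 6) (Fin 8) ℕ} (hn : IsDesign 2 n) (hc : Conn n) :
    ∃ θ ∈ ev 2 n, θ ≤ 1 := by
  choose p q hpq using fun B => two_ends hn B
  -- blocks with exactly one end at `x`
  let S : Fin 6 → Finset (Fin 8) := fun x =>
    Finset.univ.filter fun B => (p B = x ∧ q B ≠ x) ∨ (q B = x ∧ p B ≠ x)
  have hS : ∃ x, (S x).card ≤ 2 := by
    by_contra hcon
    push Not at hcon
    have h1 : ∑ x : Fin 6, 3 ≤ ∑ x, (S x).card := Finset.sum_le_sum fun x _ => hcon x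
    have h2 : ∑ x, (S x).card ≤ 16 := by
      simp only [S, Finset.card_filter]
      rw [Finset.sum_comm]
      have h3 : ∀ B : Fin 8, ∑ x : Fin 6, (if (p B = x ∧ q B ≠ x) ∨ (q B = x ∧ p B ≠ x) then 1
          else 0) ≤ 2 := by
        intro B
        calc ∑ x : Fin 6, (if (p B = x ∧ q B ≠ x) ∨ (q B = x ∧ p B ≠ x) then 1 else 0)
            ≤ ∑ x : Fin 6, ((if p B = x then 1 else 0) + (if q B = x then 1 else 0)) := by
              refine Finset.sum_le_sum fun x _ => ?_
              split_ifs <;> simp_all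
          _ = 2 := by simp [Finset.sum_add_distrib]
      calc ∑ B : Fin 8, ∑ x : Fin 6, (if (p B = x ∧ q B ≠ x) ∨ (q B = x ∧ p B ≠ x) then 1
          else 0) ≤ ∑ B : Fin 8, 2 := Finset.sum_le_sum fun B _ => h3 B
        _ = 16 := by simp
    simp only [Finset.sum_const, Finset.card_univ, Fintype.card_fin, smul_eq_mul] at h1
    omega
  obtain ⟨x, hx⟩ := hS
  -- the other ends
  let Y : Finset (Fin 6) := (S x).image fun B => if p B = x then q B else p B
  have hYx : x ∉ Y := by
    intro h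
    simp only [Y, S, Finset.mem_image, Finset.mem_filter, Finset.mem_univ, true_and] at h
    obtain ⟨B, hB, hB'⟩ := h
    rcases hB with ⟨h1, h2⟩ | ⟨h1, h2⟩
    · rw [if_pos h1] at hB'; exact h2 hB'
    · rw [if_neg h2] at hB'; exact h2 hB'
  have hYS : Y.card ≤ (S x).card := Finset.card_image_le
  have hSpos : 1 ≤ (S x).card := by
    obtain ⟨j, hj⟩ : ∃ j : Fin 6, j ≠ x := exists_ne x
    obtain ⟨B, ⟨u, hu, hu'⟩, ⟨w, hw, hw'⟩⟩ := cross hc {x} (i := x) (j := j) rfl hj
    have hu2 : u = x := hu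
    have hw2 : w ≠ x := hw
    rw [hu2] at hu'
    rw [hpq] at hu' hw'
    refine Finset.card_pos.2 ⟨B, ?_⟩
    simp only [S, Finset.mem_filter, Finset.mem_univ, true_and]
    by_cases h1 : p B = x
    · left
      refine ⟨h1, fun h2 => hw' ?_⟩
      rw [if_neg (by rw [h1]; exact hw2), if_neg (by rw [h2]; exact hw2)]
    · right
      refine ⟨?_, h1⟩
      by_contra h2
      exact hu' (by rw [if_neg (Ne.symm h1), if_neg (fun h => h2 h.symm)])
  have hYpos : 1 ≤ Y.card := by
    obtain ⟨B, hB⟩ := Finset.card_pos.1 hSpos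
    exact Finset.card_pos.2 ⟨_, Finset.mem_image_of_mem _ hB⟩
  -- test vector
  set s : ℝ := 5 - Y.card with hs
  set f : Fin 6 → ℝ := fun j => if j = x then s else if j ∈ Y then 0 else -1 with hf
  have hYcard : ∀ g : ℝ, ∑ j, (if j = x then s else if j ∈ Y then 0 else g) =
      s + (5 - Y.card) * g := by
    intro g
    have hxe : ∑ j, (if j = x then s else if j ∈ Y then 0 else g) =
        ∑ j, ((if j = x then s else 0) + ((1 - (if j = x then 1 else 0)) -
          (if j ∈ Y then 1 else 0)) * g) := by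
      refine Finset.sum_congr rfl fun j _ => ?_
      by_cases h1 : j = x
      · subst h1
        simp [hYx]
      · by_cases h2 : j ∈ Y
        · simp [h1, h2]
        · simp [h1, h2]
    have e1 : ∑ j : Fin 6, (if j = x then s else 0) = s := by simp
    have e2 : ∑ j : Fin 6, (1 : ℝ) = 6 := by simp
    have e3 : ∑ j : Fin 6, (if j = x then (1 : ℝ) else 0) = 1 := by simp
    have e4 : ∑ j : Fin 6, (if j ∈ Y then (1 : ℝ) else 0) = Y.card := by simp
    rw [hxe, Finset.sum_add_distrib, ← Finset.sum_mul, Finset.sum_sub_distrib,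
      Finset.sum_sub_distrib, e1, e2, e3, e4]
    ring
  have hsum : ∑ j, f j = 0 := by
    rw [hf, hYcard]; rw [hs]; ring
  have hnorm : f ⬝ᵥ f = s ^ 2 + s := by
    have : f ⬝ᵥ f = ∑ j, (if j = x then s ^ 2 else if j ∈ Y then 0 else 1) := by
      unfold dotProduct
      refine Finset.sum_congr rfl fun j _ => ?_
      simp only [hf]
      split_ifs <;> ring
    rw [this]
    have hxe : ∑ j, (if j = x then s ^ 2 else if j ∈ Y then (0 : ℝ) else 1) =
        ∑ j, ((if j = x then s ^ 2 else 0) + ((1 - (if j = x then 1 else 0)) -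
          (if j ∈ Y then 1 else 0))) := by
      refine Finset.sum_congr rfl fun j _ => ?_
      by_cases h1 : j = x
      · subst h1
        simp [hYx]
      · by_cases h2 : j ∈ Y
        · simp [h1, h2]
        · simp [h1, h2]
    rw [hxe, Finset.sum_add_distrib, Finset.sum_sub_distrib, Finset.sum_sub_distrib]
    simp
    rw [hs]; ring
  have hYle : Y.card ≤ 2 := le_trans hYS hx
  have hspos : 0 < s := by
    have : (Y.card : ℝ) ≤ 2 := by exact_mod_cast hYle
    rw [hs]; linarith
  have hf0 : f ≠ 0 := by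
    intro h
    have := congrFun h x
    simp only [hf, if_true, Pi.zero_apply] at this
    linarith
  refine ev_upper (by norm_num) hn hc hsum hf0 ?_
  rw [quad_two hpq, hnorm, one_mul]
  have hB : ∀ B, (f (p B) - f (q B)) ^ 2 / 2 ≤
      if B ∈ S x then s ^ 2 / 2 else 1 / 2 := by
    intro B
    by_cases hBS : B ∈ S x
    · rw [if_pos hBS]
      have hY' : (if p B = x then q B else p B) ∈ Y := Finset.mem_image_of_mem _ hBS
      simp only [S, Finset.mem_filter, Finset.mem_univ, true_and] at hBS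
      rcases hBS with ⟨h1, h2⟩ | ⟨h1, h2⟩
      · rw [if_pos h1] at hY'
        simp only [hf, if_pos h1, if_neg h2, if_pos hY']
        linarith [sq_nonneg s]
      · rw [if_neg h2] at hY'
        simp only [hf, if_pos h1, if_neg h2, if_pos hY']
        linarith [sq_nonneg s]
    · rw [if_neg hBS]
      simp only [S, Finset.mem_filter, Finset.mem_univ, true_and, not_or, not_and, not_not] at hBS
      obtain ⟨h1, h2⟩ := hBS
      simp only [hf]
      by_cases hp : p B = x
      · rw [if_pos hp, if_pos (h1 hp)]; norm_num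
      · have hq : q B ≠ x := fun h => hp (h2 h)
        rw [if_neg hp, if_neg hq]
        split_ifs <;> norm_num
  refine le_trans (Finset.sum_le_sum fun B _ => hB B) ?_
  rw [Finset.sum_ite, Finset.sum_const, Finset.sum_const]
  have hc1 : (Finset.univ.filter fun B => B ∈ S x).card = (S x).card := by
    congr 1; ext B; simp
  have hc2 : (Finset.univ.filter fun B => ¬ B ∈ S x).card = 8 - (S x).card := by
    have := Finset.card_filter_add_card_filter_not (s := (Finset.univ : Finset (Fin 8)))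
      (fun B => B ∈ S x)
    simp only [Finset.card_univ, Fintype.card_fin] at this
    omega
  rw [hc1, hc2]
  simp only [nsmul_eq_mul]
  rw [Nat.cast_sub (by omega)]
  have hSc : (S x).card = 1 ∨ (S x).card = 2 := by omega
  have hYc : Y.card = 1 ∨ Y.card = 2 := by omega
  rcases hSc with h1 | h1 <;> rcases hYc with h2 | h2 <;> rw [hs, h1, h2] <;>
    first | (norm_num; done) | (exfalso; omega)

end Pool.Agent.V11204.PV
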