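import Mathlib

/-!
# Exhaustive search for 5-regular triangle-free graphs on 14 vertices with few 4-cycles
-/

namespace Pool.Agent.V11204.PatSearch

/-- popcount table for numbers below 256 -/
def POPT : ℕ := 95125173855764218123276304889944061997689682402263585766959741291920687686033329201817409157123347502415384089435969498586180241031507595463600295898153685276653211633572815512294064538494957912327413386667662218713394765509704508661031522276467630197481635010039778342554499416459730172574551513689147646224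
def pop (m : ℕ) : ℕ := (POPT >>> (4 * m)) % 16

def L4 : List ℕ := [15, 23, 27, 29, 30, 39, 43, 45, 46, 51, 53, 54, 57, 58, 60, 71, 75, 77, 78, 83, 85, 86, 89, 90, 92, 99, 101, 102, 105, 106, 108, 113, 114, 116, 120, 135, 139, 141, 142, 147, 149, 150, 153, 154, 156, 163, 165, 166, 169, 170, 172, 177, 178, 180, 184, 195, 197, 198, 201, 202, 204, 209, 210, 212, 216, 225, 226, 228, 232, 240]
/-- masks with a given number of bits -/
def LP : ℕ → List ℕ
  | 0 => [0]
  | 1 => [1, 2, 4, 8, 16, 32, 64, 128]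
  | 2 => [3, 5, 6, 9, 10, 12, 17, 18, 20, 24, 33, 34, 36, 40, 48, 65, 66, 68, 72, 80, 96, 129, 130, 132, 136, 144, 160, 192]
  | 3 => [7, 11, 13, 14, 19, 21, 22, 25, 26, 28, 35, 37, 38, 41, 42, 44, 49, 50, 52, 56, 67, 69, 70, 73, 74, 76, 81, 82, 84, 88, 97, 98, 100, 104, 112, 131, 133, 134, 137, 138, 140, 145, 146, 148, 152, 161, 162, 164, 168, 176, 193, 194, 196, 200, 208, 224]
  | 4 => [15, 23, 27, 29, 30, 39, 43, 45, 46, 51, 53, 54, 57, 58, 60, 71, 75, 77, 78, 83, 85, 86, 89, 90, 92, 99, 101, 102, 105, 106, 108, 113, 114, 116, 120, 135, 139, 141, 142, 147, 149, 150, 153, 154, 156, 163, 165, 166, 169, 170, 172, 177, 178, 180, 184, 195, 197, 198, 201, 202, 204, 209, 210, 212, 216, 225, 226, 228, 232, 240]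
  | 5 => [31, 47, 55, 59, 61, 62, 79, 87, 91, 93, 94, 103, 107, 109, 110, 115, 117, 118, 121, 122, 124, 143, 151, 155, 157, 158, 167, 171, 173, 174, 179, 181, 182, 185, 186, 188, 199, 203, 205, 206, 211, 213, 214, 217, 218, 220, 227, 229, 230, 233, 234, 236, 241, 242, 244, 248]
  | _ => []

/-- the bits of `m` are nondecreasing within the cells given by `E` -/
def sc (E m : ℕ) : Bool := ((m &&& ((m >>> 1) ^^^ 127)) &&& E) == 0
def nE (E m : ℕ) : ℕ := E &&& ((m ^^^ (m >>> 1)) ^^^ 127)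

/-- forbidden neighbours of column `y` -/
def forb (r1 r2 r3 r4 r5 y : ℕ) : ℕ :=
  (1 <<< y) ||| (bif r1.testBit y then r1 else 0) ||| (bif r2.testBit y then r2 else 0) |||
    (bif r3.testBit y then r3 else 0) ||| (bif r4.testBit y then r4 else 0) |||
    (bif r5.testBit y then r5 else 0)

def dg (r1 r2 r3 r4 r5 y : ℕ) : ℕ :=
  (bif r1.testBit y then 1 else 0) + (bif r2.testBit y then 1 else 0) +
    (bif r3.testBit y then 1 else 0) + (bif r4.testBit y then 1 else 0) +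
    (bif r5.testBit y then 1 else 0)

/-- enough room for the neighbours of column `y` -/
def room (r1 r2 r3 r4 r5 y : ℕ) : Bool :=
  Nat.ble 5 (dg r1 r2 r3 r4 r5 y + pop (forb r1 r2 r3 r4 r5 y ^^^ 255))

def cand (r1 r2 r3 r4 r5 y : ℕ) : List ℕ :=
  (LP (5 - dg r1 r2 r3 r4 r5 y)).filter fun m => (m &&& forb r1 r2 r3 r4 r5 y) == 0

/-- compatibility of the neighbourhood masks `a` of `z` and `m` of `y` -/
def cpt (z a y m : ℕ) : Bool :=
  (m.testBit z == a.testBit y) && (!(m.testBit z) || ((m &&& a) == 0))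

/-- image of a 14-bit mask under the map given by a packed permutation `p` (4 bits each) -/
def img (p m : ℕ) : ℕ :=
  (bif m.testBit 0 then 1 <<< (p % 16) else 0) |||
  (bif m.testBit 1 then 1 <<< ((p >>> 4) % 16) else 0) |||
  (bif m.testBit 2 then 1 <<< ((p >>> 8) % 16) else 0) |||
  (bif m.testBit 3 then 1 <<< ((p >>> 12) % 16) else 0) |||
  (bif m.testBit 4 then 1 <<< ((p >>> 16) % 16) else 0) |||
  (bif m.testBit 5 then 1 <<< ((p >>> 20) % 16) else 0) |||
  (bif m.testBit 6 then 1 <<< ((p >>> 24) % 16) else 0) |||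
  (bif m.testBit 7 then 1 <<< ((p >>> 28) % 16) else 0) |||
  (bif m.testBit 8 then 1 <<< ((p >>> 32) % 16) else 0) |||
  (bif m.testBit 9 then 1 <<< ((p >>> 36) % 16) else 0) |||
  (bif m.testBit 10 then 1 <<< ((p >>> 40) % 16) else 0) |||
  (bif m.testBit 11 then 1 <<< ((p >>> 44) % 16) else 0) |||
  (bif m.testBit 12 then 1 <<< ((p >>> 48) % 16) else 0) |||
  (bif m.testBit 13 then 1 <<< ((p >>> 52) % 16) else 0)

/-- row `i` of the packed graph `G` (14 bits per row) -/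
def row (G i : ℕ) : ℕ := (G >>> (14 * i)) % 16384

def codeRow (r1 r2 r3 r4 r5 y q : ℕ) : ℕ :=
  (bif r1.testBit y then 2 else 0) + (bif r2.testBit y then 4 else 0) +
    (bif r3.testBit y then 8 else 0) + (bif r4.testBit y then 16 else 0) +
    (bif r5.testBit y then 32 else 0) + (q <<< 6)

def rowIs (G p i m : ℕ) : Bool := img p m == row G ((p >>> (4 * i)) % 16)

def isoAt (r1 r2 r3 r4 r5 q0 q1 q2 q3 q4 q5 q6 q7 : ℕ) (gp : ℕ × ℕ) : Bool :=
  rowIs gp.1 gp.2 6 (codeRow r1 r2 r3 r4 r5 0 q0) &&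
  rowIs gp.1 gp.2 7 (codeRow r1 r2 r3 r4 r5 1 q1) &&
  rowIs gp.1 gp.2 8 (codeRow r1 r2 r3 r4 r5 2 q2) &&
  rowIs gp.1 gp.2 9 (codeRow r1 r2 r3 r4 r5 3 q3) &&
  rowIs gp.1 gp.2 10 (codeRow r1 r2 r3 r4 r5 4 q4) &&
  rowIs gp.1 gp.2 11 (codeRow r1 r2 r3 r4 r5 5 q5) &&
  rowIs gp.1 gp.2 12 (codeRow r1 r2 r3 r4 r5 6 q6) &&
  rowIs gp.1 gp.2 13 (codeRow r1 r2 r3 r4 r5 7 q7) &&
  rowIs gp.1 gp.2 0 62 &&
  rowIs gp.1 gp.2 1 (1 + (r1 <<< 6)) && rowIs gp.1 gp.2 2 (1 + (r2 <<< 6)) &&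
  rowIs gp.1 gp.2 3 (1 + (r3 <<< 6)) && rowIs gp.1 gp.2 4 (1 + (r4 <<< 6)) &&
  rowIs gp.1 gp.2 5 (1 + (r5 <<< 6))

/-- packed adjacency rows, closed walk numbers (70, 0, 1190, 960, 24790) -/
def G0 : ℕ := 1483546247746269298021957008398298521428667561733487870014
/-- packed adjacency rows, closed walk numbers (70, 0, 1190, 980, 24514) -/
def G1 : ℕ := 747948377900264817662505991935803038348785344229408784446
/-- packed adjacency rows, closed walk numbers (70, 0, 1206, 880, 25198) -/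
def G2 : ℕ := 2660550697905915031982748177897742352967374916237593165886

/-- isomorphisms for the leaves of the search -/
def isos : List (ℕ × ℕ) := [(G0, 62129658859368976),
  (G0, 62113166184952336),
  (G2, 62129658859368976),
  (G2, 61865776068702736),
  (G2, 57907534208709136),
  (G2, 53421526767383056),
  (G2, 57379768627376656),
  (G2, 53157643976716816),
  (G0, 62129658858385936),
  (G0, 62113166183969296),
  (G2, 42914886848954656),
  (G2, 42898394174538016),
  (G2, 42651004058288416),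
  (G2, 42370628593205536),
  (G2, 42618018709455136),
  (G2, 42354135918788896),
  (G1, 62129658859368976),
  (G1, 62129658858385936),
  (G2, 42914886850920736),
  (G2, 42898394176504096),
  (G2, 42651004060254496),
  (G2, 42370628595171616),
  (G2, 42618018711421216),
  (G2, 42354135920754976),
  (G0, 62129658859307536),
  (G0, 62113166184890896),
  (G1, 62129658859307536),
  (G1, 62129658857341456),
  (G0, 62129658857341456),
  (G0, 62113166182924816),
  (G2, 62129658859307536),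
  (G2, 61865776068641296),
  (G2, 57907534208647696),
  (G2, 53421526767321616),
  (G2, 57379768627315216),
  (G2, 53157643976655376),
  (G1, 62129658858263056),
  (G1, 62129658857280016),
  (G2, 62129658857341456),
  (G2, 61865776066675216),
  (G2, 57907534206681616),
  (G2, 53421526765355536),
  (G2, 57379768625349136),
  (G2, 53157643974689296),
  (G0, 62129658858263056),
  (G0, 62113166183846416),
  (G2, 42914886850982176),
  (G2, 42898394176565536),
  (G2, 42651004060315936),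
  (G2, 42370628595233056),
  (G2, 42618018711482656),
  (G2, 42354135920816416),
  (G0, 62129658857280016),
  (G0, 62113166182863376),
  (G0, 34199558824844326),
  (G0, 34199558831725606),
  (G0, 34199558825028646),
  (G0, 34199558834859046),
  (G0, 34199558832340006),
  (G0, 34199558835289126)]

/-- search over the neighbourhoods inside the second neighbourhood -/
def qsearch (r1 r2 r3 r4 r5 : ℕ) : Bool :=
  (cand r1 r2 r3 r4 r5 0).all fun q0 =>
  (cand r1 r2 r3 r4 r5 1).all fun q1 => !(cpt 0 q0 1 q1) ||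
  (cand r1 r2 r3 r4 r5 2).all fun q2 => !(cpt 0 q0 2 q2 && cpt 1 q1 2 q2) ||
  (cand r1 r2 r3 r4 r5 3).all fun q3 => !(cpt 0 q0 3 q3 && cpt 1 q1 3 q3 && cpt 2 q2 3 q3) ||
  (cand r1 r2 r3 r4 r5 4).all fun q4 =>
    !(cpt 0 q0 4 q4 && cpt 1 q1 4 q4 && cpt 2 q2 4 q4 && cpt 3 q3 4 q4) ||
  (cand r1 r2 r3 r4 r5 5).all fun q5 =>
    !(cpt 0 q0 5 q5 && cpt 1 q1 5 q5 && cpt 2 q2 5 q5 && cpt 3 q3 5 q5 && cpt 4 q4 5 q5) ||
  (cand r1 r2 r3 r4 r5 6).all fun q6 =>
    !(cpt 0 q0 6 q6 && cpt 1 q1 6 q6 && cpt 2 q2 6 q6 && cpt 3 q3 6 q6 && cpt 4 q4 6 q6 &&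
      cpt 5 q5 6 q6) ||
  (cand r1 r2 r3 r4 r5 7).all fun q7 =>
    !(cpt 0 q0 7 q7 && cpt 1 q1 7 q7 && cpt 2 q2 7 q7 && cpt 3 q3 7 q7 && cpt 4 q4 7 q7 &&
      cpt 5 q5 7 q7 && cpt 6 q6 7 q7) ||
  isos.any (isoAt r1 r2 r3 r4 r5 q0 q1 q2 q3 q4 q5 q6 q7)

def rooms (r1 r2 r3 r4 r5 : ℕ) : Bool :=
  room r1 r2 r3 r4 r5 0 && room r1 r2 r3 r4 r5 7 && room r1 r2 r3 r4 r5 1 &&
  room r1 r2 r3 r4 r5 6 && room r1 r2 r3 r4 r5 2 && room r1 r2 r3 r4 r5 5 &&
  room r1 r2 r3 r4 r5 3 && room r1 r2 r3 r4 r5 4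

/-- the whole search: `r1 = 240` -/
def search : Bool :=
  L4.all fun r2 => !(sc 119 r2 && Nat.ble (pop (240 &&& r2)) 2) ||
  L4.all fun r3 => !(sc (nE 119 r2) r3 && Nat.ble (pop (240 &&& r2)) (pop (240 &&& r3)) &&
      Nat.ble (pop (240 &&& r2)) (pop (r2 &&& r3))) ||
  L4.all fun r4 => !(sc (nE (nE 119 r2) r3) r4 &&
      Nat.ble (pop (240 &&& r2)) (pop (240 &&& r4)) &&
      Nat.ble (pop (240 &&& r2)) (pop (r2 &&& r4)) &&
      Nat.ble (pop (240 &&& r2)) (pop (r3 &&& r4)) &&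
      Nat.ble (pop (240 &&& r2) + pop (240 &&& r3) + pop (r2 &&& r3) + pop (240 &&& r4) +
        pop (r2 &&& r4) + pop (r3 &&& r4)) 20) ||
  L4.all fun r5 => !(sc (nE (nE (nE 119 r2) r3) r4) r5 &&
      Nat.ble (pop (240 &&& r2)) (pop (240 &&& r5)) &&
      Nat.ble (pop (240 &&& r2)) (pop (r2 &&& r5)) &&
      Nat.ble (pop (240 &&& r2)) (pop (r3 &&& r5)) &&
      Nat.ble (pop (240 &&& r2)) (pop (r4 &&& r5)) &&
      Nat.ble (pop (240 &&& r2) + pop (240 &&& r3) + pop (r2 &&& r3) + pop (240 &&& r4) +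
        pop (r2 &&& r4) + pop (r3 &&& r4) + pop (240 &&& r5) + pop (r2 &&& r5) +
        pop (r3 &&& r5) + pop (r4 &&& r5)) 20) ||
    !(rooms 240 r2 r3 r4 r5) || qsearch 240 r2 r3 r4 r5

theorem search_true : search = true := by decide +kernel

end Pool.Agent.V11204.PatSearch
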