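import Mathlib
import Pool.Agent.V11204.PatSearch

/-!
# Soundness of the search: classification of the 5-regular triangle-free graphs on 14 vertices
with few 4-cycles
-/

namespace Pool.Agent.V11204.PatSound
open PatSearch

/-- mask of a Boolean function -/
def mk (f : Fin 8 → Bool) : ℕ := Nat.ofBits f

def cnt (f : Fin 8 → Bool) : ℕ := (Finset.univ.filter fun y => f y = true).card

lemma mk_lt (f : Fin 8 → Bool) : mk f < 256 := Nat.ofBits_lt_two_pow f

lemma mk_testBit (f : Fin 8 → Bool) (y : ℕ) (hy : y < 8) : (mk f).testBit y = f ⟨y, hy⟩ :=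
  Nat.testBit_ofBits_lt f y hy

lemma mk_testBit' (f : Fin 8 → Bool) (y : Fin 8) : (mk f).testBit y = f y :=
  Nat.testBit_ofBits_lt f y y.2

lemma mk_testBit_ge (f : Fin 8 → Bool) {t : ℕ} (ht : 8 ≤ t) : (mk f).testBit t = false :=
  Nat.testBit_ofBits_ge f t ht

lemma mk_and (f g : Fin 8 → Bool) : mk f &&& mk g = mk fun y => f y && g y := by
  apply Nat.eq_of_testBit_eq
  intro t
  rw [Nat.testBit_and]
  rcases lt_or_ge t 8 with ht | ht
  · rw [mk_testBit _ t ht, mk_testBit _ t ht, mk_testBit _ t ht]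
  · rw [mk_testBit_ge _ ht, mk_testBit_ge _ ht, mk_testBit_ge _ ht]; rfl

lemma pop_mk (f : Fin 8 → Bool) : pop (mk f) = cnt f := by
  revert f; decide +kernel

lemma mem_L4 : ∀ m < 256, pop m = 4 → m ∈ L4 := by decide +kernel

lemma mem_LP : ∀ m < 256, pop m ≤ 5 → m ∈ LP (pop m) := by decide +kernel

lemma pop_compl : ∀ q < 256, ∀ f < 256, q &&& f = 0 → pop q ≤ pop (f ^^^ 255) := by
  decide +kernel

lemma mono_eq_240 : ∀ f : Fin 8 → Bool, (∀ y : Fin 7, f y.castSucc = true → f y.succ = true) →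
    cnt f = 4 → mk f = 240 := by decide +kernel

lemma testBit_127 (t : ℕ) : (127 : ℕ).testBit t = decide (t < 7) := by
  rw [show 127 = 2 ^ 7 - 1 from rfl, Nat.testBit_two_pow_sub_one]

lemma sc_of {E m : ℕ} (hE : ∀ t, 7 ≤ t → E.testBit t = false)
    (h : ∀ t < 7, E.testBit t = true → m.testBit t = true → m.testBit (t + 1) = true) :
    sc E m = true := by
  unfold sc
  rw [beq_iff_eq]
  apply Nat.eq_of_testBit_eq
  intro t
  rw [Nat.testBit_and, Nat.testBit_and, Nat.testBit_xor, Nat.testBit_shiftRight, testBit_127,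
    Nat.zero_testBit, add_comm 1 t]
  rcases lt_or_ge t 7 with ht | ht
  · have := h t ht
    rw [decide_eq_true ht]
    cases h1 : E.testBit t <;> cases h2 : m.testBit t <;> cases h3 : m.testBit (t + 1) <;>
      simp_all
  · rw [hE t ht, Bool.and_false]

lemma nE_testBit (E m t : ℕ) : (nE E m).testBit t =
    (E.testBit t && (xor (xor (m.testBit t) (m.testBit (t + 1))) (decide (t < 7)))) := by
  unfold nE
  rw [Nat.testBit_and, Nat.testBit_xor, Nat.testBit_xor, Nat.testBit_shiftRight, testBit_127,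
    add_comm 1 t]

lemma nE_ge {E m : ℕ} (hE : ∀ t, 7 ≤ t → E.testBit t = false) :
    ∀ t, 7 ≤ t → (nE E m).testBit t = false := by
  intro t ht
  rw [nE_testBit, hE t ht, Bool.false_and]

/-! ### the isomorphism tables -/

def P (p j : ℕ) : ℕ := (p >>> (4 * j)) % 16

def okIso (gp : ℕ × ℕ) : Bool :=
  (gp.1 == G0 || gp.1 == G1 || gp.1 == G2) &&
  (List.range 14).all (fun i => Nat.blt (P gp.2 i) 14 &&
    (List.range 14).all (fun j => i == j || !(P gp.2 i == P gp.2 j)))

lemma isos_ok : isos.all okIso = true := by decide +kernel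

lemma img_testBit (p m t : ℕ) : (img p m).testBit t = true ↔
    ∃ j < 14, m.testBit j = true ∧ P p j = t := by
  have hbit : ∀ (b : Bool) (k : ℕ), (bif b then 1 <<< k else 0).testBit t = true ↔
      b = true ∧ k = t := by
    intro b k
    cases b
    · simp
    · simp [Nat.one_shiftLeft, Nat.testBit_two_pow]
  unfold img
  simp only [Nat.testBit_or, Bool.or_eq_true, hbit]
  constructor
  · rintro (((((((((((((h | h) | h) | h) | h) | h) | h) | h) | h) | h) | h) | h) | h) | h)
    · exact ⟨0, by norm_num, h.1, by simpa [P] using h.2⟩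
    · exact ⟨1, by norm_num, h.1, h.2⟩
    · exact ⟨2, by norm_num, h.1, h.2⟩
    · exact ⟨3, by norm_num, h.1, h.2⟩
    · exact ⟨4, by norm_num, h.1, h.2⟩
    · exact ⟨5, by norm_num, h.1, h.2⟩
    · exact ⟨6, by norm_num, h.1, h.2⟩
    · exact ⟨7, by norm_num, h.1, h.2⟩
    · exact ⟨8, by norm_num, h.1, h.2⟩
    · exact ⟨9, by norm_num, h.1, h.2⟩
    · exact ⟨10, by norm_num, h.1, h.2⟩
    · exact ⟨11, by norm_num, h.1, h.2⟩
    · exact ⟨12, by norm_num, h.1, h.2⟩
    · exact ⟨13, by norm_num, h.1, h.2⟩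
  · rintro ⟨j, hj, h1, h2⟩
    unfold P at h2
    interval_cases j <;> simp_all

end Pool.Agent.V11204.PatSound
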