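import Mathlib
import Pool.Agent.V11204.PatSound

/-!
# Labelling of a 5-regular triangle-free graph on 14 vertices from a root with few 4-cycles
-/

namespace Pool.Agent.V11204.PatClass
open PatSearch PatSound

/-- graph conditions -/
structure Gr (a : Fin 14 → Fin 14 → Bool) : Prop where
  symm : ∀ i j, a i j = a j i
  irr : ∀ i, a i i = false
  tri : ∀ i j k, a i j = true → a j k = true → a i k = false
  deg : ∀ w, ∑ j, (a w j).toNat = 5

/-- the labelling conditions -/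
structure Lab (a : Fin 14 → Fin 14 → Bool) (x : Fin 14) (f : Fin 5 → Fin 14)
    (g : Fin 8 → Fin 14) : Prop where
  fx : ∀ i, a x (f i) = true
  gx : ∀ y, a x (g y) = false
  surj : ∀ w, w = x ∨ (∃ i, f i = w) ∨ (∃ y, g y = w)

variable {a : Fin 14 → Fin 14 → Bool} {x : Fin 14} {f : Fin 5 → Fin 14} {g : Fin 8 → Fin 14}

def es (x : Fin 14) (f : Fin 5 → Fin 14) (g : Fin 8 → Fin 14) :
    Unit ⊕ (Fin 5 ⊕ Fin 8) → Fin 14 := Sum.elim (fun _ => x) (Sum.elim f g)

lemma Lab.bij (h : Lab a x f g) : Function.Bijective (es x f g) := by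
  rw [Fintype.bijective_iff_surjective_and_card]
  refine ⟨?_, by simp⟩
  intro w
  rcases h.surj w with h1 | ⟨i, hi⟩ | ⟨y, hy⟩
  · exact ⟨Sum.inl (), h1.symm⟩
  · exact ⟨Sum.inr (Sum.inl i), hi⟩
  · exact ⟨Sum.inr (Sum.inr y), hy⟩

lemma Lab.sum_split (h : Lab a x f g) (F : Fin 14 → ℕ) :
    ∑ w, F w = F x + (∑ i, F (f i) + ∑ y, F (g y)) := by
  rw [← h.bij.sum_comp F, Fintype.sum_sum_type, Fintype.sum_sum_type]
  simp [es]

lemma cnt_eq (F : Fin 8 → Bool) : cnt F = ∑ y, (F y).toNat := by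
  unfold cnt
  rw [Finset.card_filter]
  refine Finset.sum_congr rfl fun y _ => ?_
  cases F y <;> simp

/-- rows -/
def R (a : Fin 14 → Fin 14 → Bool) (f : Fin 5 → Fin 14) (g : Fin 8 → Fin 14) (i : Fin 5) :
    Fin 8 → Bool := fun y => a (f i) (g y)
def Q (a : Fin 14 → Fin 14 → Bool) (g : Fin 8 → Fin 14) (y : Fin 8) :
    Fin 8 → Bool := fun z => a (g y) (g z)

lemma cnt_R (hG : Gr a) (h : Lab a x f g) (i : Fin 5) : cnt (R a f g i) = 4 := by
  have h1 := h.sum_split fun w => (a (f i) w).toNat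
  rw [hG.deg] at h1
  have h2 : a (f i) x = true := by rw [hG.symm]; exact h.fx i
  have h3 : ∑ j, (a (f i) (f j)).toNat = 0 := by
    refine Finset.sum_eq_zero fun j _ => ?_
    rw [hG.tri (f i) x (f j) h2 (h.fx j)]; rfl
  rw [cnt_eq]
  unfold R
  rw [h2, h3] at h1
  simp only [Bool.toNat_true] at h1
  omega

lemma dg_add (hG : Gr a) (h : Lab a x f g) (y : Fin 8) :
    ∑ i, (a (f i) (g y)).toNat + cnt (Q a g y) = 5 := by
  have h1 := h.sum_split fun w => (a (g y) w).toNat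
  rw [hG.deg] at h1
  have h2 : a (g y) x = false := by rw [hG.symm]; exact h.gx y
  rw [cnt_eq]
  unfold Q
  rw [h2] at h1
  have h3 : ∑ i, (a (f i) (g y)).toNat = ∑ i, (a (g y) (f i)).toNat :=
    Finset.sum_congr rfl fun i _ => by rw [hG.symm]
  rw [h3]
  simp only [Bool.toNat_false] at h1
  omega

def codeg (a : Fin 14 → Fin 14 → Bool) (u v : Fin 14) : ℕ := ∑ w, (a u w && a w v).toNat

def C (a : Fin 14 → Fin 14 → Bool) (f : Fin 5 → Fin 14) (g : Fin 8 → Fin 14) (i j : Fin 5) : ℕ :=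
  cnt fun y => R a f g i y && R a f g j y

lemma sq_bool : ∀ b0 b1 b2 b3 b4 : Bool,
    (b0.toNat + b1.toNat + b2.toNat + b3.toNat + b4.toNat) ^ 2 =
      b0.toNat + b1.toNat + b2.toNat + b3.toNat + b4.toNat +
      2 * ((b0 && b1).toNat + (b0 && b2).toNat + (b1 && b2).toNat + (b0 && b3).toNat +
        (b1 && b3).toNat + (b2 && b3).toNat + (b0 && b4).toNat + (b1 && b4).toNat +
        (b2 && b4).toNat + (b3 && b4).toNat) := by decide

lemma sum_C (hG : Gr a) (h : Lab a x f g) (hx : ∑ w, codeg a x w ^ 2 ≤ 85) :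
    C a f g 0 1 + C a f g 0 2 + C a f g 1 2 + C a f g 0 3 + C a f g 1 3 + C a f g 2 3 +
      C a f g 0 4 + C a f g 1 4 + C a f g 2 4 + C a f g 3 4 ≤ 20 := by
  have h1 := h.sum_split fun w => codeg a x w ^ 2
  have hxx : codeg a x x = 5 := by
    rw [← hG.deg x]
    unfold codeg
    refine Finset.sum_congr rfl fun w _ => ?_
    rw [hG.symm w x, Bool.and_self]
  have hg : ∀ y, codeg a x (g y) = ∑ i, (R a f g i y).toNat := by
    intro y
    unfold codeg
    rw [h.sum_split fun w => (a x w && a w (g y)).toNat]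
    have e1 : ∑ z, (a x (g z) && a (g z) (g y)).toNat = 0 := by
      refine Finset.sum_eq_zero fun z _ => ?_
      rw [h.gx z]; rfl
    have e2 : ∑ i, (a x (f i) && a (f i) (g y)).toNat = ∑ i, (R a f g i y).toNat := by
      refine Finset.sum_congr rfl fun i _ => ?_
      rw [h.fx i]; rfl
    rw [e1, e2, hG.irr x]
    simp
  have h3 : ∑ y, codeg a x (g y) ^ 2 ≤ 60 := by
    have : 25 + ∑ y, codeg a x (g y) ^ 2 ≤ 85 := by
      refine le_trans ?_ hx
      rw [h1, hxx]
      omega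
    omega
  have h4 : ∑ y, codeg a x (g y) ^ 2 = cnt (R a f g 0) + cnt (R a f g 1) + cnt (R a f g 2) +
      cnt (R a f g 3) + cnt (R a f g 4) + 2 * (C a f g 0 1 + C a f g 0 2 + C a f g 1 2 +
      C a f g 0 3 + C a f g 1 3 + C a f g 2 3 +
      C a f g 0 4 + C a f g 1 4 + C a f g 2 4 + C a f g 3 4) := by
    simp only [C, cnt_eq, ← Finset.sum_add_distrib, Finset.mul_sum]
    refine Finset.sum_congr rfl fun y _ => ?_
    rw [hg y, Fin.sum_univ_five, sq_bool]
  rw [h4, cnt_R hG h, cnt_R hG h, cnt_R hG h, cnt_R hG h, cnt_R hG h] at h3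
  omega

/-! ### existence of a good labelling -/

lemma exists_lab (hG : Gr a) (x : Fin 14) : ∃ f g, Lab a x f g := by
  have hN : (Finset.univ.filter fun w => a x w = true).card = 5 := by
    rw [Finset.card_filter, ← hG.deg x]
    refine Finset.sum_congr rfl fun w _ => ?_
    cases a x w <;> simp
  have hR : (Finset.univ.filter fun w => ¬ (w = x ∨ a x w = true)).card = 8 := by
    have h1 := Finset.card_filter_add_card_filter_not (s := (Finset.univ : Finset (Fin 14)))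
      (fun w => w = x ∨ a x w = true)
    have h2 : (Finset.univ.filter fun w => w = x ∨ a x w = true).card = 6 := by
      rw [Finset.filter_or, Finset.card_union_of_disjoint, hN]
      · rw [Finset.filter_eq' Finset.univ x]; simp
      · rw [Finset.disjoint_filter]
        rintro w _ rfl
        rw [hG.irr]; simp
    rw [h2] at h1
    simp only [Finset.card_univ, Fintype.card_fin] at h1
    omega
  refine ⟨Finset.orderEmbOfFin _ hN, Finset.orderEmbOfFin _ hR, ?_, ?_, ?_⟩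
  · intro i
    have := Finset.orderEmbOfFin_mem _ hN i
    rw [Finset.mem_filter] at this
    exact this.2
  · intro y
    have := Finset.orderEmbOfFin_mem _ hR y
    rw [Finset.mem_filter, not_or] at this
    simpa using this.2.2
  · intro w
    have hf := Finset.range_orderEmbOfFin _ hN
    have hg := Finset.range_orderEmbOfFin _ hR
    by_cases hw : w = x
    · exact Or.inl hw
    · right
      by_cases ha : a x w = true
      · left
        have : w ∈ Set.range (Finset.orderEmbOfFin _ hN) := by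
          rw [hf]; simpa using ha
        exact this
      · right
        have : w ∈ Set.range (Finset.orderEmbOfFin _ hR) := by
          rw [hg, Finset.mem_coe, Finset.mem_filter, not_or]
          exact ⟨Finset.mem_univ _, hw, ha⟩
        exact this

lemma Lab.perm_f (h : Lab a x f g) (σ : Equiv.Perm (Fin 5)) : Lab a x (f ∘ σ) g :=
  ⟨fun i => h.fx _, h.gx, fun w => by
    rcases h.surj w with h1 | ⟨i, hi⟩ | h1
    · exact Or.inl h1
    · exact Or.inr (Or.inl ⟨σ.symm i, by simpa using hi⟩)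
    · exact Or.inr (Or.inr h1)⟩

lemma Lab.perm_g (h : Lab a x f g) (τ : Equiv.Perm (Fin 8)) : Lab a x f (g ∘ τ) :=
  ⟨h.fx, fun i => h.gx _, fun w => by
    rcases h.surj w with h1 | h1 | ⟨i, hi⟩
    · exact Or.inl h1
    · exact Or.inr (Or.inl h1)
    · exact Or.inr (Or.inr ⟨τ.symm i, by simpa using hi⟩)⟩

lemma perm_two : ∀ i j : Fin 5, i ≠ j → ∃ σ : Equiv.Perm (Fin 5), σ 0 = i ∧ σ 1 = j := by
  decide +kernel

lemma C_perm_f (σ : Equiv.Perm (Fin 5)) (i j : Fin 5) :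
    C a (f ∘ σ) g i j = C a f g (σ i) (σ j) := rfl

lemma C_perm_g (τ : Equiv.Perm (Fin 8)) (i j : Fin 5) :
    C a f (g ∘ τ) i j = C a f g i j := by
  unfold C
  rw [cnt_eq, cnt_eq]
  exact Equiv.sum_comp τ fun y => (R a f g i y && R a f g j y).toNat

def code (a : Fin 14 → Fin 14 → Bool) (f : Fin 5 → Fin 14) (g : Fin 8 → Fin 14) (y : Fin 8) : ℕ :=
  16 * (R a f g 0 y).toNat + 8 * (R a f g 1 y).toNat + 4 * (R a f g 2 y).toNat +
    2 * (R a f g 3 y).toNat + (R a f g 4 y).toNat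

theorem exists_good (hG : Gr a) (x : Fin 14) :
    ∃ f g, Lab a x f g ∧ (∀ i j, i ≠ j → C a f g 0 1 ≤ C a f g i j) ∧ Monotone (code a f g) := by
  obtain ⟨f, g, h⟩ := exists_lab hG x
  obtain ⟨p, hp, hmin⟩ := Finset.exists_min_image
    (Finset.univ.filter fun p : Fin 5 × Fin 5 => p.1 ≠ p.2) (fun p => C a f g p.1 p.2)
    ⟨(0, 1), by simp⟩
  obtain ⟨σ, h0, h1⟩ := perm_two p.1 p.2 (Finset.mem_filter.1 hp).2
  let τ := Tuple.sort (code a (f ∘ σ) g)
  refine ⟨f ∘ σ, g ∘ τ, (h.perm_f σ).perm_g τ, ?_, ?_⟩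
  · intro i j hij
    rw [C_perm_g, C_perm_g, C_perm_f, C_perm_f, h0, h1]
    exact hmin (σ i, σ j) (Finset.mem_filter.2 ⟨Finset.mem_univ _, fun h => hij (σ.injective h)⟩)
  · exact Tuple.monotone_sort (code a (f ∘ σ) g)

/-! ### the search conditions -/

lemma stp {p q : Bool} (h : (!p || q) = true) (hp : p = true) : q = true := by
  subst hp; simpa using h

lemma code_step {a0 a1 a2 a3 a4 b0 b1 b2 b3 b4 : Bool}
    (h : 16 * a0.toNat + 8 * a1.toNat + 4 * a2.toNat + 2 * a3.toNat + a4.toNat ≤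
      16 * b0.toNat + 8 * b1.toNat + 4 * b2.toNat + 2 * b3.toNat + b4.toNat) :
    (a0 = true → b0 = true) ∧
    (a0 = b0 → a1 = true → b1 = true) ∧
    (a0 = b0 → a1 = b1 → a2 = true → b2 = true) ∧
    (a0 = b0 → a1 = b1 → a2 = b2 → a3 = true → b3 = true) ∧
    (a0 = b0 → a1 = b1 → a2 = b2 → a3 = b3 → a4 = true → b4 = true) := by
  revert a0 a1 a2 a3 a4 b0 b1 b2 b3 b4
  decide +kernel

def M (a : Fin 14 → Fin 14 → Bool) (f : Fin 5 → Fin 14) (g : Fin 8 → Fin 14) (i : Fin 5) : ℕ :=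
  mk (R a f g i)

def MQ (a : Fin 14 → Fin 14 → Bool) (g : Fin 8 → Fin 14) (y : Fin 8) : ℕ := mk (Q a g y)

lemma M_lt (i : Fin 5) : M a f g i < 256 := mk_lt _
lemma pop_M (hG : Gr a) (h : Lab a x f g) (i : Fin 5) : pop (M a f g i) = 4 := by
  unfold M; rw [pop_mk, cnt_R hG h]
lemma M_mem (hG : Gr a) (h : Lab a x f g) (i : Fin 5) : M a f g i ∈ L4 :=
  mem_L4 _ (M_lt i) (pop_M hG h i)
lemma pop_and (i j : Fin 5) : pop (M a f g i &&& M a f g j) = C a f g i j := by
  unfold M; rw [mk_and, pop_mk]; rfl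
lemma M_bit (i : Fin 5) (y : Fin 8) : (M a f g i).testBit y = a (f i) (g y) := by
  unfold M; rw [mk_testBit']; rfl
lemma MQ_bit (y z : Fin 8) : (MQ a g y).testBit z = a (g y) (g z) := by
  unfold MQ; rw [mk_testBit']; rfl

/-- equality of consecutive bits recorded in `E` -/
def Eok (a : Fin 14 → Fin 14 → Bool) (f : Fin 5 → Fin 14) (g : Fin 8 → Fin 14) (E : ℕ)
    (n : ℕ) : Prop :=
  (∀ t, 7 ≤ t → E.testBit t = false) ∧
  ∀ t : Fin 7, E.testBit t = true → ∀ i : Fin 5, (i : ℕ) < n →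
    R a f g i t.castSucc = R a f g i t.succ

lemma Eok_next {E n : ℕ} (hn : n < 5) (h : Eok a f g E n) :
    Eok a f g (nE E (M a f g ⟨n, hn⟩)) (n + 1) := by
  refine ⟨nE_ge h.1, ?_⟩
  intro t ht i hi
  rw [nE_testBit, Bool.and_eq_true] at ht
  rcases Nat.lt_succ_iff_lt_or_eq.1 hi with hlt | heq
  · exact h.2 t ht.1 i hlt
  · have hi' : i = ⟨n, hn⟩ := Fin.ext heq
    have h2 := ht.2
    rw [decide_eq_true t.2] at h2
    have e1 : (M a f g ⟨n, hn⟩).testBit t = R a f g ⟨n, hn⟩ t.castSucc := by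
      unfold M; exact mk_testBit _ _ (by omega)
    have e2 : (M a f g ⟨n, hn⟩).testBit (t + 1) = R a f g ⟨n, hn⟩ t.succ := by
      unfold M; exact mk_testBit _ _ (by omega)
    rw [e1, e2] at h2
    rw [hi']
    revert h2
    cases R a f g ⟨n, hn⟩ t.castSucc <;> cases R a f g ⟨n, hn⟩ t.succ <;> simp

lemma sc_ok {E : ℕ} {n : ℕ} (hn : n < 5) (hE : Eok a f g E n)
    (hm : ∀ t : Fin 7, (∀ i : Fin 5, (i : ℕ) < n → R a f g i t.castSucc = R a f g i t.succ) →
      R a f g ⟨n, hn⟩ t.castSucc = true → R a f g ⟨n, hn⟩ t.succ = true) :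
    sc E (M a f g ⟨n, hn⟩) = true := by
  refine sc_of hE.1 ?_
  intro t ht h1 h2
  have e1 : (M a f g ⟨n, hn⟩).testBit t = R a f g ⟨n, hn⟩ (⟨t, ht⟩ : Fin 7).castSucc := by
    unfold M; exact mk_testBit _ _ (by omega)
  have e2 : (M a f g ⟨n, hn⟩).testBit (t + 1) = R a f g ⟨n, hn⟩ (⟨t, ht⟩ : Fin 7).succ := by
    unfold M; exact mk_testBit _ _ (by omega)
  rw [e1] at h2
  rw [e2]
  exact hm ⟨t, ht⟩ (hE.2 ⟨t, ht⟩ h1) h2

lemma Eok_zero (h240 : M a f g 0 = 240) : Eok a f g 119 1 := by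
  have : Eok a f g (nE 127 (M a f g ⟨0, by norm_num⟩)) (0 + 1) := by
    apply Eok_next
    refine ⟨fun t ht => ?_, fun t _ i hi => absurd hi (by omega)⟩
    rw [testBit_127]
    simpa using ht
  have e : nE 127 (M a f g ⟨0, by norm_num⟩) = 119 := by
    show nE 127 (M a f g 0) = 119
    rw [h240]; rfl
  rw [e] at this
  exact this

lemma forb_ok (hG : Gr a) (h : Lab a x f g) (y : Fin 8) :
    MQ a g y &&& forb (M a f g 0) (M a f g 1) (M a f g 2) (M a f g 3) (M a f g 4) y = 0 := by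
  have key : ∀ i : Fin 5,
      MQ a g y &&& (bif (M a f g i).testBit y then M a f g i else 0) = 0 := by
    intro i
    rw [M_bit]
    cases hb : a (f i) (g y)
    · simp
    · simp only [cond_true]
      unfold MQ M
      rw [mk_and]
      have : (fun z => Q a g y z && R a f g i z) = fun _ => false := by
        funext z
        unfold Q R
        cases hc : a (g y) (g z)
        · rfl
        · rw [hG.tri _ _ _ hb hc]; rfl
      rw [this]
      decide
  have k0 : MQ a g y &&& (1 <<< (y : ℕ)) = 0 := by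
    apply Nat.eq_of_testBit_eq
    intro t
    rw [Nat.testBit_and, Nat.one_shiftLeft, Nat.testBit_two_pow, Nat.zero_testBit]
    by_cases ht : (y : ℕ) = t
    · subst ht
      rw [MQ_bit, hG.irr]; rfl
    · simp [ht]
  unfold forb
  rw [Nat.and_or_distrib_left, Nat.and_or_distrib_left, Nat.and_or_distrib_left,
    Nat.and_or_distrib_left, Nat.and_or_distrib_left, key, key, key, key, key, k0]
  rfl

lemma dg_ok (hG : Gr a) (h : Lab a x f g) (y : Fin 8) :
    dg (M a f g 0) (M a f g 1) (M a f g 2) (M a f g 3) (M a f g 4) y + pop (MQ a g y) = 5 := by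
  have h1 := dg_add hG h y
  rw [Fin.sum_univ_five] at h1
  unfold dg
  rw [M_bit, M_bit, M_bit, M_bit, M_bit]
  unfold MQ
  rw [pop_mk]
  have : ∀ b : Bool, (bif b then 1 else 0) = b.toNat := by decide
  rw [this, this, this, this, this]
  exact h1

lemma MQ_lt (y : Fin 8) : MQ a g y < 256 := mk_lt _

lemma forb_lt (y : Fin 8) :
    forb (M a f g 0) (M a f g 1) (M a f g 2) (M a f g 3) (M a f g 4) y < 256 := by
  unfold forb
  have key : ∀ i : Fin 5, (bif (M a f g i).testBit y then M a f g i else 0) < 2 ^ 8 := by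
    intro i
    cases (M a f g i).testBit y
    · simp
    · exact M_lt i
  have k0 : (1 <<< (y : ℕ)) < 2 ^ 8 := by
    rw [Nat.one_shiftLeft]
    exact Nat.pow_lt_pow_right (by norm_num) y.2
  exact Nat.or_lt_two_pow (Nat.or_lt_two_pow (Nat.or_lt_two_pow (Nat.or_lt_two_pow
    (Nat.or_lt_two_pow k0 (key 0)) (key 1)) (key 2)) (key 3)) (key 4)

lemma room_ok (hG : Gr a) (h : Lab a x f g) (y : Fin 8) :
    room (M a f g 0) (M a f g 1) (M a f g 2) (M a f g 3) (M a f g 4) y = true := by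
  unfold room
  rw [Nat.ble_eq]
  have h1 := dg_ok hG h y
  have h2 := pop_compl _ (MQ_lt y) _ (forb_lt y) (forb_ok hG h y)
  omega

lemma cand_ok (hG : Gr a) (h : Lab a x f g) (y : Fin 8) :
    MQ a g y ∈ cand (M a f g 0) (M a f g 1) (M a f g 2) (M a f g 3) (M a f g 4) y := by
  unfold cand
  rw [List.mem_filter]
  have h1 := dg_ok hG h y
  refine ⟨?_, by rw [beq_iff_eq]; exact forb_ok hG h y⟩
  have h2 := mem_LP _ (MQ_lt (a := a) (g := g) y) (by omega)
  have h3 : 5 - dg (M a f g 0) (M a f g 1) (M a f g 2) (M a f g 3) (M a f g 4) y =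
      pop (MQ a g y) := by omega
  rw [h3]
  exact h2

lemma cpt_ok (hG : Gr a) (z y : Fin 8) : cpt z (MQ a g z) y (MQ a g y) = true := by
  unfold cpt
  rw [MQ_bit, MQ_bit, hG.symm (g z) (g y), beq_self_eq_true, Bool.true_and]
  cases hb : a (g y) (g z)
  · rfl
  · have : MQ a g y &&& MQ a g z = 0 := by
      unfold MQ
      rw [mk_and]
      have : (fun w => Q a g y w && Q a g z w) = fun _ => false := by
        funext w
        unfold Q
        cases hc : a (g z) (g w)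
        · rw [Bool.and_false]
        · rw [Bool.and_true, Bool.eq_false_iff]
          intro hd
          have h1 := hG.tri (g z) (g w) (g y) hc (by rw [hG.symm]; exact hd)
          rw [hG.symm, hb] at h1
          exact absurd h1 (by simp)
      rw [this]
      decide
    rw [this]; rfl

theorem found (hG : Gr a) (h : Lab a x f g) (hx : ∑ w, codeg a x w ^ 2 ≤ 85)
    (hmin : ∀ i j, i ≠ j → C a f g 0 1 ≤ C a f g i j) (hmono : Monotone (code a f g)) :
    ∃ gp ∈ isos, isoAt (M a f g 0) (M a f g 1) (M a f g 2) (M a f g 3) (M a f g 4)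
      (MQ a g 0) (MQ a g 1) (MQ a g 2) (MQ a g 3) (MQ a g 4) (MQ a g 5) (MQ a g 6) (MQ a g 7)
      gp = true := by
  have hsum := sum_C hG h hx
  have hcs : ∀ t : Fin 7, _ := fun t => code_step (hmono (Fin.castSucc_le_succ t))
  have h240 : M a f g 0 = 240 := by
    refine mono_eq_240 _ (fun t ht => (hcs t).1 ht) (cnt_R hG h 0)
  have m01 := hmin 0 1 (by decide)
  have m02 := hmin 0 2 (by decide)
  have m12 := hmin 1 2 (by decide)
  have m03 := hmin 0 3 (by decide)
  have m13 := hmin 1 3 (by decide)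
  have m23 := hmin 2 3 (by decide)
  have m04 := hmin 0 4 (by decide)
  have m14 := hmin 1 4 (by decide)
  have m24 := hmin 2 4 (by decide)
  have m34 := hmin 3 4 (by decide)
  have E1 := Eok_zero (a := a) (f := f) (g := g) h240
  have E2 := Eok_next (by norm_num) E1
  have E3 := Eok_next (by norm_num) E2
  have E4 := Eok_next (by norm_num) E3
  have s1 := sc_ok (by norm_num) E1 fun t ht h1 => (hcs t).2.1 (ht 0 (by norm_num)) h1
  have s2 := sc_ok (by norm_num) E2 fun t ht h1 => (hcs t).2.2.1 (ht 0 (by norm_num))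
    (ht 1 (by norm_num)) h1
  have s3 := sc_ok (by norm_num) E3 fun t ht h1 => (hcs t).2.2.2.1 (ht 0 (by norm_num))
    (ht 1 (by norm_num)) (ht 2 (by norm_num)) h1
  have s4 := sc_ok (by norm_num) E4 fun t ht h1 => (hcs t).2.2.2.2 (ht 0 (by norm_num))
    (ht 1 (by norm_num)) (ht 2 (by norm_num)) (ht 3 (by norm_num)) h1
  have p01 := pop_and (a := a) (f := f) (g := g) 0 1
  have p02 := pop_and (a := a) (f := f) (g := g) 0 2
  have p12 := pop_and (a := a) (f := f) (g := g) 1 2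
  have p03 := pop_and (a := a) (f := f) (g := g) 0 3
  have p13 := pop_and (a := a) (f := f) (g := g) 1 3
  have p23 := pop_and (a := a) (f := f) (g := g) 2 3
  have p04 := pop_and (a := a) (f := f) (g := g) 0 4
  have p14 := pop_and (a := a) (f := f) (g := g) 1 4
  have p24 := pop_and (a := a) (f := f) (g := g) 2 4
  have p34 := pop_and (a := a) (f := f) (g := g) 3 4
  rw [h240] at p01 p02 p03 p04
  rw [h240]
  have S := search_true
  unfold search at S
  have S1 := stp (List.all_eq_true.1 S _ (M_mem hG h 1)) (by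
    rw [Bool.and_eq_true, Nat.ble_eq, p01]
    exact ⟨s1, by omega⟩)
  have S2 := stp (List.all_eq_true.1 S1 _ (M_mem hG h 2)) (by
    simp only [Bool.and_eq_true, Nat.ble_eq, p01, p02, p12]
    exact ⟨⟨s2, by omega⟩, by omega⟩)
  have S3 := stp (List.all_eq_true.1 S2 _ (M_mem hG h 3)) (by
    simp only [Bool.and_eq_true, Nat.ble_eq, p01, p02, p12, p03, p13, p23]
    exact ⟨⟨⟨⟨s3, by omega⟩, by omega⟩, by omega⟩, by omega⟩)
  have S4' := List.all_eq_true.1 S3 _ (M_mem hG h 4)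
  rw [Bool.or_assoc] at S4'
  have S4 := stp S4' (by
    simp only [Bool.and_eq_true, Nat.ble_eq, p01, p02, p12, p03, p13, p23, p04, p14, p24, p34]
    exact ⟨⟨⟨⟨⟨s4, by omega⟩, by omega⟩, by omega⟩, by omega⟩, by omega⟩)
  have R0 := fun y => room_ok hG h y
  have K0 := fun y => cand_ok hG h y
  rw [h240] at R0 K0
  have S5 := stp S4 (by
    unfold rooms
    simp only [Bool.and_eq_true]
    exact ⟨⟨⟨⟨⟨⟨⟨R0 0, R0 7⟩, R0 1⟩, R0 6⟩, R0 2⟩, R0 5⟩, R0 3⟩, R0 4⟩)
  unfold qsearch at S5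
  have T0 := List.all_eq_true.1 S5 _ (K0 0)
  have T1 := stp (List.all_eq_true.1 T0 _ (K0 1)) (cpt_ok hG 0 1)
  have T2 := stp (List.all_eq_true.1 T1 _ (K0 2)) (by
    simp only [Bool.and_eq_true]
    exact ⟨cpt_ok hG 0 2, cpt_ok hG 1 2⟩)
  have T3 := stp (List.all_eq_true.1 T2 _ (K0 3)) (by
    simp only [Bool.and_eq_true]
    exact ⟨⟨cpt_ok hG 0 3, cpt_ok hG 1 3⟩, cpt_ok hG 2 3⟩)
  have T4 := stp (List.all_eq_true.1 T3 _ (K0 4)) (by
    simp only [Bool.and_eq_true]
    exact ⟨⟨⟨cpt_ok hG 0 4, cpt_ok hG 1 4⟩, cpt_ok hG 2 4⟩, cpt_ok hG 3 4⟩)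
  have T5 := stp (List.all_eq_true.1 T4 _ (K0 5)) (by
    simp only [Bool.and_eq_true]
    exact ⟨⟨⟨⟨cpt_ok hG 0 5, cpt_ok hG 1 5⟩, cpt_ok hG 2 5⟩, cpt_ok hG 3 5⟩, cpt_ok hG 4 5⟩)
  have T6 := stp (List.all_eq_true.1 T5 _ (K0 6)) (by
    simp only [Bool.and_eq_true]
    exact ⟨⟨⟨⟨⟨cpt_ok hG 0 6, cpt_ok hG 1 6⟩, cpt_ok hG 2 6⟩, cpt_ok hG 3 6⟩, cpt_ok hG 4 6⟩,
      cpt_ok hG 5 6⟩)
  have T7 := stp (List.all_eq_true.1 T6 _ (K0 7)) (by
    simp only [Bool.and_eq_true]
    exact ⟨⟨⟨⟨⟨⟨cpt_ok hG 0 7, cpt_ok hG 1 7⟩, cpt_ok hG 2 7⟩, cpt_ok hG 3 7⟩, cpt_ok hG 4 7⟩,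
      cpt_ok hG 5 7⟩, cpt_ok hG 6 7⟩)
  exact List.any_eq_true.1 T7

end Pool.Agent.V11204.PatClass
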