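import Mathlib
import Pool.Agent.V11204.PatClass

/-!
# The classification theorem
-/

namespace Pool.Agent.V11204.PatIso
open PatSearch PatSound PatClass

variable {a : Fin 14 → Fin 14 → Bool} {x : Fin 14} {f : Fin 5 → Fin 14} {g : Fin 8 → Fin 14}

lemma testBit_shift6 {c m : ℕ} (hc : c < 64) (j : ℕ) :
    (c + (m <<< 6)).testBit j = if j < 6 then c.testBit j else m.testBit (j - 6) := by
  rw [Nat.shiftLeft_eq, add_comm, mul_comm]
  exact Nat.testBit_two_pow_mul_add m (i := 6) hc j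

def e (x : Fin 14) (f : Fin 5 → Fin 14) (g : Fin 8 → Fin 14) : Fin 14 → Fin 14 :=
  ![x, f 0, f 1, f 2, f 3, f 4, g 0, g 1, g 2, g 3, g 4, g 5, g 6, g 7]

def msk (a : Fin 14 → Fin 14 → Bool) (f : Fin 5 → Fin 14) (g : Fin 8 → Fin 14) : Fin 14 → ℕ :=
  ![62, 1 + (M a f g 0 <<< 6), 1 + (M a f g 1 <<< 6), 1 + (M a f g 2 <<< 6),
    1 + (M a f g 3 <<< 6), 1 + (M a f g 4 <<< 6),
    codeRow (M a f g 0) (M a f g 1) (M a f g 2) (M a f g 3) (M a f g 4) 0 (MQ a g 0),
    codeRow (M a f g 0) (M a f g 1) (M a f g 2) (M a f g 3) (M a f g 4) 1 (MQ a g 1),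
    codeRow (M a f g 0) (M a f g 1) (M a f g 2) (M a f g 3) (M a f g 4) 2 (MQ a g 2),
    codeRow (M a f g 0) (M a f g 1) (M a f g 2) (M a f g 3) (M a f g 4) 3 (MQ a g 3),
    codeRow (M a f g 0) (M a f g 1) (M a f g 2) (M a f g 3) (M a f g 4) 4 (MQ a g 4),
    codeRow (M a f g 0) (M a f g 1) (M a f g 2) (M a f g 3) (M a f g 4) 5 (MQ a g 5),
    codeRow (M a f g 0) (M a f g 1) (M a f g 2) (M a f g 3) (M a f g 4) 6 (MQ a g 6),
    codeRow (M a f g 0) (M a f g 1) (M a f g 2) (M a f g 3) (M a f g 4) 7 (MQ a g 7)]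

lemma e_f (i : Fin 5) : e x f g ⟨i + 1, by omega⟩ = f i := by
  fin_cases i <;> rfl

lemma e_g (y : Fin 8) : e x f g ⟨y + 6, by omega⟩ = g y := by
  fin_cases y <;> rfl

/-- every index is 0, or `i + 1`, or `y + 6` -/
lemma idx (j : Fin 14) : j = 0 ∨ (∃ i : Fin 5, j = ⟨i + 1, by omega⟩) ∨
    (∃ y : Fin 8, j = ⟨y + 6, by omega⟩) := by
  revert j; decide

lemma row_x (hG : Gr a) (h : Lab a x f g) (j : Fin 14) :
    (62 : ℕ).testBit j = a x (e x f g j) := by
  rcases idx j with rfl | ⟨i, rfl⟩ | ⟨y, rfl⟩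
  · show false = a x x
    rw [hG.irr]
  · rw [e_f, h.fx]
    revert i; decide
  · rw [e_g, h.gx]
    revert y; decide

lemma row_f (hG : Gr a) (h : Lab a x f g) (i : Fin 5) (j : Fin 14) :
    (1 + (M a f g i <<< 6)).testBit j = a (f i) (e x f g j) := by
  rw [testBit_shift6 (by norm_num)]
  rcases idx j with rfl | ⟨k, rfl⟩ | ⟨y, rfl⟩
  · show true = a (f i) x
    rw [hG.symm, h.fx]
  · rw [e_f, hG.tri (f i) x (f k) (by rw [hG.symm]; exact h.fx i) (h.fx k),
      if_pos (by show (k : ℕ) + 1 < 6; omega)]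
    revert k; decide
  · rw [e_g]
    have h1 : ¬ ((y : ℕ) + 6 < 6) := by omega
    rw [if_neg h1]
    show (M a f g i).testBit (↑y + 6 - 6) = _
    rw [Nat.add_sub_cancel, M_bit]

lemma code_bits : ∀ b0 b1 b2 b3 b4 : Bool,
    ((bif b0 then 2 else 0) + (bif b1 then 4 else 0) + (bif b2 then 8 else 0) +
      (bif b3 then 16 else 0) + (bif b4 then 32 else 0) < 64) ∧
    ((bif b0 then 2 else 0) + (bif b1 then 4 else 0) + (bif b2 then 8 else 0) +
      (bif b3 then 16 else 0) + (bif b4 then 32 else 0)).testBit 0 = false ∧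
    ∀ i : Fin 5, ((bif b0 then 2 else 0) + (bif b1 then 4 else 0) + (bif b2 then 8 else 0) +
      (bif b3 then 16 else 0) + (bif b4 then 32 else 0)).testBit (i + 1) =
      (![b0, b1, b2, b3, b4] : Fin 5 → Bool) i := by decide +kernel

lemma row_g (hG : Gr a) (h : Lab a x f g) (y : Fin 8) (j : Fin 14) :
    (codeRow (M a f g 0) (M a f g 1) (M a f g 2) (M a f g 3) (M a f g 4) y
      (MQ a g y)).testBit j = a (g y) (e x f g j) := by
  have hb := code_bits ((M a f g 0).testBit y) ((M a f g 1).testBit y) ((M a f g 2).testBit y)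
    ((M a f g 3).testBit y) ((M a f g 4).testBit y)
  unfold codeRow
  rw [testBit_shift6 hb.1]
  rcases idx j with rfl | ⟨k, rfl⟩ | ⟨z, rfl⟩
  · rw [if_pos (by norm_num)]
    show _ = a (g y) x
    rw [hG.symm, h.gx]
    exact hb.2.1
  · rw [e_f, if_pos (by show (k : ℕ) + 1 < 6; omega)]
    rw [show (((⟨k + 1, by omega⟩ : Fin 14) : ℕ)) = k + 1 from rfl, hb.2.2 k, hG.symm]
    fin_cases k
    · exact M_bit 0 y
    · exact M_bit 1 y
    · exact M_bit 2 y
    · exact M_bit 3 y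
    · exact M_bit 4 y
  · rw [e_g]
    have h1 : ¬ ((z : ℕ) + 6 < 6) := by omega
    rw [if_neg h1]
    show (MQ a g y).testBit (↑z + 6 - 6) = _
    rw [Nat.add_sub_cancel, MQ_bit]

lemma msk_bit (hG : Gr a) (h : Lab a x f g) (i j : Fin 14) :
    (msk a f g i).testBit j = a (e x f g i) (e x f g j) := by
  rcases idx i with rfl | ⟨k, rfl⟩ | ⟨y, rfl⟩
  · exact row_x hG h j
  · rw [e_f]
    have : msk a f g ⟨k + 1, by omega⟩ = 1 + (M a f g k <<< 6) := by
      fin_cases k <;> rfl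
    rw [this]
    exact row_f hG h k j
  · rw [e_g]
    have : msk a f g ⟨y + 6, by omega⟩ =
        codeRow (M a f g 0) (M a f g 1) (M a f g 2) (M a f g 3) (M a f g 4) y (MQ a g y) := by
      fin_cases y <;> rfl
    rw [this]
    exact row_g hG h y j

lemma isoAt_rows {gp : ℕ × ℕ} (hi : isoAt (M a f g 0) (M a f g 1) (M a f g 2) (M a f g 3)
      (M a f g 4) (MQ a g 0) (MQ a g 1) (MQ a g 2) (MQ a g 3) (MQ a g 4) (MQ a g 5) (MQ a g 6)
      (MQ a g 7) gp = true) (i : Fin 14) : rowIs gp.1 gp.2 i (msk a f g i) = true := by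
  unfold isoAt at hi
  simp only [Bool.and_eq_true] at hi
  obtain ⟨⟨⟨⟨⟨⟨⟨⟨⟨⟨⟨⟨⟨h6, h7⟩, h8⟩, h9⟩, h10⟩, h11⟩, h12⟩, h13⟩, h0⟩, h1⟩, h2⟩, h3⟩, h4⟩, h5⟩ := hi
  fin_cases i
  · exact h0
  · exact h1
  · exact h2
  · exact h3
  · exact h4
  · exact h5
  · exact h6
  · exact h7
  · exact h8
  · exact h9
  · exact h10
  · exact h11
  · exact h12
  · exact h13

theorem classify (hG : Gr a) (h4 : ∑ u, ∑ w, codeg a u w ^ 2 ≤ 1190) :
    ∃ G, (G = G0 ∨ G = G1 ∨ G = G2) ∧ ∃ σ : Equiv.Perm (Fin 14), ∀ i j : Fin 14,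
      a (σ i) (σ j) = (row G i).testBit j := by
  obtain ⟨x, hx⟩ : ∃ x, ∑ w, codeg a x w ^ 2 ≤ 85 := by
    by_contra hcon
    push Not at hcon
    have h1 : ∑ u : Fin 14, 86 ≤ ∑ u, ∑ w, codeg a u w ^ 2 :=
      Finset.sum_le_sum fun u _ => hcon u
    simp only [Finset.sum_const, Finset.card_univ, Fintype.card_fin, smul_eq_mul] at h1
    omega
  obtain ⟨f, g, h, hmin, hmono⟩ := exists_good hG x
  obtain ⟨gp, hgp, hiso⟩ := found hG h hx hmin hmono
  have hok := List.all_eq_true.1 isos_ok gp hgp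
  unfold okIso at hok
  simp only [Bool.and_eq_true, Bool.or_eq_true, beq_iff_eq, List.all_eq_true, List.mem_range,
    Nat.blt_eq, Bool.not_eq_true', beq_eq_false_iff_ne] at hok
  obtain ⟨hGG, hP⟩ := hok
  have hrows := isoAt_rows hiso
  generalize gp.1 = G at hGG hrows
  generalize gp.2 = p at hP hrows
  let π : Fin 14 → Fin 14 := fun i => ⟨P p i, (hP i i.2).1⟩
  have hπinj : Function.Injective π := by
    intro i j hij
    by_contra hne
    have h1 := (hP i i.2).2 j j.2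
    rcases h1 with h1 | h1
    · exact hne (Fin.ext h1)
    · exact h1 (Fin.mk.inj_iff.1 hij)
  have hπ : Function.Bijective π := (Fintype.bijective_iff_injective_and_card π).2 ⟨hπinj, rfl⟩
  have hesurj : Function.Surjective (e x f g) := by
    intro w
    rcases h.surj w with h1 | ⟨i, hi⟩ | ⟨y, hy⟩
    · exact ⟨0, h1.symm⟩
    · exact ⟨⟨i + 1, by omega⟩, by rw [e_f]; exact hi⟩
    · exact ⟨⟨y + 6, by omega⟩, by rw [e_g]; exact hy⟩
  have he : Function.Bijective (e x f g) :=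
    (Fintype.bijective_iff_surjective_and_card _).2 ⟨hesurj, rfl⟩
  refine ⟨G, or_assoc.1 hGG, (Equiv.ofBijective π hπ).symm.trans (Equiv.ofBijective _ he), ?_⟩
  intro s t
  obtain ⟨i, rfl⟩ := hπ.surjective s
  obtain ⟨j, rfl⟩ := hπ.surjective t
  have e1 : ∀ k, ((Equiv.ofBijective π hπ).symm.trans (Equiv.ofBijective _ he)) (π k) =
      e x f g k := by
    intro k
    rw [Equiv.trans_apply]
    have : (Equiv.ofBijective π hπ).symm (π k) = k := by
      rw [Equiv.symm_apply_eq]; rfl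
    rw [this]; rfl
  rw [e1, e1, ← msk_bit hG h]
  have h1 := hrows i
  unfold rowIs at h1
  rw [beq_iff_eq] at h1
  have h2 : row G (P p i) = img p (msk a f g i) := h1.symm
  show _ = (row G (P p i)).testBit (P p j)
  rw [h2]
  rw [Bool.eq_iff_iff, img_testBit]
  constructor
  · intro h3
    exact ⟨j, j.2, h3, rfl⟩
  · rintro ⟨k, hk, h3, h5⟩
    have : (⟨k, hk⟩ : Fin 14) = j := hπinj (Fin.ext h5)
    rw [← this]; exact h3

end Pool.Agent.V11204.PatIso
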