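import Mathlib
import Pool.Agent.V11204.PatIso
import Pool.Agent.V11204.PatData
import Pool.Agent.V11204.PatSpec

/-!
# Walk counts and the spectra
-/

namespace Pool.Agent.V11204.PatFinal
open PatSearch PatSound PatClass PatIso PatData Matrix

/-- adjacency matrix of a packed graph -/
def AM (G : ℕ) : Matrix (Fin 14) (Fin 14) ℕ := Matrix.of (adj G)

lemma walks {G B C : ℕ}
    (hs : ∀ i j : Fin 14, ∑ k : Fin 14, adj G i k * adj G k j = unp 8 B i j)
    (hc : ∀ i j : Fin 14, ∑ k : Fin 14, unp 8 B i k * adj G k j = unp 8 C i j) :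
    (AM G ^ 2).trace = ∑ i, unp 8 B i i ∧ (AM G ^ 3).trace = ∑ i, unp 8 C i i ∧
    (AM G ^ 4).trace = ∑ i, ∑ j, unp 8 B i j * unp 8 B j i ∧
    (AM G ^ 5).trace = ∑ i, ∑ j, unp 8 B i j * unp 8 C j i := by
  have h2 : AM G ^ 2 = Matrix.of (unp 8 B) := by
    ext i j
    rw [pow_two, Matrix.mul_apply]
    exact hs i j
  have h3 : AM G ^ 3 = Matrix.of (unp 8 C) := by
    ext i j
    rw [pow_succ, h2, Matrix.mul_apply]
    exact hc i j
  have h4 : AM G ^ 4 = AM G ^ 2 * AM G ^ 2 := by rw [← pow_add]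
  have h5 : AM G ^ 5 = AM G ^ 2 * AM G ^ 3 := by rw [← pow_add]
  rw [h4, h5, h3, h2]
  refine ⟨rfl, rfl, ?_, ?_⟩
  · simp only [Matrix.trace, Matrix.diag_apply, Matrix.mul_apply, Matrix.of_apply]
  · simp only [Matrix.trace, Matrix.diag_apply, Matrix.mul_apply, Matrix.of_apply]

lemma w0 : (AM G0 ^ 2).trace = 70 ∧ (AM G0 ^ 3).trace = 0 ∧ (AM G0 ^ 4).trace = 1190 ∧
    (AM G0 ^ 5).trace = 960 := by
  have h := walks sq0 cu0
  obtain ⟨a, b, c, d⟩ := tr0
  rw [a, b, c, d] at h
  exact h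

lemma w1 : (AM G1 ^ 2).trace = 70 ∧ (AM G1 ^ 3).trace = 0 ∧ (AM G1 ^ 4).trace = 1190 ∧
    (AM G1 ^ 5).trace = 980 := by
  have h := walks sq1 cu1
  obtain ⟨a, b, c, d⟩ := tr1
  rw [a, b, c, d] at h
  exact h

lemma w2 : (AM G2 ^ 2).trace = 70 ∧ (AM G2 ^ 3).trace = 0 ∧ (AM G2 ^ 4).trace = 1206 ∧
    (AM G2 ^ 5).trace = 880 := by
  have h := walks sq2 cu2
  obtain ⟨a, b, c, d⟩ := tr2
  rw [a, b, c, d] at h
  exact h

structure TOk (T : Matrix (Fin 14) (Fin 14) ℕ) : Prop where
  symm : ∀ i j, T i j = T j i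
  diag : ∀ i, T i i = 0
  row : ∀ i, ∑ j, T i j = 5

variable {T : Matrix (Fin 14) (Fin 14) ℕ}

lemma tr_sq (h : TOk T) : (T ^ 2).trace = ∑ i, ∑ j, T i j * T i j := by
  rw [pow_two]
  simp only [Matrix.trace, Matrix.diag_apply, Matrix.mul_apply]
  refine Finset.sum_congr rfl fun i _ => Finset.sum_congr rfl fun j _ => ?_
  rw [h.symm j i]

lemma sum_T (h : TOk T) : ∑ i, ∑ j, T i j = 70 := by
  simp [h.row]

lemma tr2_ge (h : TOk T) : 70 ≤ (T ^ 2).trace := by
  rw [tr_sq h, ← sum_T h]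
  refine Finset.sum_le_sum fun i _ => Finset.sum_le_sum fun j _ => ?_
  exact Nat.le_mul_self _

lemma le_one (h : TOk T) (h2 : (T ^ 2).trace = 70) (i j : Fin 14) : T i j ≤ 1 := by
  by_contra hcon
  push Not at hcon
  have : ∑ i, ∑ j, T i j < ∑ i, ∑ j, T i j * T i j := by
    refine Finset.sum_lt_sum (fun i _ => Finset.sum_le_sum fun j _ => Nat.le_mul_self _)
      ⟨i, Finset.mem_univ _, ?_⟩
    refine Finset.sum_lt_sum (fun j _ => Nat.le_mul_self _) ⟨j, Finset.mem_univ _, ?_⟩
    nlinarith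
  rw [← tr_sq h, sum_T h, h2] at this
  exact lt_irrefl _ this

lemma tri_free (h3 : (T ^ 3).trace = 0) (i j k : Fin 14) : T i j * T j k * T k i = 0 := by
  rw [pow_succ, pow_two] at h3
  simp only [Matrix.trace, Matrix.diag_apply, Matrix.mul_apply] at h3
  have h4 := (Finset.sum_eq_zero_iff.1 h3) i (Finset.mem_univ _)
  have h5 := (Finset.sum_eq_zero_iff.1 h4) k (Finset.mem_univ _)
  rw [Finset.sum_mul] at h5
  exact (Finset.sum_eq_zero_iff.1 h5) j (Finset.mem_univ _)

lemma trace_sub (σ : Equiv.Perm (Fin 14)) (A : Matrix (Fin 14) (Fin 14) ℕ) :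
    (A.submatrix σ σ).trace = A.trace := by
  simp only [Matrix.trace, Matrix.diag_apply, Matrix.submatrix_apply]
  exact Equiv.sum_comp σ fun i => A i i

lemma pow_sub (σ : Equiv.Perm (Fin 14)) (A : Matrix (Fin 14) (Fin 14) ℕ) (n : ℕ) :
    (A ^ n).submatrix σ σ = (A.submatrix σ σ) ^ n := by
  induction n with
  | zero => simp
  | succ n ih => rw [pow_succ, pow_succ, ← ih, Matrix.submatrix_mul_equiv]

theorem class_T (h : TOk T) (h2 : (T ^ 2).trace = 70) (h3 : (T ^ 3).trace = 0)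
    (h4 : (T ^ 4).trace ≤ 1190) :
    ∃ G, (G = G0 ∨ G = G1 ∨ G = G2) ∧ ∀ n, (T ^ n).trace = (AM G ^ n).trace := by
  have hle := le_one h h2
  let a : Fin 14 → Fin 14 → Bool := fun i j => decide (T i j = 1)
  have ha : ∀ i j, (a i j).toNat = T i j := by
    intro i j
    have := hle i j
    show (decide (T i j = 1)).toNat = T i j
    interval_cases T i j <;> rfl
  have hG : Gr a := by
    refine ⟨?_, ?_, ?_, ?_⟩
    · intro i j
      show decide (T i j = 1) = decide (T j i = 1)
      rw [h.symm]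
    · intro i
      show decide (T i i = 1) = false
      rw [h.diag]; rfl
    · intro i j k hij hjk
      have h1 : T i j = 1 := of_decide_eq_true hij
      have h1' : T j k = 1 := of_decide_eq_true hjk
      have h5 := tri_free h3 i j k
      rw [h1, h1', one_mul, one_mul, h.symm] at h5
      show decide (T i k = 1) = false
      rw [h5]; rfl
    · intro w
      simp only [ha]
      exact h.row w
  have hcd : ∀ u w, codeg a u w = (T ^ 2) u w := by
    intro u w
    unfold codeg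
    rw [pow_two, Matrix.mul_apply]
    refine Finset.sum_congr rfl fun k _ => ?_
    rw [← ha u k, ← ha k w]
    cases a u k <;> cases a k w <;> rfl
  have hsy : ∀ u w, (T ^ 2) u w = (T ^ 2) w u := by
    intro u w
    rw [pow_two, Matrix.mul_apply, Matrix.mul_apply]
    refine Finset.sum_congr rfl fun k _ => ?_
    rw [h.symm u k, h.symm k w, mul_comm]
  have h4' : ∑ u, ∑ w, codeg a u w ^ 2 ≤ 1190 := by
    refine le_trans (le_of_eq ?_) h4
    rw [show (4 : ℕ) = 2 + 2 from rfl, pow_add T 2 2]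
    simp only [Matrix.trace, Matrix.diag_apply, Matrix.mul_apply (M := T ^ 2)]
    refine Finset.sum_congr rfl fun u _ => Finset.sum_congr rfl fun w _ => ?_
    rw [hcd, hsy w u, sq]
  obtain ⟨G, hG', σ, hσ⟩ := classify hG h4'
  refine ⟨G, hG', fun n => ?_⟩
  have hsub : T.submatrix σ σ = AM G := by
    ext i j
    rw [Matrix.submatrix_apply, ← ha, hσ]
    rfl
  rw [← trace_sub σ (T ^ n), pow_sub, hsub]

theorem lexmin (h : TOk T) (t : ℕ) (ht : 2 ≤ t)
    (heq : ∀ s, 2 ≤ s → s < t → (T ^ s).trace = (AM G0 ^ s).trace) :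
    (AM G0 ^ t).trace ≤ (T ^ t).trace := by
  obtain ⟨a2, a3, a4, a5⟩ := w0
  rcases Nat.lt_or_ge t 3 with h3 | h3
  · have : t = 2 := by omega
    subst this
    rw [a2]; exact tr2_ge h
  have e2 := heq 2 (le_refl _) h3
  rw [a2] at e2
  rcases Nat.lt_or_ge t 4 with h4 | h4
  · have : t = 3 := by omega
    subst this
    rw [a3]; exact Nat.zero_le _
  have e3 := heq 3 (by norm_num) h4
  rw [a3] at e3
  by_contra hcon
  push Not at hcon
  have hle4 : (T ^ 4).trace ≤ 1190 := by
    rcases Nat.lt_or_ge t 5 with h5 | h5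
    · have : t = 4 := by omega
      subst this
      rw [a4] at hcon
      exact hcon.le
    · rw [heq 4 (by norm_num) h5, a4]
  obtain ⟨G, hG, hw⟩ := class_T h e2 e3 hle4
  rw [hw] at hcon
  rcases hG with rfl | rfl | rfl
  · exact lt_irrefl _ hcon
  · obtain ⟨b2, b3, b4, b5⟩ := w1
    rcases Nat.lt_or_ge t 5 with h5 | h5
    · have : t = 4 := by omega
      subst this
      rw [a4, b4] at hcon
      exact lt_irrefl _ hcon
    rcases Nat.lt_or_ge t 6 with h6 | h6
    · have : t = 5 := by omega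
      subst this
      rw [a5, b5] at hcon
      omega
    · have := heq 5 (by norm_num) h6
      rw [hw, a5, b5] at this
      omega
  · obtain ⟨b2, b3, b4, b5⟩ := w2
    rw [hw, b4] at hle4
    omega

/-! ### designs -/

/-- concurrence matrix with zero diagonal -/
def TM (M : Matrix (Fin 14) (Fin 35) ℕ) : Matrix (Fin 14) (Fin 14) ℕ :=
  fun i j => if i = j then 0 else ∑ l, M i l * M j l

lemma TM_ok {M : Matrix (Fin 14) (Fin 35) ℕ} (hc : ∀ j, ∑ i, M i j = 2)
    (hr : ∀ i, ∑ j, M i j = 5) (h1 : ∀ i j, M i j ≤ 1) :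
    TOk (TM M) ∧ ((M.map (fun x : ℕ => (x : ℤ))) * (M.map (fun x : ℕ => (x : ℤ))).transpose
        - (5 : ℤ) • (1 : Matrix (Fin 14) (Fin 14) ℤ)) = (TM M).map (fun x : ℕ => (x : ℤ)) := by
  have hdd : ∀ i, ∑ l, M i l * M i l = 5 := by
    intro i
    rw [← hr i]
    refine Finset.sum_congr rfl fun l _ => ?_
    have := h1 i l
    interval_cases M i l <;> rfl
  refine ⟨⟨?_, ?_, ?_⟩, ?_⟩
  · intro i j
    unfold TM
    by_cases hij : i = j
    · rw [hij]
    · rw [if_neg hij, if_neg (Ne.symm hij)]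
      exact Finset.sum_congr rfl fun l _ => mul_comm _ _
  · intro i
    unfold TM
    rw [if_pos rfl]
  · intro i
    have h2 : ∑ j, ∑ l, M i l * M j l = 10 := by
      rw [Finset.sum_comm]
      simp only [← Finset.mul_sum, hc, ← Finset.sum_mul, hr]
      norm_num
    have h3 : ∑ j, ∑ l, M i l * M j l = ∑ j, (TM M i j + if i = j then 5 else 0) := by
      refine Finset.sum_congr rfl fun j _ => ?_
      unfold TM
      by_cases hij : i = j
      · subst hij
        rw [if_pos rfl, if_pos rfl, hdd]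
      · rw [if_neg hij, if_neg hij, add_zero]
    rw [Finset.sum_add_distrib, Finset.sum_ite_eq, if_pos (Finset.mem_univ _)] at h3
    omega
  · ext i j
    rw [Matrix.sub_apply, Matrix.mul_apply, Matrix.smul_apply, Matrix.map_apply]
    simp only [Matrix.map_apply, Matrix.transpose_apply, smul_eq_mul]
    unfold TM
    by_cases hij : i = j
    · subst hij
      rw [if_pos rfl, Matrix.one_apply_eq]
      have := hdd i
      have h5 : (∑ l, (M i l : ℤ) * (M i l : ℤ)) = 5 := by exact_mod_cast this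
      rw [h5]; norm_num
    · rw [if_neg hij, Matrix.one_apply_ne hij]
      push_cast
      ring

lemma trace_cast (A : Matrix (Fin 14) (Fin 14) ℕ) (n : ℕ) :
    ((A.map (fun x : ℕ => (x : ℤ))) ^ n).trace = ((A ^ n).trace : ℤ) := by
  have h1 : (A.map (fun x : ℕ => (x : ℤ))) ^ n = (A ^ n).map (fun x : ℕ => (x : ℤ)) := by
    have := (map_pow ((Nat.castRingHom ℤ).mapMatrix (m := Fin 14)) A n).symm
    exact this
  rw [h1]
  simp [Matrix.trace]

/-- the designs -/
def D (E : ℕ) : Matrix (Fin 14) (Fin 35) ℕ := Matrix.of (inc E)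

lemma D_le (E : ℕ) (i : Fin 14) (j : Fin 35) : D E i j ≤ 1 := Bool.toNat_le _

lemma TM_D0 : TM (D E0) = AM G0 := by
  ext i j
  have h := nn0 i j
  by_cases hij : i = j
  · subst hij
    have h5 : ∀ i : Fin 14, adj G0 i i = 0 := by decide +kernel
    show (if i = i then 0 else _) = adj G0 i i
    rw [if_pos rfl, h5]
  · rw [if_neg hij, zero_add] at h
    show (if i = j then 0 else _) = adj G0 i j
    rw [if_neg hij]
    exact h

/-- the C-matrix of a design -/
noncomputable def CM (E : ℕ) : Matrix (Fin 14) (Fin 14) ℝ :=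
  (5 : ℝ) • (1 : Matrix (Fin 14) (Fin 14) ℝ) -
    (1 / (2 : ℝ)) • ((D E).map (fun x : ℕ => (x : ℝ)) * ((D E).map (fun x : ℕ => (x : ℝ))).transpose)

theorem ev_sum {E G : ℕ} {KM : Fin 14 → Fin 14 → ℤ} {c : ℤ} (hc : 0 < c)
    (hnn : ∀ i j : Fin 14, ∑ l : Fin 35, inc E i l * inc E j l =
      (if i = j then 5 else 0) + adj G i j)
    (hkl : ∀ i j : Fin 14, ∑ k : Fin 14, KM i k * ((if k = j then 5 else 0) - (adj G k j : ℤ)) =
      c * ((if i = j then 14 else 0) - 1))
    (hks : ∀ i : Fin 14, ∑ k : Fin 14, KM i k = 0)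
    (hcol : ∀ j : Fin 14, ∑ k : Fin 14, adj G k j = 5)
    (hsym : ∀ i j : Fin 14, adj G i j = adj G j i) :
    (((CM E).charpoly.roots.erase 0).map (fun x => x⁻¹)).sum =
      ((∑ i, KM i i : ℤ) : ℝ) / (7 * c) ∧
      (0 : ℝ) ∉ (CM E).charpoly.roots.erase 0 := by
  have hc' : (c : ℝ) ≠ 0 := by exact_mod_cast hc.ne'
  have hC : ∀ k j, CM E k j = (1 / 2) * (((if k = j then 5 else 0 : ℤ) : ℝ) - (adj G k j : ℝ)) := by
    intro k j
    unfold CM
    rw [Matrix.sub_apply, Matrix.smul_apply, Matrix.smul_apply, Matrix.mul_apply]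
    simp only [Matrix.map_apply, Matrix.transpose_apply, smul_eq_mul]
    have h1 : (∑ l, (D E k l : ℝ) * (D E j l : ℝ)) =
        ((if k = j then 5 else 0 : ℤ) : ℝ) + (adj G k j : ℝ) := by
      have h2 : ((∑ l : Fin 35, inc E k l * inc E j l : ℕ) : ℝ) =
          (((if k = j then 5 else 0) + adj G k j : ℕ) : ℝ) := by rw [hnn]
      push_cast at h2
      rw [show (∑ l, (D E k l : ℝ) * (D E j l : ℝ)) =
        ∑ l, (inc E k l : ℝ) * (inc E j l : ℝ) from rfl, h2]
      split_ifs <;> simp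
    rw [h1]
    by_cases hkj : k = j
    · subst hkj
      rw [Matrix.one_apply_eq, if_pos rfl]
      push_cast
      ring
    · rw [Matrix.one_apply_ne hkj, if_neg hkj]
      push_cast
      ring
  set P : Matrix (Fin 14) (Fin 14) ℝ := Matrix.of fun _ _ => (1 / 14 : ℝ) with hP
  set K : Matrix (Fin 14) (Fin 14) ℝ := Matrix.of fun i j => (KM i j : ℝ) / (7 * c) with hK
  have hA : (CM E).IsHermitian := by
    ext i j
    rw [Matrix.conjTranspose_apply, hC, hC, hsym]
    simp only [star_trivial]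
    by_cases hij : i = j
    · rw [hij]
    · rw [if_neg hij, if_neg (Ne.symm hij)]
  have hPA : P * CM E = 0 := by
    ext i j
    rw [Matrix.mul_apply]
    simp only [hC, hP, Matrix.of_apply, Matrix.zero_apply]
    rw [← Finset.mul_sum, ← Finset.mul_sum, Finset.sum_sub_distrib]
    have h1 : ∑ k : Fin 14, ((if k = j then 5 else 0 : ℤ) : ℝ) = 5 := by
      simp
    have h2 : ∑ k : Fin 14, (adj G k j : ℝ) = 5 := by exact_mod_cast hcol j
    rw [h1, h2]; ring
  have hKA : K * CM E = 1 - P := by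
    ext i j
    rw [Matrix.mul_apply, Matrix.sub_apply]
    simp only [hC, hP, hK, Matrix.of_apply]
    have h1 : ((∑ k : Fin 14, KM i k * ((if k = j then 5 else 0) - (adj G k j : ℤ)) : ℤ) : ℝ) =
        ((c * ((if i = j then 14 else 0) - 1) : ℤ) : ℝ) := by rw [hkl]
    have h2 : ∑ k : Fin 14, (KM i k : ℝ) / (7 * c) *
        ((1 / 2) * (((if k = j then 5 else 0 : ℤ) : ℝ) - (adj G k j : ℝ))) =
        (1 / (14 * c)) * ((∑ k : Fin 14, KM i k * ((if k = j then 5 else 0) -
          (adj G k j : ℤ)) : ℤ) : ℝ) := by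
      rw [Int.cast_sum, Finset.mul_sum]
      refine Finset.sum_congr rfl fun k _ => ?_
      push_cast
      field_simp
      ring
    rw [h2, h1]
    by_cases hij : i = j
    · subst hij
      rw [Matrix.one_apply_eq, if_pos rfl]
      push_cast
      field_simp
      norm_num
    · rw [Matrix.one_apply_ne hij, if_neg hij]
      push_cast
      field_simp
      norm_num
  have hKP : K * P = 0 := by
    ext i j
    rw [Matrix.mul_apply]
    simp only [hP, hK, Matrix.of_apply, Matrix.zero_apply]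
    rw [← Finset.sum_mul, ← Finset.sum_div]
    have : ∑ k : Fin 14, (KM i k : ℝ) = 0 := by exact_mod_cast hks i
    rw [this]; ring
  have hP1 : P.trace = 1 := by
    simp [Matrix.trace, hP]
  obtain ⟨e1, e2⟩ := PatSpec.erase_sum hA hPA hKA hKP hP1
  refine ⟨?_, e2⟩
  rw [e1]
  simp only [Matrix.trace, Matrix.diag_apply, hK, Matrix.of_apply]
  rw [← Finset.sum_div]
  push_cast
  rfl

lemma conn_D0 : (SimpleGraph.fromRel
    (fun i j : Fin 14 => 0 < (D E0 * (D E0).transpose) i j)).Connected := by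
  have hadj : ∀ i j : Fin 14, adj G0 i j = 1 → (SimpleGraph.fromRel
      (fun i j : Fin 14 => 0 < (D E0 * (D E0).transpose) i j)).Adj i j := by
    intro i j h
    rw [SimpleGraph.fromRel_adj]
    have hd : ∀ i : Fin 14, adj G0 i i = 0 := by decide +kernel
    refine ⟨fun hij => ?_, Or.inl ?_⟩
    · rw [hij, hd] at h
      exact absurd h (by norm_num)
    · rw [Matrix.mul_apply]
      have h1 := nn0 i j
      show 0 < ∑ l : Fin 35, inc E0 i l * inc E0 j l
      rw [h1, h]
      omega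
  have hr : ∀ i : Fin 14, (SimpleGraph.fromRel
      (fun i j : Fin 14 => 0 < (D E0 * (D E0).transpose) i j)).Reachable 0 i := by
    intro i
    rcases conn0 i with h | h | ⟨j, h1, h2⟩
    · rw [h]
    · exact (hadj _ _ h).reachable
    · exact (hadj _ _ h1).reachable.trans (hadj _ _ h2).reachable
  have : Nonempty (Fin 14) := ⟨0⟩
  exact ⟨fun i j => (hr i).symm.trans (hr j)⟩

end Pool.Agent.V11204.PatFinal
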